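import Pool.Agent.H299.RDE.Cert

/-!
# Boundedness from certificates

A certificate shows that a positive solution has no very large value which is (almost) a record
in a window of fixed length.  Solutions with zero initial values are handled by perturbation.
-/

namespace Pool.Agent.H299.RDE

open Filter Topology

/-- A boundedness certificate. -/
structure BCert where
  P : ℕ
  Q : ℕ
  w : ℕ
  X0 : ℤ
  t : Tree

def BCert.cfg (K : BCert) : Cfg :=
  ⟨K.P, K.Q, [-1, -1, -1, -1, -1], [-1, -1, -1, -1, -1], 2, 2, [1], K.w, 0, K.X0, 1⟩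

def BCert.ok (K : BCert) : Bool :=
  hasBit K.P && hasBit K.Q && chk K.cfg K.t []

/-- a common bound for the logarithms of the coefficients -/
noncomputable def bigK (b c : ℕ → ℝ) : ℝ :=
  Real.log 5 + ∑ i ∈ Finset.range 5, (|Real.log (b i)| + |Real.log (c i)|)

lemma bigK_pos (b c : ℕ → ℝ) : 0 < bigK b c :=
  add_pos_of_pos_of_nonneg log_five_pos
    (Finset.sum_nonneg fun _ _ => add_nonneg (abs_nonneg _) (abs_nonneg _))

lemma bigK_b (b c : ℕ → ℝ) {i : ℕ} (hi : i ≤ 4) :
    Real.log 5 + |Real.log (b i)| ≤ bigK b c := by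
  unfold bigK
  have := Finset.single_le_sum (f := fun i => |Real.log (b i)| + |Real.log (c i)|)
    (fun _ _ => add_nonneg (abs_nonneg _) (abs_nonneg _)) (Finset.mem_range.2 (by omega : i < 5))
  have := abs_nonneg (Real.log (c i))
  linarith

lemma bigK_c (b c : ℕ → ℝ) {i : ℕ} (hi : i ≤ 4) :
    Real.log 5 + |Real.log (c i)| ≤ bigK b c := by
  unfold bigK
  have := Finset.single_le_sum (f := fun i => |Real.log (b i)| + |Real.log (c i)|)
    (fun _ _ => add_nonneg (abs_nonneg _) (abs_nonneg _)) (Finset.mem_range.2 (by omega : i < 5))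
  have := abs_nonneg (Real.log (b i))
  linarith

lemma log_tot_le (P : ℕ) : Real.log (tot P) ≤ Real.log 5 := by
  unfold tot
  split_ifs
  · simpa using log_five_pos.le
  · exact le_refl _

lemma getD_neg_one {i : ℕ} (hi : i ≤ 4) : ([-1, -1, -1, -1, -1] : List ℤ).getD i 0 = -1 := by
  interval_cases i <;> rfl

lemma low_ok {K L : ℝ} (hK : 0 < K) (h : Real.log 5 + |L| ≤ K) : (-1 : ℝ) ≤ L / K := by
  rw [le_div_iff₀ hK]
  have := neg_abs_le L
  have := log_five_pos
  linarith

lemma upp_ok {K L : ℝ} (P : ℕ) (hK : 0 < K) (h : Real.log 5 + |L| ≤ K) :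
    (Real.log (tot P) + L) / K ≤ -1 + 2 := by
  rw [div_le_iff₀ hK]
  have := le_abs_self L
  have := log_tot_le P
  linarith

theorem BCert.no_window {K : BCert} (h : K.ok = true) {b c x : ℕ → ℝ} (hb : Supp K.P b)
    (hc : Supp K.Q c) (hx : PSol b c x) (n : ℕ) (hn : K.w ≤ n)
    (hX : (K.X0 : ℝ) * bigK b c ≤ Real.log (x n))
    (hR : ∀ m, m < n → Real.log (x m) ≤ Real.log (x n) + bigK b c) : False := by
  simp only [BCert.ok, Bool.and_eq_true] at h
  obtain ⟨⟨hP, hQ⟩, hchk⟩ := h
  have hP' := hasBit_iff hP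
  have hQ' := hasBit_iff hQ
  have hK := bigK_pos b c
  have hE := env_of_psol (C := K.cfg) hK hb hc hP' hQ'
    (by
      intro i hi _
      have : (K.cfg.bb i : ℝ) = (([-1, -1, -1, -1, -1] : List ℤ).getD i 0 : ℤ) := rfl
      rw [this, getD_neg_one hi]
      push_cast
      exact low_ok hK (bigK_b b c hi))
    (by
      intro i hi _
      have : (K.cfg.bb i : ℝ) = (([-1, -1, -1, -1, -1] : List ℤ).getD i 0 : ℤ) := rfl
      rw [this, getD_neg_one hi]
      have : (K.cfg.eP : ℝ) = (2 : ℤ) := rfl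
      rw [this]
      push_cast
      exact upp_ok _ hK (bigK_b b c hi))
    (by
      intro i hi _
      have : (K.cfg.cc i : ℝ) = (([-1, -1, -1, -1, -1] : List ℤ).getD i 0 : ℤ) := rfl
      rw [this, getD_neg_one hi]
      push_cast
      exact low_ok hK (bigK_c b c hi))
    (by
      intro i hi _
      have : (K.cfg.cc i : ℝ) = (([-1, -1, -1, -1, -1] : List ℤ).getD i 0 : ℤ) := rfl
      rw [this, getD_neg_one hi]
      have : (K.cfg.eQ : ℝ) = (2 : ℤ) := rfl
      rw [this]
      push_cast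
      exact upp_ok _ hK (bigK_c b c hi))
    hx
  have hE' := env_shift hE (n - K.w)
  refine chk_sound hE' ?_ K.t [] (by simp) hchk
  have e2 : n - K.w + K.w = n := by omega
  have hv : ∀ (y : ℕ → ℝ) r, vval y K.cfg.ell r = y r := by
    intro y r
    have : K.cfg.ell = [1] := rfl
    rw [this]
    simp [vval]
  refine ⟨?_, ?_, ?_⟩
  · rw [hv]
    have : K.cfg.w = K.w := rfl
    rw [this, e2]
    have : K.cfg.X0 = K.X0 := rfl
    rw [this, le_div_iff₀ hK]
    exact hX
  · intro k hk1 hk2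
    rw [hv, hv]
    have h1 : K.cfg.w = K.w := rfl
    have h2 : K.cfg.ell.length = 1 := rfl
    rw [h2, h1] at hk2
    rw [h1, e2]
    have e1 : n - K.w + (K.w - k) = n - k := by omega
    rw [e1]
    have h3 := hR (n - k) (by omega)
    have : ((K.cfg.sR : ℤ) : ℝ) = 1 := by
      have : K.cfg.sR = 1 := rfl
      rw [this]; norm_num
    rw [this, div_add_one hK.ne']
    exact div_le_div_of_nonneg_right h3 hK.le
  · intro k hk1 hk2
    have : K.cfg.G = 0 := rfl
    omega

/-- continuity of the orbit in the initial values -/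
lemma tendsto_orb {b c x : ℕ → ℝ} (hx : NSol b c x) (n : ℕ) :
    Tendsto (fun ε : ℝ => orb b c (x 0 + ε, x 1 + ε, x 2 + ε, x 3 + ε) n) (𝓝[>] 0)
      (𝓝 (x n)) := by
  have base : ∀ a : ℝ, Tendsto (fun ε : ℝ => a + ε) (𝓝[>] 0) (𝓝 a) := by
    intro a
    have : Tendsto (fun ε : ℝ => a + ε) (𝓝 0) (𝓝 (a + 0)) := tendsto_const_nhds.add tendsto_id
    rw [add_zero] at this
    exact this.mono_left nhdsWithin_le_nhds
  induction n using Nat.strong_induction_on with
  | _ n ih =>
    rcases lt_or_ge n 4 with h | h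
    · interval_cases n
      · exact base _
      · exact base _
      · exact base _
      · exact base _
    · obtain ⟨m, rfl⟩ := Nat.exists_eq_add_of_le' h
      rw [hx.eq m]
      simp only [orb_eq]
      have k0 := ih m (by omega)
      have k1 := ih (m + 1) (by omega)
      have k2 := ih (m + 2) (by omega)
      have k3 := ih (m + 3) (by omega)
      have hl : ∀ d : ℕ → ℝ, Tendsto
          (fun ε : ℝ => lin4 d (orb b c (x 0 + ε, x 1 + ε, x 2 + ε, x 3 + ε)) m) (𝓝[>] 0)
          (𝓝 (lin4 d x m)) := by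
        intro d
        unfold lin4
        exact (((tendsto_const_nhds.add (tendsto_const_nhds.mul k3)).add
          (tendsto_const_nhds.mul k2)).add (tendsto_const_nhds.mul k1)).add
          (tendsto_const_nhds.mul k0)
      exact (hl b).div (hl c) (hx.dpos m).ne'

/-- From the absence of record windows for positive solutions to boundedness of all solutions. -/
theorem bdd_of_no_window {P Q : ℕ} (hP : ∃ i, i ≤ 4 ∧ P.testBit i = true)
    (hQ : ∃ i, i ≤ 4 ∧ Q.testBit i = true)
    (H : ∀ b c : ℕ → ℝ, Supp P b → Supp Q c → ∃ (w : ℕ) (X K : ℝ), 0 < K ∧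
      ∀ x : ℕ → ℝ, PSol b c x → ∀ n, w ≤ n → X ≤ Real.log (x n) →
        (∀ m, m < n → Real.log (x m) ≤ Real.log (x n) + K) → False) :
    BddM P Q := by
  intro b c hb hc x hx
  obtain ⟨w, X, K, hK, hw⟩ := H b c hb hc
  set M : ℝ := Real.exp X + ∑ i ∈ Finset.range (w + 1), x i with hM
  have hMX : Real.exp X ≤ M := by
    rw [hM]
    have := Finset.sum_nonneg (s := Finset.range (w + 1)) (f := x) fun i _ => hx.nonneg i
    linarith
  have hMi : ∀ i, i ≤ w → x i ≤ M := by
    intro i hi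
    have := Finset.single_le_sum (f := x) (fun i _ => hx.nonneg i)
      (Finset.mem_range.2 (by omega : i < w + 1))
    have := Real.exp_pos X
    rw [hM]
    linarith
  refine ⟨M, ?_⟩
  by_contra hcon
  push Not at hcon
  classical
  set n := Nat.find hcon with hn
  have hnx : M < x n := Nat.find_spec hcon
  have hmin : ∀ m, m < n → x m ≤ M := fun m hm => not_lt.1 (Nat.find_min hcon hm)
  have hwn : w ≤ n := by
    by_contra h
    push Not at h
    exact absurd (hMi n h.le) (not_le.2 hnx)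
  have hMpos : 0 < M := lt_of_lt_of_le (Real.exp_pos X) hMX
  have ev1 : ∀ᶠ ε : ℝ in 𝓝[>] 0,
      M < orb b c (x 0 + ε, x 1 + ε, x 2 + ε, x 3 + ε) n :=
    (tendsto_orb hx n).eventually (lt_mem_nhds hnx)
  have ev2 : ∀ m, m < n → ∀ᶠ ε : ℝ in 𝓝[>] 0,
      orb b c (x 0 + ε, x 1 + ε, x 2 + ε, x 3 + ε) m <
        orb b c (x 0 + ε, x 1 + ε, x 2 + ε, x 3 + ε) n := by
    intro m hm
    exact (tendsto_orb hx m).eventually_lt (tendsto_orb hx n) (lt_of_le_of_lt (hmin m hm) hnx)
  have ev2' : ∀ᶠ ε : ℝ in 𝓝[>] 0, ∀ m ∈ Finset.range n,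
      orb b c (x 0 + ε, x 1 + ε, x 2 + ε, x 3 + ε) m <
        orb b c (x 0 + ε, x 1 + ε, x 2 + ε, x 3 + ε) n := by
    rw [Filter.eventually_all_finset]
    intro m hm
    exact ev2 m (Finset.mem_range.1 hm)
  have ev3 : ∀ᶠ ε : ℝ in 𝓝[>] 0, (0 : ℝ) < ε := self_mem_nhdsWithin
  obtain ⟨ε, h1, h2, h3⟩ := (ev1.and (ev2'.and ev3)).exists
  have hpos : ∀ i, 0 < x i + ε := fun i => add_pos_of_nonneg_of_pos (hx.nonneg i) h3
  have hsol : PSol b c (orb b c (x 0 + ε, x 1 + ε, x 2 + ε, x 3 + ε)) :=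
    orb_psol hb hc hP hQ (hpos 0) (hpos 1) (hpos 2) (hpos 3)
  refine hw _ hsol n hwn ?_ ?_
  · rw [Real.le_log_iff_exp_le (hsol.pos n)]
    linarith
  · intro m hm
    have := Real.log_le_log (hsol.pos m) (h2 m (Finset.mem_range.2 hm)).le
    linarith

theorem BCert.bdd {K : BCert} (h : K.ok = true) : BddM K.P K.Q := by
  have h' := h
  simp only [BCert.ok, Bool.and_eq_true] at h'
  obtain ⟨⟨hP, hQ⟩, _⟩ := h'
  refine bdd_of_no_window (hasBit_iff hP) (hasBit_iff hQ) ?_
  intro b c hb hc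
  refine ⟨K.w, K.X0 * bigK b c, bigK b c, bigK_pos b c, ?_⟩
  intro x hx n hn hX hR
  exact K.no_window h hb hc hx n hn hX hR

end Pool.Agent.H299.RDE
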