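import Pool.Agent.H299.RDE.Unb

/-!
# Certificates for unbounded solutions, and the passage between the order four normal form and
the definitions of the problem.
-/

namespace Pool.Agent.H299.RDE

/-- there are coefficients with the given supports and an unbounded solution -/
def UnbM (P Q : ℕ) : Prop :=
  ∃ b c x : ℕ → ℝ, Supp P b ∧ Supp Q c ∧ NSol b c x ∧ ∀ M : ℝ, ∃ n, M < x n

/-- all solutions are bounded -/
def BddM (P Q : ℕ) : Prop :=
  ∀ b c : ℕ → ℝ, Supp P b → Supp Q c → ∀ x : ℕ → ℝ, NSol b c x → ∃ M : ℝ, ∀ n, x n ≤ M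

lemma not_bddM {P Q : ℕ} (h : UnbM P Q) : ¬ BddM P Q := by
  obtain ⟨b, c, x, hb, hc, hx, hu⟩ := h
  intro hB
  obtain ⟨M, hM⟩ := hB b c hb hc x hx
  obtain ⟨n, hn⟩ := hu M
  exact absurd (hM n) (not_le.2 hn)

lemma PSol.nsol {Q : ℕ} {b c x : ℕ → ℝ} (hc : Supp Q c)
    (hQ : ∃ i, i ≤ 4 ∧ Q.testBit i = true) (h : PSol b c x) : NSol b c x :=
  ⟨fun n => (h.pos n).le, fun n => lin4_pos hc hQ h.pos n, h.eq⟩

/-- one step of the recurrence on states -/
noncomputable def stp (b c : ℕ → ℝ) (s : ℝ × ℝ × ℝ × ℝ) : ℝ × ℝ × ℝ × ℝ :=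
  (s.2.1, s.2.2.1, s.2.2.2,
    (b 0 + b 1 * s.2.2.2 + b 2 * s.2.2.1 + b 3 * s.2.1 + b 4 * s.1) /
      (c 0 + c 1 * s.2.2.2 + c 2 * s.2.2.1 + c 3 * s.2.1 + c 4 * s.1))

/-- the orbit of an initial state -/
noncomputable def orb (b c : ℕ → ℝ) (s : ℝ × ℝ × ℝ × ℝ) (n : ℕ) : ℝ := ((stp b c)^[n] s).1

lemma orb_succ (b c : ℕ → ℝ) (s : ℝ × ℝ × ℝ × ℝ) (n : ℕ) :
    orb b c s (n + 1) = ((stp b c)^[n] s).2.1 := by
  unfold orb
  rw [Function.iterate_succ_apply']
  rfl

lemma orb_succ2 (b c : ℕ → ℝ) (s : ℝ × ℝ × ℝ × ℝ) (n : ℕ) :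
    orb b c s (n + 2) = ((stp b c)^[n] s).2.2.1 := by
  rw [show n + 2 = (n + 1) + 1 from rfl, orb_succ, Function.iterate_succ_apply']
  rfl

lemma orb_succ3 (b c : ℕ → ℝ) (s : ℝ × ℝ × ℝ × ℝ) (n : ℕ) :
    orb b c s (n + 3) = ((stp b c)^[n] s).2.2.2 := by
  rw [show n + 3 = (n + 1) + 2 from rfl, orb_succ2, Function.iterate_succ_apply']
  rfl

lemma orb_eq (b c : ℕ → ℝ) (s : ℝ × ℝ × ℝ × ℝ) (n : ℕ) :
    orb b c s (n + 4) = lin4 b (orb b c s) n / lin4 c (orb b c s) n := by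
  rw [show n + 4 = (n + 1) + 3 from rfl, orb_succ3, Function.iterate_succ_apply']
  unfold lin4
  rw [orb_succ b c s n, orb_succ2 b c s n, orb_succ3 b c s n]
  rfl

lemma orb_zero (b c : ℕ → ℝ) (s : ℝ × ℝ × ℝ × ℝ) : orb b c s 0 = s.1 := rfl
lemma orb_one (b c : ℕ → ℝ) (s : ℝ × ℝ × ℝ × ℝ) : orb b c s 1 = s.2.1 := rfl
lemma orb_two (b c : ℕ → ℝ) (s : ℝ × ℝ × ℝ × ℝ) : orb b c s 2 = s.2.2.1 := rfl
lemma orb_three (b c : ℕ → ℝ) (s : ℝ × ℝ × ℝ × ℝ) : orb b c s 3 = s.2.2.2 := rfl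

lemma lin4_pos' {P : ℕ} {b x : ℕ → ℝ} (h : Supp P b) (hP : ∃ i, i ≤ 4 ∧ P.testBit i = true)
    (n : ℕ) (h0 : 0 < x n) (h1 : 0 < x (n + 1)) (h2 : 0 < x (n + 2)) (h3 : 0 < x (n + 3)) :
    0 < lin4 b x n := by
  have := lin4_pos (x := fun m => if m = n then x n else if m = n + 1 then x (n + 1) else
    if m = n + 2 then x (n + 2) else if m = n + 3 then x (n + 3) else 1) h hP
    (by intro m; split_ifs <;> first | assumption | norm_num) n
  simpa [lin4] using this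

lemma orb_pos {P Q : ℕ} {b c : ℕ → ℝ} (hb : Supp P b) (hc : Supp Q c)
    (hP : ∃ i, i ≤ 4 ∧ P.testBit i = true) (hQ : ∃ i, i ≤ 4 ∧ Q.testBit i = true)
    {s : ℝ × ℝ × ℝ × ℝ} (h0 : 0 < s.1) (h1 : 0 < s.2.1) (h2 : 0 < s.2.2.1) (h3 : 0 < s.2.2.2)
    (n : ℕ) : 0 < orb b c s n := by
  induction n using Nat.strong_induction_on with
  | _ n ih =>
    rcases lt_or_ge n 4 with h | h
    · interval_cases n
      · exact h0
      · exact h1
      · exact h2
      · exact h3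
    · obtain ⟨m, rfl⟩ := Nat.exists_eq_add_of_le' h
      rw [orb_eq]
      have k0 := ih m (by omega)
      have k1 := ih (m + 1) (by omega)
      have k2 := ih (m + 2) (by omega)
      have k3 := ih (m + 3) (by omega)
      exact div_pos (lin4_pos' hb hP m k0 k1 k2 k3) (lin4_pos' hc hQ m k0 k1 k2 k3)

lemma orb_psol {P Q : ℕ} {b c : ℕ → ℝ} (hb : Supp P b) (hc : Supp Q c)
    (hP : ∃ i, i ≤ 4 ∧ P.testBit i = true) (hQ : ∃ i, i ≤ 4 ∧ Q.testBit i = true)
    {s : ℝ × ℝ × ℝ × ℝ} (h0 : 0 < s.1) (h1 : 0 < s.2.1) (h2 : 0 < s.2.2.1) (h3 : 0 < s.2.2.2) :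
    PSol b c (orb b c s) :=
  ⟨orb_pos hb hc hP hQ h0 h1 h2 h3, orb_eq b c s⟩

/-- the mask has a bit among `0, …, 4` -/
def hasBit (m : ℕ) : Bool :=
  m.testBit 0 || m.testBit 1 || m.testBit 2 || m.testBit 3 || m.testBit 4

lemma hasBit_iff {m : ℕ} (h : hasBit m = true) : ∃ i, i ≤ 4 ∧ m.testBit i = true := by
  simp only [hasBit, Bool.or_eq_true] at h
  rcases h with (((h | h) | h) | h) | h
  · exact ⟨0, by norm_num, h⟩
  · exact ⟨1, by norm_num, h⟩
  · exact ⟨2, by norm_num, h⟩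
  · exact ⟨3, by norm_num, h⟩
  · exact ⟨4, by norm_num, h⟩

/-- A certificate: `y0` lists the exponents of the four initial values, most recent first. -/
structure Cert where
  P : ℕ
  Q : ℕ
  b : List ℤ
  c : List ℤ
  ell : List ℕ
  w : ℕ
  G : ℕ
  X0 : ℤ
  n0 : ℕ
  y0 : List ℤ
  t : Tree

def Cert.cfg (K : Cert) : Cfg :=
  ⟨K.P, K.Q, K.b, K.c, ee K.P, ee K.Q, K.ell, K.w, K.G, K.X0, 0⟩

def Cert.ok (K : Cert) : Bool :=
  hasBit K.P && hasBit K.Q && Nat.ble K.ell.length (K.w + 1) && Nat.ble 1 K.ell.length &&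
    Nat.beq K.y0.length 4 && startOk K.cfg K.n0 K.y0 && chk K.cfg K.t []

lemma log_five_pos : 0 < Real.log 5 := Real.log_pos (by norm_num)

/-- coefficients that are powers of five -/
noncomputable def coef (P : ℕ) (b : List ℤ) (i : ℕ) : ℝ :=
  if P.testBit i then (5 : ℝ) ^ (b.getD i 0) else 0

lemma coef_supp (P : ℕ) (b : List ℤ) : Supp P (coef P b) := by
  intro i _
  constructor
  · intro h
    simp only [coef, h, if_true]
    positivity
  · intro h
    simp [coef, h]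

lemma log_coef {P : ℕ} {b : List ℤ} {i : ℕ} (h : P.testBit i = true) :
    Real.log (coef P b i) = b.getD i 0 * Real.log 5 := by
  simp only [coef, h, if_true]
  rw [Real.log_zpow]

lemma log_tot (P : ℕ) : Real.log (tot P) = ee P * Real.log 5 := by
  unfold tot ee
  split_ifs <;> simp

theorem Cert.unb {K : Cert} (h : K.ok = true) : UnbM K.P K.Q := by
  simp only [Cert.ok, Bool.and_eq_true, Nat.ble_eq] at h
  obtain ⟨⟨⟨⟨⟨⟨hP, hQ⟩, hlen⟩, hlen1⟩, hy0⟩, hst⟩, hchk⟩ := h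
  have hP' := hasBit_iff hP
  have hQ' := hasBit_iff hQ
  have hy0' := Nat.eq_of_beq_eq_true hy0
  obtain ⟨e3, e2, e1, e0, he⟩ : ∃ e3 e2 e1 e0, K.y0 = [e3, e2, e1, e0] := by
    match hm : K.y0, hy0' with
    | [a, b, c, d], _ => exact ⟨a, b, c, d, rfl⟩
  set s : ℝ × ℝ × ℝ × ℝ := ((5 : ℝ) ^ e0, (5 : ℝ) ^ e1, (5 : ℝ) ^ e2, (5 : ℝ) ^ e3) with hs
  have hb := coef_supp K.P K.b
  have hc := coef_supp K.Q K.c
  have hsol : PSol (coef K.P K.b) (coef K.Q K.c) (orb (coef K.P K.b) (coef K.Q K.c) s) :=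
    orb_psol hb hc hP' hQ' (by simp only [hs]; positivity) (by simp only [hs]; positivity)
      (by simp only [hs]; positivity) (by simp only [hs]; positivity)
  have h5 := log_five_pos
  have hE := env_of_psol (C := K.cfg) h5 hb hc hP' hQ'
    (by
      intro i _ hi
      have hi' : K.P.testBit i = true := hi
      rw [log_coef hi', mul_div_assoc, div_self h5.ne', mul_one]
      exact le_refl _)
    (by
      intro i _ hi
      have hi' : K.P.testBit i = true := hi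
      rw [log_coef hi', show K.cfg.P = K.P from rfl, log_tot, ← add_mul, mul_div_assoc,
        div_self h5.ne', mul_one]
      have : (K.cfg.eP : ℝ) = ee K.P := rfl
      rw [this]
      have : (K.cfg.bb i : ℝ) = (K.b.getD i 0 : ℤ) := rfl
      rw [this, add_comm])
    (by
      intro i _ hi
      have hi' : K.Q.testBit i = true := hi
      rw [log_coef hi', mul_div_assoc, div_self h5.ne', mul_one]
      exact le_refl _)
    (by
      intro i _ hi
      have hi' : K.Q.testBit i = true := hi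
      rw [log_coef hi', show K.cfg.Q = K.Q from rfl, log_tot, ← add_mul, mul_div_assoc,
        div_self h5.ne', mul_one]
      have : (K.cfg.eQ : ℝ) = ee K.Q := rfl
      rw [this]
      have : (K.cfg.cc i : ℝ) = (K.c.getD i 0 : ℤ) := rfl
      rw [this, add_comm])
    hsol
  have hlog : ∀ e : ℤ, Real.log ((5 : ℝ) ^ e) / Real.log 5 = e := by
    intro e
    rw [Real.log_zpow, mul_div_assoc, div_self h5.ne', mul_one]
  have hB : Bds (fun n => Real.log (orb (coef K.P K.b) (coef K.Q K.c) s n) / Real.log 5) 3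
      K.y0 K.y0 := by
    rw [he]
    refine ⟨by simp, by simp, ?_⟩
    intro i hi
    interval_cases i
    · simp only [Nat.sub_zero, orb_three, hs, hlog]
      simp
    · simp only [Nat.reduceSub, orb_two, hs, hlog]
      simp
    · simp only [Nat.reduceSub, orb_one, hs, hlog]
      simp
    · simp only [Nat.reduceSub, orb_zero, hs, hlog]
      simp
  have hrec := rec_of_startOk hE hP' hQ' hlen hlen1 hB hst
  refine ⟨_, _, _, hb, hc, hsol.nsol hc hQ', ?_⟩
  intro M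
  by_contra hcon
  push Not at hcon
  refine unbounded_of_rec hE rfl hlen hlen1 hchk hrec (Real.log (max M 1) / Real.log 5) ?_
  intro n
  refine div_le_div_of_nonneg_right (Real.log_le_log (hsol.pos n) ?_) h5.le
  exact (hcon n).trans (le_max_left _ _)

end Pool.Agent.H299.RDE
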