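import Mathlib

/-!
# A certificate checker for linear/logarithmic inequalities along a rational recurrence

`Cfg` describes a special case of the order four recurrence together with integer exponents
(the coefficients are powers of `5`), a nonnegative functional `ell` of the logarithms and a
window.  `Tree` is a proof tree: inner nodes split on which numerator (denominator) term is the
largest one, leaves are Farkas combinations.  `chk_sound` says that an accepted tree is a proof
that no window with the described properties exists.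
-/

namespace Pool.Agent.H299.RDE

/-- Description of a special case, of the coefficients and of the window. -/
structure Cfg where
  P : ℕ
  Q : ℕ
  b : List ℤ
  c : List ℤ
  /-- errors made when a sum is replaced by its largest term -/
  eP : ℤ
  eQ : ℤ
  ell : List ℕ
  w : ℕ
  G : ℕ
  X0 : ℤ
  /-- slack in the record inequalities -/
  sR : ℤ

/-- The mask has exactly one of the bits `0, …, 4`. -/
def single (m : ℕ) : Bool := m == 1 || m == 2 || m == 4 || m == 8 || m == 16

/-- error made when a sum is replaced by its largest term (in base five logarithms). -/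
def ee (m : ℕ) : ℤ := if single m then 0 else 1

def Cfg.bb (C : Cfg) (i : ℕ) : ℤ := C.b.getD i 0
def Cfg.cc (C : Cfg) (i : ℕ) : ℤ := C.c.getD i 0

/-- variables: `2 * r` is the logarithm `y r`, `2 * r + 1` is the logarithm of the numerator. -/
def yl (r i : ℕ) : List ℕ := match i with
  | 0 => []
  | i + 1 => [2 * (r - (i + 1))]

/-- The functional `ell` at position `r`, as a list of variables. -/
def vl : List ℕ → ℕ → List ℕ
  | [], _ => []
  | e :: es, r => List.replicate e (2 * r) ++ vl es (r - 1)

/-- membership test with `Nat.beq` -/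
def memb (a : ℕ) : List ℕ → Bool
  | [] => false
  | x :: xs => Nat.beq a x || memb a xs

/-- A fact `∑ pos - ∑ neg ≥ rhs`, decoded from its code. -/
def fact (C : Cfg) (ctx : List ℕ) (code : ℕ) : Option (List ℕ × List ℕ × ℤ) :=
  match code % 8 with
  | 0 => bif Nat.ble 4 (code / 1024) && Nat.ble ((code / 8) % 128) 4 &&
            C.P.testBit ((code / 8) % 128) then
          some ([2 * (code / 1024) + 1], yl (code / 1024) ((code / 8) % 128),
            C.bb ((code / 8) % 128)) else none
  | 1 => bif Nat.ble 4 (code / 1024) && Nat.ble ((code / 8) % 128) 4 &&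
            C.P.testBit ((code / 8) % 128) && (single C.P || memb code ctx) then
          some (yl (code / 1024) ((code / 8) % 128), [2 * (code / 1024) + 1],
            - C.bb ((code / 8) % 128) - C.eP) else none
  | 2 => bif Nat.ble 4 (code / 1024) && Nat.ble ((code / 8) % 128) 4 &&
            C.Q.testBit ((code / 8) % 128) then
          some ([2 * (code / 1024) + 1],
            2 * (code / 1024) :: yl (code / 1024) ((code / 8) % 128),
            C.cc ((code / 8) % 128)) else none
  | 3 => bif Nat.ble 4 (code / 1024) && Nat.ble ((code / 8) % 128) 4 &&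
            C.Q.testBit ((code / 8) % 128) && (single C.Q || memb code ctx) then
          some (2 * (code / 1024) :: yl (code / 1024) ((code / 8) % 128),
            [2 * (code / 1024) + 1],
            - C.cc ((code / 8) % 128) - C.eQ) else none
  | 4 => bif Nat.ble 1 ((code / 8) % 128) &&
            Nat.ble ((code / 8) % 128 + C.ell.length) (C.w + 1) then
          some (vl C.ell C.w, vl C.ell (C.w - (code / 8) % 128), - C.sR) else none
  | 5 => some (vl C.ell C.w, [], C.X0)
  | 6 => bif Nat.ble 1 ((code / 8) % 128) && Nat.ble ((code / 8) % 128) C.G then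
          some (vl C.ell C.w, vl C.ell (C.w + (code / 8) % 128), -1) else none
  | _ => none

/-- Code of a list of variables: each variable `v` contributes `2 ^ (32 * v)`. -/
def enc : List ℕ → ℕ
  | [] => 0
  | v :: vs => 2 ^ (32 * v) + enc vs

/-- Accumulate a Farkas combination. Each entry `e` stands for the fact with code `e % 2 ^ 17`
and the multiplier `e / 2 ^ 17`. -/
def leaf (C : Cfg) (ctx : List ℕ) : List ℕ → ℕ → ℕ → ℕ → ℤ → Bool
  | [], pos, neg, tot, rhs => Nat.beq pos neg && Nat.ble (tot + 1) 4294967296 && decide (0 < rhs)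
  | e :: l, pos, neg, tot, rhs =>
    match fact C ctx (e % 131072) with
    | none => false
    | some (p, n, r) =>
      leaf C ctx l (pos + e / 131072 * enc p) (neg + e / 131072 * enc n)
        (tot + e / 131072 * (p.length + n.length)) (rhs + (e / 131072 : ℕ) * r)

/-- Proof trees. `node d r t0 … t4` splits on the largest term of the numerator (`d = false`) or
denominator (`d = true`) at position `r`. -/
inductive Tree where
  | leaf (l : List ℕ) : Tree
  | node (d : Bool) (r : ℕ) (t0 t1 t2 t3 t4 : Tree) : Tree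

/-- code of a branch fact -/
def bcode (d : Bool) (r i : ℕ) : ℕ := 1024 * r + 8 * i + (bif d then 3 else 1)

def chk (C : Cfg) : Tree → List ℕ → Bool
  | .leaf l, ctx => leaf C ctx l 0 0 0 0
  | .node d r t0 t1 t2 t3 t4, ctx =>
    Nat.ble 4 r &&
    (!(bif d then C.Q else C.P).testBit 0 || chk C t0 (bcode d r 0 :: ctx)) &&
    (!(bif d then C.Q else C.P).testBit 1 || chk C t1 (bcode d r 1 :: ctx)) &&
    (!(bif d then C.Q else C.P).testBit 2 || chk C t2 (bcode d r 2 :: ctx)) &&
    (!(bif d then C.Q else C.P).testBit 3 || chk C t3 (bcode d r 3 :: ctx)) &&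
    (!(bif d then C.Q else C.P).testBit 4 || chk C t4 (bcode d r 4 :: ctx))

/-! ### Semantics -/

/-- `y_{r-i}`, with the convention that the zeroth entry is `0` (the constant term). -/
noncomputable def yi (y : ℕ → ℝ) (r i : ℕ) : ℝ := match i with
  | 0 => 0
  | i + 1 => y (r - (i + 1))

/-- The functional evaluated at position `r`. -/
noncomputable def vval (y : ℕ → ℝ) : List ℕ → ℕ → ℝ
  | [], _ => 0
  | e :: es, r => e * y r + vval y es (r - 1)

/-- assignment of the variables -/
noncomputable def rho (y N : ℕ → ℝ) (v : ℕ) : ℝ := if v % 2 = 0 then y (v / 2) else N (v / 2)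

/-- The logarithmic form of the recurrence. -/
structure Env (C : Cfg) (y N : ℕ → ℝ) : Prop where
  hA : ∀ r, 4 ≤ r → ∀ i, i ≤ 4 → C.P.testBit i = true → (C.bb i : ℝ) + yi y r i ≤ N r
  hA' : ∀ r, 4 ≤ r → ∃ i, i ≤ 4 ∧ C.P.testBit i = true ∧ N r ≤ C.bb i + yi y r i + C.eP
  hB : ∀ r, 4 ≤ r → ∀ i, i ≤ 4 → C.Q.testBit i = true → (C.cc i : ℝ) + yi y r i ≤ N r - y r
  hB' : ∀ r, 4 ≤ r → ∃ i, i ≤ 4 ∧ C.Q.testBit i = true ∧ N r - y r ≤ C.cc i + yi y r i + C.eQ

/-- The window hypotheses: `v w ≥ X0`, `v (w-k) ≤ v w`, `v (w+k) ≤ v w + 1`. -/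
structure Win (C : Cfg) (y : ℕ → ℝ) : Prop where
  hX : (C.X0 : ℝ) ≤ vval y C.ell C.w
  hR : ∀ k, 1 ≤ k → k + C.ell.length ≤ C.w + 1 →
    vval y C.ell (C.w - k) ≤ vval y C.ell C.w + C.sR
  hF : ∀ k, 1 ≤ k → k ≤ C.G → vval y C.ell (C.w + k) ≤ vval y C.ell C.w + 1

/-- meaning of a branch code -/
def BHolds (C : Cfg) (y N : ℕ → ℝ) (code : ℕ) : Prop :=
  (code % 8 = 1 → N (code / 1024) ≤
      C.bb ((code / 8) % 128) + yi y (code / 1024) ((code / 8) % 128) + C.eP) ∧
  (code % 8 = 3 → N (code / 1024) - y (code / 1024) ≤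
      C.cc ((code / 8) % 128) + yi y (code / 1024) ((code / 8) % 128) + C.eQ)

lemma rho_even (y N : ℕ → ℝ) (r : ℕ) : rho y N (2 * r) = y r := by
  unfold rho
  rw [if_pos (by omega)]
  congr 1
  omega

lemma rho_odd (y N : ℕ → ℝ) (r : ℕ) : rho y N (2 * r + 1) = N r := by
  unfold rho
  rw [if_neg (by omega)]
  congr 1
  omega

lemma sum_yl (y N : ℕ → ℝ) (r i : ℕ) : ((yl r i).map (rho y N)).sum = yi y r i := by
  cases i with
  | zero => simp [yl, yi]
  | succ i => simp [yl, yi, rho_even]

lemma sum_vl (y N : ℕ → ℝ) (l : List ℕ) (r : ℕ) :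
    ((vl l r).map (rho y N)).sum = vval y l r := by
  induction l generalizing r with
  | nil => simp [vl, vval]
  | cons e es ih => simp [vl, vval, ih, rho_even]

lemma memb_iff (a : ℕ) (l : List ℕ) : memb a l = true ↔ a ∈ l := by
  induction l with
  | nil => simp [memb]
  | cons x xs ih => simp [memb, ih]

lemma single_unique {m i j : ℕ} (hs : single m = true) (hi : i ≤ 4) (hj : j ≤ 4)
    (h1 : m.testBit i = true) (h2 : m.testBit j = true) : i = j := by
  simp only [single, Bool.or_eq_true, beq_iff_eq] at hs
  rcases hs with (((rfl | rfl) | rfl) | rfl) | rfl <;>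
    interval_cases i <;> interval_cases j <;> simp_all (config := {decide := true})

lemma fact_sound {C : Cfg} {y N : ℕ → ℝ} (hE : Env C y N) (hW : Win C y) {ctx : List ℕ}
    (hctx : ∀ a ∈ ctx, BHolds C y N a) {code : ℕ} {p n : List ℕ} {r : ℤ}
    (h : fact C ctx code = some (p, n, r)) :
    (r : ℝ) ≤ (p.map (rho y N)).sum - (n.map (rho y N)).sum := by
  unfold fact at h
  have h8 : code % 8 < 8 := Nat.mod_lt _ (by norm_num)
  generalize hk : code % 8 = kk at h h8
  interval_cases kk
  · simp only [cond_eq_ite] at h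
    split_ifs at h with hc
    simp only [Bool.and_eq_true, Nat.ble_eq] at hc
    obtain ⟨⟨h4, hi⟩, hb⟩ := hc
    simp only [Option.some.injEq, Prod.mk.injEq] at h
    obtain ⟨rfl, rfl, rfl⟩ := h
    have := hE.hA _ h4 _ hi hb
    rw [sum_yl]
    simp only [List.map_cons, List.map_nil, List.sum_cons, List.sum_nil, rho_odd]
    linarith
  · simp only [cond_eq_ite] at h
    split_ifs at h with hc
    simp only [Bool.and_eq_true, Nat.ble_eq, Bool.or_eq_true] at hc
    obtain ⟨⟨⟨h4, hi⟩, hb⟩, hs⟩ := hc
    simp only [Option.some.injEq, Prod.mk.injEq] at h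
    obtain ⟨rfl, rfl, rfl⟩ := h
    have key : N (code / 1024) ≤
        C.bb ((code / 8) % 128) + yi y (code / 1024) ((code / 8) % 128) + C.eP := by
      rcases hs with hs | hs
      · obtain ⟨i, hi4, hib, hle⟩ := hE.hA' _ h4
        have := single_unique hs hi hi4 hb hib
        rw [this]
        exact hle
      · rw [memb_iff] at hs
        exact (hctx _ hs).1 hk
    rw [sum_yl]
    simp only [List.map_cons, List.map_nil, List.sum_cons, List.sum_nil, rho_odd]
    push_cast
    linarith
  · simp only [cond_eq_ite] at h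
    split_ifs at h with hc
    simp only [Bool.and_eq_true, Nat.ble_eq] at hc
    obtain ⟨⟨h4, hi⟩, hb⟩ := hc
    simp only [Option.some.injEq, Prod.mk.injEq] at h
    obtain ⟨rfl, rfl, rfl⟩ := h
    have := hE.hB _ h4 _ hi hb
    simp only [List.map_cons, List.map_nil, List.sum_cons, List.sum_nil, rho_odd, rho_even,
      sum_yl]
    linarith
  · simp only [cond_eq_ite] at h
    split_ifs at h with hc
    simp only [Bool.and_eq_true, Nat.ble_eq, Bool.or_eq_true] at hc
    obtain ⟨⟨⟨h4, hi⟩, hb⟩, hs⟩ := hc
    simp only [Option.some.injEq, Prod.mk.injEq] at h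
    obtain ⟨rfl, rfl, rfl⟩ := h
    have key : N (code / 1024) - y (code / 1024) ≤
        C.cc ((code / 8) % 128) + yi y (code / 1024) ((code / 8) % 128) + C.eQ := by
      rcases hs with hs | hs
      · obtain ⟨i, hi4, hib, hle⟩ := hE.hB' _ h4
        have := single_unique hs hi hi4 hb hib
        rw [this]
        exact hle
      · rw [memb_iff] at hs
        exact (hctx _ hs).2 hk
    simp only [List.map_cons, List.map_nil, List.sum_cons, List.sum_nil, rho_odd, rho_even,
      sum_yl]
    push_cast
    linarith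
  · simp only [cond_eq_ite] at h
    split_ifs at h with hc
    simp only [Bool.and_eq_true, Nat.ble_eq] at hc
    obtain ⟨h1, h2⟩ := hc
    simp only [Option.some.injEq, Prod.mk.injEq] at h
    obtain ⟨rfl, rfl, rfl⟩ := h
    have := hW.hR _ h1 h2
    simp only [sum_vl]
    push_cast
    linarith
  · simp only [Option.some.injEq, Prod.mk.injEq] at h
    obtain ⟨rfl, rfl, rfl⟩ := h
    have := hW.hX
    simp only [sum_vl, List.map_nil, List.sum_nil]
    linarith
  · simp only [cond_eq_ite] at h
    split_ifs at h with hc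
    simp only [Bool.and_eq_true, Nat.ble_eq] at hc
    obtain ⟨h1, h2⟩ := hc
    simp only [Option.some.injEq, Prod.mk.injEq] at h
    obtain ⟨rfl, rfl, rfl⟩ := h
    have := hW.hF _ h1 h2
    simp only [sum_vl]
    push_cast
    linarith
  · simp at h

/-! ### Uniqueness of the encoding -/

/-- weighted sum of a family of lists of variables -/
def wsum {R : Type*} [Semiring R] (φ : ℕ → R) : List (ℕ × List ℕ) → R
  | [] => 0
  | (co, l) :: L => (co : R) * (l.map φ).sum + wsum φ L

/-- multiplicity of a variable -/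
def cnt (v : ℕ) : List (ℕ × List ℕ) → ℕ
  | [] => 0
  | (co, l) :: L => co * l.count v + cnt v L

def totw : List (ℕ × List ℕ) → ℕ
  | [] => 0
  | (co, l) :: L => co * l.length + totw L

lemma cnt_le_totw (v : ℕ) (L : List (ℕ × List ℕ)) : cnt v L ≤ totw L := by
  induction L with
  | nil => simp [cnt, totw]
  | cons a L ih =>
    obtain ⟨co, l⟩ := a
    simp only [cnt, totw]
    have : l.count v ≤ l.length := List.count_le_length
    have := Nat.mul_le_mul_left co this
    omega

lemma list_sum_eq {R : Type*} [Semiring R] (φ : ℕ → R) (l : List ℕ) (M : ℕ)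
    (hM : ∀ v ∈ l, v < M) : (l.map φ).sum = ∑ v ∈ Finset.range M, (l.count v : R) * φ v := by
  induction l with
  | nil => simp
  | cons a l ih =>
    have ha : a < M := hM a (by simp)
    have ih' := ih (fun v hv => hM v (by simp [hv]))
    rw [List.map_cons, List.sum_cons, ih']
    have : ∀ v ∈ Finset.range M, (((a :: l).count v : ℕ) : R) * φ v =
        (if v = a then φ a else 0) + (l.count v : R) * φ v := by
      intro v _
      rw [List.count_cons]
      by_cases h : v = a
      · subst h
        simp [add_mul, add_comm]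
      · have h' : ¬ (a = v) := fun e => h e.symm
        simp [h, h']
    rw [Finset.sum_congr rfl this, Finset.sum_add_distrib]
    congr 1
    rw [Finset.sum_ite_eq' (Finset.range M) a (fun _ => φ a)]
    simp [ha]

lemma wsum_eq {R : Type*} [Semiring R] (φ : ℕ → R) (L : List (ℕ × List ℕ)) (M : ℕ)
    (hM : ∀ a ∈ L, ∀ v ∈ a.2, v < M) :
    wsum φ L = ∑ v ∈ Finset.range M, (cnt v L : R) * φ v := by
  induction L with
  | nil => simp [wsum, cnt]
  | cons a L ih =>
    obtain ⟨co, l⟩ := a
    have ih' := ih (fun a ha => hM a (by simp [ha]))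
    simp only [wsum, cnt]
    rw [ih', list_sum_eq φ l M (fun v hv => hM (co, l) (by simp) v hv), Finset.mul_sum,
      ← Finset.sum_add_distrib]
    refine Finset.sum_congr rfl fun v _ => ?_
    push_cast
    rw [add_mul, mul_assoc]

lemma digits_unique (B : ℕ) (M : ℕ) : ∀ (f g : ℕ → ℕ), (∀ v, f v < B) → (∀ v, g v < B) →
    (∑ v ∈ Finset.range M, f v * B ^ v = ∑ v ∈ Finset.range M, g v * B ^ v) →
    ∀ v < M, f v = g v := by
  induction M with
  | zero => intro f g _ _ _ v hv; omega
  | succ M ih =>
    intro f g hf hg h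
    rw [Finset.sum_range_succ', Finset.sum_range_succ'] at h
    have hBpos : 0 < B := lt_of_le_of_lt (Nat.zero_le _) (hf 0)
    have e1 : ∑ v ∈ Finset.range M, f (v + 1) * B ^ (v + 1) =
        B * ∑ v ∈ Finset.range M, f (v + 1) * B ^ v := by
      rw [Finset.mul_sum]
      refine Finset.sum_congr rfl fun v _ => by ring
    have e2 : ∑ v ∈ Finset.range M, g (v + 1) * B ^ (v + 1) =
        B * ∑ v ∈ Finset.range M, g (v + 1) * B ^ v := by
      rw [Finset.mul_sum]
      refine Finset.sum_congr rfl fun v _ => by ring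
    rw [e1, e2] at h
    simp only [pow_zero, mul_one] at h
    have h0 : f 0 = g 0 := by
      have := congrArg (· % B) h
      simp only [Nat.mul_add_mod] at this
      rwa [Nat.mod_eq_of_lt (hf 0), Nat.mod_eq_of_lt (hg 0)] at this
    have h1 : ∑ v ∈ Finset.range M, f (v + 1) * B ^ v =
        ∑ v ∈ Finset.range M, g (v + 1) * B ^ v := by
      rw [h0] at h
      have := Nat.add_right_cancel h
      exact Nat.eq_of_mul_eq_mul_left hBpos this
    have := ih (fun v => f (v + 1)) (fun v => g (v + 1)) (fun v => hf _) (fun v => hg _) h1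
    intro v hv
    cases v with
    | zero => exact h0
    | succ v => exact this v (by omega)

lemma exists_bound (L : List (ℕ × List ℕ)) : ∃ M, ∀ a ∈ L, ∀ v ∈ a.2, v < M := by
  induction L with
  | nil => exact ⟨0, by simp⟩
  | cons a L ih =>
    obtain ⟨M, hM⟩ := ih
    refine ⟨M + a.2.sum + 1, ?_⟩
    intro c hc v hv
    rcases List.mem_cons.1 hc with rfl | hc
    · have := List.single_le_sum (l := c.2) (by simp) v hv
      omega
    · have := hM c hc v hv
      omega

lemma wsum_unique (φ : ℕ → ℝ) (L1 L2 : List (ℕ × List ℕ)) (h1 : totw L1 < 2 ^ 32)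
    (h2 : totw L2 < 2 ^ 32)
    (h : wsum (fun v => 2 ^ (32 * v)) L1 = (wsum (fun v => 2 ^ (32 * v)) L2 : ℕ)) :
    wsum φ L1 = wsum φ L2 := by
  obtain ⟨M1, hM1⟩ := exists_bound L1
  obtain ⟨M2, hM2⟩ := exists_bound L2
  have hM1' : ∀ a ∈ L1, ∀ v ∈ a.2, v < max M1 M2 := fun a ha v hv =>
    lt_of_lt_of_le (hM1 a ha v hv) (le_max_left _ _)
  have hM2' : ∀ a ∈ L2, ∀ v ∈ a.2, v < max M1 M2 := fun a ha v hv =>
    lt_of_lt_of_le (hM2 a ha v hv) (le_max_right _ _)
  rw [wsum_eq _ L1 _ hM1', wsum_eq _ L2 _ hM2'] at h
  rw [wsum_eq _ L1 _ hM1', wsum_eq _ L2 _ hM2']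
  have key := digits_unique (2 ^ 32) (max M1 M2) (fun v => cnt v L1) (fun v => cnt v L2)
    (fun v => lt_of_le_of_lt (cnt_le_totw v L1) h1) (fun v => lt_of_le_of_lt (cnt_le_totw v L2) h2)
    (by
      simp only [pow_mul] at h
      simpa using h)
  refine Finset.sum_congr rfl fun v hv => ?_
  have := key v (Finset.mem_range.1 hv)
  rw [this]

lemma enc_eq (l : List ℕ) : enc l = (l.map (fun v => 2 ^ (32 * v))).sum := by
  induction l with
  | nil => rfl
  | cons a l ih => simp [enc, ih]

/-- Correctness of the accumulation. -/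
lemma leaf_sound {C : Cfg} {y N : ℕ → ℝ} (hE : Env C y N) (hW : Win C y) {ctx : List ℕ}
    (hctx : ∀ a ∈ ctx, BHolds C y N a) (l : List ℕ) :
    ∀ (Lp Ln : List (ℕ × List ℕ)) (rhs : ℤ),
      (rhs : ℝ) ≤ wsum (rho y N) Lp - wsum (rho y N) Ln →
      leaf C ctx l (wsum (fun v => 2 ^ (32 * v)) Lp) (wsum (fun v => 2 ^ (32 * v)) Ln)
        (totw Lp + totw Ln) rhs = true → False := by
  induction l with
  | nil =>
    intro Lp Ln rhs hr h
    simp only [leaf, Bool.and_eq_true, Nat.ble_eq, decide_eq_true_eq] at h
    obtain ⟨⟨h1, h2⟩, h3⟩ := h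
    have h1' := Nat.eq_of_beq_eq_true h1
    have := wsum_unique (rho y N) Lp Ln (by omega) (by omega) h1'
    have h3' : (0 : ℝ) < rhs := by exact_mod_cast h3
    linarith
  | cons a l ih =>
    generalize hcode : a % 131072 = code
    generalize hco : a / 131072 = co
    intro Lp Ln rhs hr h
    simp only [leaf, hcode, hco] at h
    cases hf : fact C ctx code with
    | none => rw [hf] at h; simp at h
    | some t =>
      obtain ⟨p, n, r⟩ := t
      rw [hf] at h
      simp only at h
      have hs := fact_sound hE hW hctx hf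
      refine ih ((co, p) :: Lp) ((co, n) :: Ln) (rhs + co * r) ?_ ?_
      · simp only [wsum]
        push_cast
        have : (0 : ℝ) ≤ co := Nat.cast_nonneg _
        nlinarith [mul_le_mul_of_nonneg_left hs this]
      · convert h using 1
        simp only [wsum, totw, enc_eq]
        congr 1
        · simp [add_comm]
        · simp [add_comm]
        · ring

theorem chk_sound {C : Cfg} {y N : ℕ → ℝ} (hE : Env C y N) (hW : Win C y) (t : Tree) :
    ∀ ctx : List ℕ, (∀ a ∈ ctx, BHolds C y N a) → chk C t ctx = true → False := by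
  induction t with
  | leaf l =>
    intro ctx hctx h
    refine leaf_sound hE hW hctx l [] [] 0 (by simp [wsum]) ?_
    simpa [chk, wsum, totw] using h
  | node d r t0 t1 t2 t3 t4 ih0 ih1 ih2 ih3 ih4 =>
    intro ctx hctx h
    simp only [chk, Bool.and_eq_true, Nat.ble_eq, Bool.or_eq_true, Bool.not_eq_true'] at h
    obtain ⟨⟨⟨⟨⟨h4, c0⟩, c1⟩, c2⟩, c3⟩, c4⟩ := h
    have hcode : ∀ i, i ≤ 4 → (bcode d r i) / 1024 = r ∧ (bcode d r i / 8) % 128 = i := by
      intro i hi
      unfold bcode
      cases d <;> simp <;> omega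
    have hb : ∃ i, i ≤ 4 ∧ (bif d then C.Q else C.P).testBit i = true ∧
        BHolds C y N (bcode d r i) := by
      cases d with
      | false =>
        obtain ⟨i, hi, hib, hle⟩ := hE.hA' r h4
        refine ⟨i, hi, hib, ?_, ?_⟩
        · intro _
          obtain ⟨e1, e2⟩ := hcode i hi
          rw [e1, e2]
          exact hle
        · intro h3
          exfalso
          simp [bcode] at h3
          omega
      | true =>
        obtain ⟨i, hi, hib, hle⟩ := hE.hB' r h4
        refine ⟨i, hi, hib, ?_, ?_⟩
        · intro h3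
          exfalso
          simp [bcode] at h3
          omega
        · intro _
          obtain ⟨e1, e2⟩ := hcode i hi
          rw [e1, e2]
          exact hle
    obtain ⟨i, hi, hbit, hh⟩ := hb
    have hctx' : ∀ a ∈ bcode d r i :: ctx, BHolds C y N a := by
      intro a ha
      rcases List.mem_cons.1 ha with rfl | ha
      · exact hh
      · exact hctx a ha
    interval_cases i
    · exact ih0 _ hctx' (by simpa [hbit] using c0)
    · exact ih1 _ hctx' (by simpa [hbit] using c1)
    · exact ih2 _ hctx' (by simpa [hbit] using c2)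
    · exact ih3 _ hctx' (by simpa [hbit] using c3)
    · exact ih4 _ hctx' (by simpa [hbit] using c4)

end Pool.Agent.H299.RDE
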