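import Mathlib

/-!
# Rational recurrences with nonnegative coefficients: basic definitions

The recurrence of order `k` is
`x_n = (b 0 + b 1 * x_{n-1} + ⋯ + b k * x_{n-k}) / (c 0 + c 1 * x_{n-1} + ⋯ + c k * x_{n-k})`.
Sequences are indexed by `ℕ`; `x 0, …, x (k-1)` are the initial values `x_{-k}, …, x_{-1}` and
`x (n + k)` is the value at time `n ≥ 0`.
-/

namespace Pool.Agent.H299.RDE

/-- `c 0 + ∑_{i=1}^{k} c i * x_{n-i}`; the value at time `n - i` is `x (n + k - i)`. -/
noncomputable def lin (k : ℕ) (c : Fin (k + 1) → ℝ) (x : ℕ → ℝ) (n : ℕ) : ℝ :=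
  c 0 + ∑ i : Fin k, c i.succ * x (n + k - (i + 1))

/-- `x` is a solution with coefficients `b` (numerator) and `c` (denominator): the initial values
are nonnegative and at every time the denominator is positive and the recurrence holds. -/
def IsSolution (k : ℕ) (b c : Fin (k + 1) → ℝ) (x : ℕ → ℝ) : Prop :=
  (∀ n, n < k → 0 ≤ x n) ∧ ∀ n, 0 < lin k c x n ∧ x (n + k) = lin k b x n / lin k c x n

/-- The positive coefficients are exactly those with index in `P`; the others vanish. -/
def HasSupport {k : ℕ} (P : Finset (Fin (k + 1))) (b : Fin (k + 1) → ℝ) : Prop :=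
  (∀ i ∈ P, 0 < b i) ∧ ∀ i, i ∉ P → b i = 0

/-- The special case `(P, Q)` has bounded solutions only. -/
def BoundedOnly (k : ℕ) (P Q : Finset (Fin (k + 1))) : Prop :=
  ∀ b c : Fin (k + 1) → ℝ, HasSupport P b → HasSupport Q c →
    ∀ x : ℕ → ℝ, IsSolution k b c x → ∃ M : ℝ, ∀ n, x n ≤ M

/-- The set of indices coded by the binary digits of `m`: index `i` belongs to it iff the digit of
`2 ^ i` is one. -/
def bits (k m : ℕ) : Finset (Fin (k + 1)) := Finset.univ.filter fun i => m.testBit i

end Pool.Agent.H299.RDE
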