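import Pool.Agent.H299.RDE.Main

/-!
# The classification in terms of index sets, and the counts
-/

set_option maxRecDepth 100000

namespace Pool.Agent.H299.RDE

theorem bits_code3 : ∀ P : Finset (Fin 4), bits 3 (code P) = P := by decide +kernel

theorem bits_code4 : ∀ P : Finset (Fin 5), bits 4 (code P) = P := by decide +kernel

theorem code_lt3 : ∀ P : Finset (Fin 4), code P < 16 := by decide +kernel

theorem code_lt4 : ∀ P : Finset (Fin 5), code P < 32 := by decide +kernel

theorem code_ne3 : ∀ P : Finset (Fin 4), P.Nonempty → code P ≠ 0 := by decide +kernel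

theorem code_ne4 : ∀ P : Finset (Fin 5), P.Nonempty → code P ≠ 0 := by decide +kernel

theorem class4 (P Q : Finset (Fin 5)) (hP : P.Nonempty) (hQ : Q.Nonempty) :
    (entry table4 (code P) (code Q) = 1 → BoundedOnly 4 P Q) ∧
      (entry table4 (code P) (code Q) = 2 → ¬ BoundedOnly 4 P Q) := by
  have e := bounded4_iff (code P) (code Q)
  rw [bits_code4, bits_code4] at e
  rw [e]
  exact ⟨table4_bdd (code_lt4 P) (code_lt4 Q) (code_ne4 P hP) (code_ne4 Q hQ),
    table4_unb (code_lt4 P) (code_lt4 Q) (code_ne4 P hP) (code_ne4 Q hQ)⟩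

theorem class3 (P Q : Finset (Fin 4)) (hP : P.Nonempty) (hQ : Q.Nonempty) :
    BoundedOnly 3 P Q ↔ entry table3 (code P) (code Q) = 1 := by
  have e := bounded3_iff (code P) (code Q) (code_lt3 P) (code_lt3 Q)
  rw [bits_code3, bits_code3] at e
  rw [e]
  obtain ⟨h1, h2⟩ := table3_four _ (code_lt3 P) (Nat.pos_of_ne_zero (code_ne3 P hP)) _
    (code_lt3 Q) (Nat.pos_of_ne_zero (code_ne3 Q hQ))
  have l1 : code P < 32 := (code_lt3 P).trans (by norm_num)
  have l2 : code Q < 32 := (code_lt3 Q).trans (by norm_num)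
  constructor
  · intro hb
    rcases h2 with h | h
    · exact h
    · rw [h1] at h
      exact absurd hb (table4_unb l1 l2 (code_ne3 P hP) (code_ne3 Q hQ) h)
  · intro h
    rw [h1] at h
    exact table4_bdd l1 l2 (code_ne3 P hP) (code_ne3 Q hQ) h

/-- the special cases with bounded solutions only -/
def esb (k : ℕ) : Set (Finset (Fin (k + 1)) × Finset (Fin (k + 1))) :=
  {p | p.1.Nonempty ∧ p.2.Nonempty ∧ BoundedOnly k p.1 p.2}

/-- the special cases with an unbounded solution for some coefficients -/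
def eus (k : ℕ) : Set (Finset (Fin (k + 1)) × Finset (Fin (k + 1))) :=
  {p | p.1.Nonempty ∧ p.2.Nonempty ∧ ¬ BoundedOnly k p.1 p.2}

/-- the pairs of nonempty sets with a given entry in the table -/
def pairs (k : ℕ) (t : List ℕ) (d : ℕ) : Finset (Finset (Fin (k + 1)) × Finset (Fin (k + 1))) :=
  Finset.univ.filter fun p => p.1.Nonempty ∧ p.2.Nonempty ∧ entry t (code p.1) (code p.2) = d

theorem card3_1 : (pairs 3 table3 1).card = 135 := by decide +kernel
theorem card3_2 : (pairs 3 table3 2).card = 90 := by decide +kernel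
theorem card4_1 : (pairs 4 table4 1).card = 507 := by decide +kernel
theorem card4_2 : (pairs 4 table4 2).card = 410 := by decide +kernel

theorem cardAll3 : ((Finset.univ : Finset (Finset (Fin 4) × Finset (Fin 4))).filter
    fun p => p.1.Nonempty ∧ p.2.Nonempty).card = 225 := by decide +kernel
theorem cardAll4 : ((Finset.univ : Finset (Finset (Fin 5) × Finset (Fin 5))).filter
    fun p => p.1.Nonempty ∧ p.2.Nonempty).card = 961 := by decide +kernel

theorem ncard_add {k : ℕ} : (esb k).ncard + (eus k).ncard =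
    ((Finset.univ : Finset (Finset (Fin (k + 1)) × Finset (Fin (k + 1)))).filter
      fun p => p.1.Nonempty ∧ p.2.Nonempty).card := by
  classical
  rw [← Set.ncard_union_eq, ← Set.ncard_coe_finset]
  · congr 1
    ext p
    simp only [esb, eus, Set.mem_union, Set.mem_ofPred_eq, Finset.coe_filter, Finset.mem_univ,
      true_and]
    tauto
  · rw [Set.disjoint_left]
    rintro p ⟨_, _, h⟩ ⟨_, _, h'⟩
    exact h' h

theorem ncard_esb3 : (esb 3).ncard = 135 := by
  rw [← card3_1, ← Set.ncard_coe_finset]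
  congr 1
  ext p
  simp only [esb, pairs, Set.mem_ofPred_eq, Finset.coe_filter, Finset.mem_univ, true_and]
  constructor
  · rintro ⟨h1, h2, h⟩
    exact ⟨h1, h2, (class3 _ _ h1 h2).1 h⟩
  · rintro ⟨h1, h2, h⟩
    exact ⟨h1, h2, (class3 _ _ h1 h2).2 h⟩

theorem ncard_eus3 : (eus 3).ncard = 90 := by
  have := ncard_add (k := 3)
  rw [ncard_esb3, cardAll3] at this
  omega

theorem le_ncard_esb4 : 507 ≤ (esb 4).ncard := by
  rw [← card4_1, ← Set.ncard_coe_finset]
  refine Set.ncard_le_ncard ?_ (Set.toFinite _)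
  intro p hp
  simp only [pairs, Finset.coe_filter, Finset.mem_univ, true_and, Set.mem_ofPred_eq] at hp
  exact ⟨hp.1, hp.2.1, (class4 _ _ hp.1 hp.2.1).1 hp.2.2⟩

theorem le_ncard_eus4 : 410 ≤ (eus 4).ncard := by
  rw [← card4_2, ← Set.ncard_coe_finset]
  refine Set.ncard_le_ncard ?_ (Set.toFinite _)
  intro p hp
  simp only [pairs, Finset.coe_filter, Finset.mem_univ, true_and, Set.mem_ofPred_eq] at hp
  exact ⟨hp.1, hp.2.1, (class4 _ _ hp.1 hp.2.1).2 hp.2.2⟩

theorem ncard_add4 : (esb 4).ncard + (eus 4).ncard = 961 := by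
  have := ncard_add (k := 4)
  rw [cardAll4] at this
  exact this

end Pool.Agent.H299.RDE
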