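import Pool.Agent.H299.RDE.Cert
import Pool.Graph.R_pool_sql_team_seeded_1acbe0a2.Results.MP_88c4fb_an.UnboundedTwoTwo
import Pool.Graph.R_pool_sql_team_seeded_843ab51a.Results.MP_db9acb_an.Unbounded

/-!
# Two unbounded special cases taken from the library
-/

namespace Pool.Agent.H299.RDE

/-- numerator `α + β₁ x_{n-1}`, denominator `B₂ x_{n-2} + B₃ x_{n-3}` -/
theorem unb_01_23 : UnbM 3 12 := by
  obtain ⟨α, C, hα, hC, x, hx, hrec, hub⟩ := Pool.Agent.Results.MP_db9acb_an.Unbounded.result
  refine ⟨fun i => if i = 0 then α else if i = 1 then 1 else 0,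
    fun i => if i = 2 then C else if i = 3 then 1 else 0,
    fun n => match n with | 0 => 1 | n + 1 => x n, ?_, ?_, ⟨?_, ?_, ?_⟩, ?_⟩
  · intro i hi
    interval_cases i <;> simp [hα] <;>
      first | decide | exact fun h => absurd h (by decide)
  · intro i hi
    interval_cases i <;> simp [hC] <;>
      first | decide | exact fun h => absurd h (by decide)
  · intro n
    cases n with
    | zero => exact zero_le_one
    | succ n => exact (hx n).le
  · intro n
    simp only [lin4]
    norm_num
    have := hx (n + 1)
    have := hx n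
    positivity
  · intro n
    simp only [lin4]
    norm_num
    exact hrec n
  · intro M
    obtain ⟨n, hn⟩ := hub M
    exact ⟨n + 1, hn⟩

/-- numerator `β₁ x_{n-1} + β₂ x_{n-2}`, denominator `B₂ x_{n-2} + B₄ x_{n-4}` -/
theorem not_bdd_12_24 : ¬ BddM 6 20 := by
  intro H
  refine Pool.Agent.Results.MP_88c4fb_an.UnboundedTwoTwo.result ?_
  intro b c hb hc x hx
  obtain ⟨h0, h1, h2⟩ := hx
  have hlin : ∀ (d : ℕ → ℝ) n, d 0 + ∑ j ∈ Finset.Icc 1 4, d j * x (n + 4 - j) = lin4 d x n := by
    intro d n
    have : Finset.Icc 1 4 = {1, 2, 3, 4} := by decide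
    rw [this]
    rw [Finset.sum_insert (by decide), Finset.sum_insert (by decide),
      Finset.sum_insert (by decide), Finset.sum_singleton]
    unfold lin4
    have e1 : n + 4 - 1 = n + 3 := rfl
    have e2 : n + 4 - 2 = n + 2 := rfl
    have e3 : n + 4 - 3 = n + 1 := rfl
    have e4 : n + 4 - 4 = n := rfl
    rw [e1, e2, e3, e4]
    ring
  have sb : Supp 6 b := by
    intro i hi
    have := hb i hi
    interval_cases i
    · exact ⟨fun h => absurd h (by decide), fun _ => this.2 (by decide)⟩
    · exact ⟨fun _ => this.1 (by decide), fun h => absurd h (by decide)⟩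
    · exact ⟨fun _ => this.1 (by decide), fun h => absurd h (by decide)⟩
    · exact ⟨fun h => absurd h (by decide), fun _ => this.2 (by decide)⟩
    · exact ⟨fun h => absurd h (by decide), fun _ => this.2 (by decide)⟩
  have sc : Supp 20 c := by
    intro i hi
    have := hc i hi
    interval_cases i
    · exact ⟨fun h => absurd h (by decide), fun _ => this.2 (by decide)⟩
    · exact ⟨fun h => absurd h (by decide), fun _ => this.2 (by decide)⟩
    · exact ⟨fun _ => this.1 (by decide), fun h => absurd h (by decide)⟩
    · exact ⟨fun h => absurd h (by decide), fun _ => this.2 (by decide)⟩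
    · exact ⟨fun _ => this.1 (by decide), fun h => absurd h (by decide)⟩
  refine H b c sb sc x ⟨?_, fun n => ?_, fun n => ?_⟩
  · intro n
    induction n using Nat.strong_induction_on with
    | _ n ih =>
      rcases lt_or_ge n 4 with h | h
      · exact h0 n h
      · obtain ⟨j, rfl⟩ := Nat.exists_eq_add_of_le' h
        rw [h2 j]
        refine div_nonneg ?_ (h1 j).le
        rw [hlin]
        unfold lin4
        have k0 := mul_nonneg (sb.nonneg (i := 4) (by norm_num)) (ih j (by omega))
        have k1 := mul_nonneg (sb.nonneg (i := 3) (by norm_num)) (ih (j + 1) (by omega))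
        have k2 := mul_nonneg (sb.nonneg (i := 2) (by norm_num)) (ih (j + 2) (by omega))
        have k3 := mul_nonneg (sb.nonneg (i := 1) (by norm_num)) (ih (j + 3) (by omega))
        have k4 := sb.nonneg (i := 0) (by norm_num)
        linarith
  · rw [← hlin]; exact h1 n
  · rw [← hlin, ← hlin]; exact h2 n

end Pool.Agent.H299.RDE
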