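import Pool.Agent.H299.RDE.Cert

/-!
# From the definitions of the problem to the order four normal form
-/

namespace Pool.Agent.H299.RDE

/-- extend coefficients by zero -/
noncomputable def ext {k : ℕ} (b : Fin (k + 1) → ℝ) (i : ℕ) : ℝ :=
  if h : i < k + 1 then b ⟨i, h⟩ else 0

lemma ext_supp {k : ℕ} {m : ℕ} {b : Fin (k + 1) → ℝ} (hb : HasSupport (bits k m) b)
    (hm : ∀ i, k < i → i ≤ 4 → m.testBit i = false) : Supp m (ext b) := by
  intro i hi
  by_cases h : i < k + 1
  · constructor
    · intro ht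
      simp only [ext, h, dif_pos]
      exact hb.1 _ (by simp [bits, ht])
    · intro ht
      simp only [ext, h, dif_pos]
      exact hb.2 _ (by simp [bits, ht])
  · constructor
    · intro ht
      rw [hm i (by omega) hi] at ht
      exact absurd ht (by decide)
    · intro _
      simp only [ext, h, dif_neg, not_false_eq_true]

lemma lin_eq4 (b : Fin 5 → ℝ) (x : ℕ → ℝ) (n : ℕ) : lin 4 b x n = lin4 (ext b) x n := by
  unfold lin lin4
  rw [Fin.sum_univ_four]
  have e1 : n + 4 - ((0 : Fin 4).val + 1) = n + 3 := by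
    change n + 4 - (0 + 1) = n + 3; omega
  have e2 : n + 4 - ((1 : Fin 4).val + 1) = n + 2 := by
    change n + 4 - (1 + 1) = n + 2; omega
  have e3 : n + 4 - ((2 : Fin 4).val + 1) = n + 1 := by
    change n + 4 - (2 + 1) = n + 1; omega
  have e4 : n + 4 - ((3 : Fin 4).val + 1) = n := by
    change n + 4 - (3 + 1) = n; omega
  rw [e1, e2, e3, e4]
  change b 0 + (b 1 * x (n + 3) + b 2 * x (n + 2) + b 3 * x (n + 1) + b 4 * x n) =
    b 0 + b 1 * x (n + 3) + b 2 * x (n + 2) + b 3 * x (n + 1) + b 4 * x n
  ring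

lemma restrict_supp {k : ℕ} {m : ℕ} {b : ℕ → ℝ} (hb : Supp m b) (hk : k ≤ 4) :
    HasSupport (bits k m) (fun i : Fin (k + 1) => b i) := by
  constructor
  · intro i hi
    simp only [bits, Finset.mem_filter, Finset.mem_univ, true_and] at hi
    exact (hb i (by omega)).1 hi
  · intro i hi
    simp only [bits, Finset.mem_filter, Finset.mem_univ, true_and, Bool.not_eq_true] at hi
    exact (hb i (by omega)).2 hi

lemma lin4_congr {b b' x : ℕ → ℝ} (n : ℕ) (h : ∀ i, i ≤ 4 → b i = b' i) :
    lin4 b x n = lin4 b' x n := by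
  unfold lin4
  rw [h 0 (by norm_num), h 1 (by norm_num), h 2 (by norm_num), h 3 (by norm_num),
    h 4 (by norm_num)]

lemma nsol_nonneg {m n : ℕ} {b c x : ℕ → ℝ} (hb : Supp m b) (_hc : Supp n c)
    (h0 : ∀ i, i < 4 → 0 ≤ x i) (h : ∀ i, 0 < lin4 c x i ∧ x (i + 4) = lin4 b x i / lin4 c x i) :
    NSol b c x := by
  have hnn : ∀ i, 0 ≤ x i := by
    intro i
    induction i using Nat.strong_induction_on with
    | _ i ih =>
      rcases lt_or_ge i 4 with h4 | h4
      · exact h0 i h4
      · obtain ⟨j, rfl⟩ := Nat.exists_eq_add_of_le' h4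
        rw [(h j).2]
        refine div_nonneg ?_ (h j).1.le
        unfold lin4
        have k0 := mul_nonneg (hb.nonneg (i := 4) (by norm_num)) (ih j (by omega))
        have k1 := mul_nonneg (hb.nonneg (i := 3) (by norm_num)) (ih (j + 1) (by omega))
        have k2 := mul_nonneg (hb.nonneg (i := 2) (by norm_num)) (ih (j + 2) (by omega))
        have k3 := mul_nonneg (hb.nonneg (i := 1) (by norm_num)) (ih (j + 3) (by omega))
        have k4 := hb.nonneg (i := 0) (by norm_num)
        linarith
  exact ⟨hnn, fun i => (h i).1, fun i => (h i).2⟩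

theorem bounded4_iff (m n : ℕ) : BoundedOnly 4 (bits 4 m) (bits 4 n) ↔ BddM m n := by
  constructor
  · intro H b c hb hc x hx
    refine H (fun i => b i) (fun i => c i) (restrict_supp hb (le_refl 4))
      (restrict_supp hc (le_refl 4)) x ⟨fun i _ => hx.nonneg i, fun i => ?_⟩
    have e1 : lin 4 (fun i : Fin 5 => c i) x i = lin4 c x i := by
      rw [lin_eq4]
      exact lin4_congr i fun j hj => by simp only [ext, show j < 4 + 1 by omega, dif_pos]
    have e2 : lin 4 (fun i : Fin 5 => b i) x i = lin4 b x i := by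
      rw [lin_eq4]
      exact lin4_congr i fun j hj => by simp only [ext, show j < 4 + 1 by omega, dif_pos]
    rw [e1, e2]
    exact ⟨hx.dpos i, hx.eq i⟩
  · intro H b c hb hc x hx
    have hb' := ext_supp hb (by intro i h1 h2; omega)
    have hc' := ext_supp hc (by intro i h1 h2; omega)
    refine H (ext b) (ext c) hb' hc' x (nsol_nonneg hb' hc' hx.1 fun i => ?_)
    rw [← lin_eq4, ← lin_eq4]
    exact hx.2 i

lemma lin_eq3 (b : Fin 4 → ℝ) (x : ℕ → ℝ) (n : ℕ) (y : ℝ) :
    lin 3 b x n = lin4 (ext b) (fun i => match i with | 0 => y | i + 1 => x i) n := by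
  unfold lin lin4
  rw [Fin.sum_univ_three]
  have e1 : n + 3 - ((0 : Fin 3).val + 1) = n + 2 := by
    change n + 3 - (0 + 1) = n + 2; omega
  have e2 : n + 3 - ((1 : Fin 3).val + 1) = n + 1 := by
    change n + 3 - (1 + 1) = n + 1; omega
  have e3 : n + 3 - ((2 : Fin 3).val + 1) = n := by
    change n + 3 - (2 + 1) = n; omega
  rw [e1, e2, e3]
  change b 0 + (b 1 * x (n + 2) + b 2 * x (n + 1) + b 3 * x n) =
    b 0 + b 1 * x (n + 2) + b 2 * x (n + 1) + b 3 * x n + 0 * _
  ring

theorem bounded3_iff (m n : ℕ) (hm : m < 16) (hn : n < 16) :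
    BoundedOnly 3 (bits 3 m) (bits 3 n) ↔ BddM m n := by
  have t4 : ∀ m, m < 16 → ∀ i, 3 < i → i ≤ 4 → m.testBit i = false := by
    intro m hm i h1 h2
    have : i = 4 := by omega
    subst this
    exact Nat.testBit_lt_two_pow (by omega)
  constructor
  · intro H b c hb hc x hx
    have zb : b 4 = 0 := (hb 4 (by norm_num)).2 (t4 m hm 4 (by norm_num) (by norm_num))
    have zc : c 4 = 0 := (hc 4 (by norm_num)).2 (t4 n hn 4 (by norm_num) (by norm_num))
    have key : ∀ (d : ℕ → ℝ), d 4 = 0 → ∀ i,
        lin 3 (fun i : Fin 4 => d i) (fun i => x (i + 1)) i = lin4 d x i := by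
      intro d hd i
      rw [lin_eq3 _ _ _ (x 0)]
      have hx' : (fun i => match i with | 0 => x 0 | i + 1 => x (i + 1)) = x := by
        funext i
        cases i <;> rfl
      rw [hx']
      refine lin4_congr i fun j hj => ?_
      by_cases h : j < 3 + 1
      · simp only [ext, h, dif_pos]
      · have : j = 4 := by omega
        subst this
        rw [hd]
        rfl
    have hsol : IsSolution 3 (fun i : Fin 4 => b i) (fun i : Fin 4 => c i)
        (fun i => x (i + 1)) := by
      refine ⟨fun i _ => hx.nonneg _, fun i => ?_⟩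
      rw [key b zb, key c zc]
      exact ⟨hx.dpos i, hx.eq i⟩
    obtain ⟨M, hM⟩ := H (fun i => b i) (fun i => c i) (restrict_supp hb (by norm_num))
      (restrict_supp hc (by norm_num)) (fun i => x (i + 1)) hsol
    refine ⟨max M (x 0), fun i => ?_⟩
    cases i with
    | zero => exact le_max_right _ _
    | succ i => exact (hM i).trans (le_max_left _ _)
  · intro H b c hb hc x hx
    have hb' := ext_supp hb (t4 m hm)
    have hc' := ext_supp hc (t4 n hn)
    have hsol : NSol (ext b) (ext c) (fun i => match i with | 0 => 0 | i + 1 => x i) := by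
      refine nsol_nonneg hb' hc' ?_ ?_
      · intro i hi
        cases i with
        | zero => exact le_refl _
        | succ i => exact hx.1 i (by omega)
      · intro i
        rw [← lin_eq3, ← lin_eq3]
        exact hx.2 i
    obtain ⟨M, hM⟩ := H (ext b) (ext c) hb' hc' _ hsol
    exact ⟨M, fun i => hM (i + 1)⟩

end Pool.Agent.H299.RDE
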