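import Pool.Agent.H299.RDE.Cert

/-!
# Bounded special cases with an invariant
-/

namespace Pool.Agent.H299.RDE

/-- Lyness-type sequences are bounded. -/
lemma lyness_bdd {a b c : ℝ} (ha : 0 ≤ a) (hb : 0 < b) (hc : 0 < c) {y : ℕ → ℝ}
    (hy : ∀ n, 0 < y n) (hrec : ∀ n, c * y (n + 2) * y n = a + b * y (n + 1)) :
    ∃ M, ∀ n, y n ≤ M := by
  set J : ℕ → ℝ := fun n => (b + c * y n) * (b + c * y (n + 1)) * (a + b * (y n + y (n + 1))) /
    (y n * y (n + 1)) with hJ
  have hinv : ∀ n, J (n + 1) = J n := by
    intro n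
    have h0 := hy n
    have h1 := hy (n + 1)
    have h2 := hy (n + 2)
    have hr := hrec n
    have e : y (n + 2) = (a + b * y (n + 1)) / (c * y n) := by
      rw [eq_div_iff (by positivity)]
      linarith
    have hpos : 0 < a + b * y (n + 1) := by positivity
    simp only [hJ]
    rw [show n + 1 + 1 = n + 2 from rfl, e]
    field_simp
    ring
  have hconst : ∀ n, J n = J 0 := by
    intro n
    induction n with
    | zero => rfl
    | succ n ih => rw [hinv, ih]
  refine ⟨J 0 / (c * c * b), ?_⟩
  intro n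
  rw [← hconst n, le_div_iff₀ (by positivity)]
  simp only [hJ]
  have h0 := hy n
  have h1 := hy (n + 1)
  rw [le_div_iff₀ (by positivity)]
  have e1 : c * y n ≤ b + c * y n := by linarith
  have e2 : c * y (n + 1) ≤ b + c * y (n + 1) := by linarith
  have e3 : b * y n ≤ a + b * (y n + y (n + 1)) := by nlinarith [mul_pos hb h1]
  calc y n * (c * c * b) * (y n * y (n + 1)) =
      (c * y n) * (c * y (n + 1)) * (b * y n) := by ring
    _ ≤ (b + c * y n) * (b + c * y (n + 1)) * (a + b * (y n + y (n + 1))) := by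
        apply mul_le_mul _ e3 (by positivity) (by positivity)
        apply mul_le_mul e1 e2 (by positivity) (by positivity)

/-- A sequence bounded from some index on is bounded. -/
lemma bdd_of_tail {x : ℕ → ℝ} (N : ℕ) (h : ∃ M, ∀ n, x (n + N) ≤ M) : ∃ M, ∀ n, x n ≤ M := by
  obtain ⟨M, hM⟩ := h
  have : ∀ N : ℕ, ∃ K : ℝ, ∀ n, n < N → x n ≤ K := by
    intro N
    induction N with
    | zero => exact ⟨0, by intro n h; omega⟩
    | succ N ih =>
      obtain ⟨K, hK⟩ := ih
      refine ⟨max K (x N), ?_⟩
      intro n hn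
      rcases Nat.lt_succ_iff_lt_or_eq.1 hn with h | h
      · exact (hK n h).trans (le_max_left _ _)
      · rw [h]; exact le_max_right _ _
  obtain ⟨K, hK⟩ := this N
  refine ⟨max K M, ?_⟩
  intro n
  rcases lt_or_ge n N with h | h
  · exact (hK n h).trans (le_max_left _ _)
  · obtain ⟨m, rfl⟩ := Nat.exists_eq_add_of_le' h
    exact (hM m).trans (le_max_right _ _)

/-- `(β₁ x_{n-1} [+ α]) / (B₂ x_{n-2})` -/
theorem bdd_lyness1 (P : ℕ) (h0 : P = 2 ∨ P = 3) : BddM P 4 := by
  intro b c hb hc x hx
  have hc2 : 0 < c 2 := (hc 2 (by norm_num)).1 (by decide)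
  have z : ∀ i, i ≤ 4 → i ≠ 2 → c i = 0 := by
    intro i hi hne
    refine (hc i hi).2 ?_
    interval_cases i <;> first | rfl | omega
  have hb1 : 0 < b 1 := (hb 1 (by norm_num)).1 (by rcases h0 with rfl | rfl <;> decide)
  have hb0 : 0 ≤ b 0 := hb.nonneg (by norm_num)
  have zb : ∀ i, i ≤ 4 → i ≠ 0 → i ≠ 1 → b i = 0 := by
    intro i hi hne hne1
    refine (hb i hi).2 ?_
    rcases h0 with rfl | rfl <;> interval_cases i <;> first | rfl | omega
  have hD : ∀ n, lin4 c x n = c 2 * x (n + 2) := by
    intro n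
    unfold lin4
    rw [z 0 (by norm_num) (by norm_num), z 1 (by norm_num) (by norm_num),
      z 3 (by norm_num) (by norm_num), z 4 (by norm_num) (by norm_num)]
    ring
  have hN : ∀ n, lin4 b x n = b 0 + b 1 * x (n + 3) := by
    intro n
    unfold lin4
    rw [zb 2 (by norm_num) (by norm_num) (by norm_num),
      zb 3 (by norm_num) (by norm_num) (by norm_num),
      zb 4 (by norm_num) (by norm_num) (by norm_num)]
    ring
  have hpos : ∀ n, 0 < x (n + 2) := by
    intro n
    have := hx.dpos n
    rw [hD] at this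
    exact (pos_iff_pos_of_mul_pos this).1 hc2
  refine bdd_of_tail 2 (lyness_bdd hb0 hb1 hc2 hpos ?_)
  intro n
  have h := hx.eq n
  rw [hD, hN, eq_div_iff (mul_pos hc2 (hpos n)).ne'] at h
  have e : n + 2 + 2 = n + 4 := rfl
  have e' : n + 1 + 2 = n + 3 := rfl
  rw [e, e', ← h]
  ring

/-- `(β₂ x_{n-2} [+ α]) / (B₄ x_{n-4})` -/
theorem bdd_lyness2 (P : ℕ) (h0 : P = 4 ∨ P = 5) : BddM P 16 := by
  intro b c hb hc x hx
  have hc4 : 0 < c 4 := (hc 4 (by norm_num)).1 (by decide)
  have z : ∀ i, i ≤ 4 → i ≠ 4 → c i = 0 := by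
    intro i hi hne
    refine (hc i hi).2 ?_
    interval_cases i <;> first | rfl | omega
  have hb2 : 0 < b 2 := (hb 2 (by norm_num)).1 (by rcases h0 with rfl | rfl <;> decide)
  have hb0 : 0 ≤ b 0 := hb.nonneg (by norm_num)
  have zb : ∀ i, i ≤ 4 → i ≠ 0 → i ≠ 2 → b i = 0 := by
    intro i hi hne hne1
    refine (hb i hi).2 ?_
    rcases h0 with rfl | rfl <;> interval_cases i <;> first | rfl | omega
  have hD : ∀ n, lin4 c x n = c 4 * x n := by
    intro n
    unfold lin4
    rw [z 0 (by norm_num) (by norm_num), z 1 (by norm_num) (by norm_num),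
      z 2 (by norm_num) (by norm_num), z 3 (by norm_num) (by norm_num)]
    ring
  have hN : ∀ n, lin4 b x n = b 0 + b 2 * x (n + 2) := by
    intro n
    unfold lin4
    rw [zb 1 (by norm_num) (by norm_num) (by norm_num),
      zb 3 (by norm_num) (by norm_num) (by norm_num),
      zb 4 (by norm_num) (by norm_num) (by norm_num)]
    ring
  have hpos : ∀ n, 0 < x n := by
    intro n
    have := hx.dpos n
    rw [hD] at this
    exact (pos_iff_pos_of_mul_pos this).1 hc4
  have hrec : ∀ n, c 4 * x (n + 4) * x n = b 0 + b 2 * x (n + 2) := by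
    intro n
    have h := hx.eq n
    rw [hD, hN, eq_div_iff (mul_pos hc4 (hpos n)).ne'] at h
    rw [← h]
    ring
  obtain ⟨M0, h0⟩ := lyness_bdd (y := fun m => x (2 * m)) hb0 hb2 hc4 (fun m => hpos _)
    (fun m => hrec (2 * m))
  obtain ⟨M1, h1⟩ := lyness_bdd (y := fun m => x (2 * m + 1)) hb0 hb2 hc4 (fun m => hpos _)
    (fun m => hrec (2 * m + 1))
  refine ⟨max M0 M1, ?_⟩
  intro n
  rcases Nat.even_or_odd' n with ⟨k, hk | hk⟩
  · rw [hk]; exact (h0 k).trans (le_max_left _ _)
  · rw [hk]; exact (h1 k).trans (le_max_right _ _)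

/-- numerator constant, no constant in the denominator -/
theorem bdd_const (Q : ℕ) (hQ0 : Q.testBit 0 = false) (hQ : ∃ i, i ≤ 4 ∧ Q.testBit i = true) :
    BddM 1 Q := by
  intro b c hb hc x hx
  have hb0 : 0 < b 0 := (hb 0 (by norm_num)).1 (by decide)
  have zb : ∀ i, i ≤ 4 → i ≠ 0 → b i = 0 := by
    intro i hi hne
    refine (hb i hi).2 ?_
    interval_cases i <;> first | rfl | omega
  have hN : ∀ n, lin4 b x n = b 0 := by
    intro n
    unfold lin4
    rw [zb 1 (by norm_num) (by norm_num), zb 2 (by norm_num) (by norm_num),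
      zb 3 (by norm_num) (by norm_num), zb 4 (by norm_num) (by norm_num)]
    ring
  have hc0 : c 0 = 0 := (hc 0 (by norm_num)).2 hQ0
  have hrec : ∀ n, x (n + 4) = b 0 / lin4 c x n := by
    intro n
    rw [hx.eq n, hN]
  have hpos : ∀ n, 0 < x (n + 4) := fun n => by
    rw [hrec]; exact div_pos hb0 (hx.dpos n)
  have c1 := hc.nonneg (i := 1) (by norm_num)
  have c2 := hc.nonneg (i := 2) (by norm_num)
  have c3 := hc.nonneg (i := 3) (by norm_num)
  have c4 := hc.nonneg (i := 4) (by norm_num)
  set S := c 1 + c 2 + c 3 + c 4 with hS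
  have hSpos : 0 < S := by
    obtain ⟨i, hi, hq⟩ := hQ
    have := (hc i hi).1 hq
    interval_cases i
    · rw [hc0] at this; exact absurd this (lt_irrefl _)
    · linarith
    · linarith
    · linarith
    · linarith
  set M := x 4 + x 5 + x 6 + x 7 + b 0 / (S * x 4) + b 0 / (S * x 5) + b 0 / (S * x 6) +
    b 0 / (S * x 7) with hM
  have p4 := hpos 0
  have p5 := hpos 1
  have p6 := hpos 2
  have p7 := hpos 3
  simp only [Nat.reduceAdd, zero_add] at p4 p5 p6 p7
  have q4 : 0 < b 0 / (S * x 4) := by positivity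
  have q5 : 0 < b 0 / (S * x 5) := by positivity
  have q6 : 0 < b 0 / (S * x 6) := by positivity
  have q7 : 0 < b 0 / (S * x 7) := by positivity
  have hMpos : 0 < M := by linarith
  have low : ∀ t : ℝ, 0 < t → b 0 / (S * t) ≤ M → b 0 / (S * M) ≤ t := by
    intro t ht h
    rw [div_le_iff₀ (by positivity)] at h
    rw [div_le_iff₀ (by positivity)]
    linarith
  have key : ∀ n, b 0 / (S * M) ≤ x (n + 4) ∧ x (n + 4) ≤ M := by
    intro n
    induction n using Nat.strong_induction_on with
    | _ n ih =>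
      rcases lt_or_ge n 4 with h | h
      · interval_cases n
        · exact ⟨low _ p4 (by linarith), by linarith⟩
        · exact ⟨low _ p5 (by linarith), by linarith⟩
        · exact ⟨low _ p6 (by linarith), by linarith⟩
        · exact ⟨low _ p7 (by linarith), by linarith⟩
      · obtain ⟨m, rfl⟩ := Nat.exists_eq_add_of_le' h
        have k0 := ih m (by omega)
        have k1 := ih (m + 1) (by omega)
        have k2 := ih (m + 2) (by omega)
        have k3 := ih (m + 3) (by omega)
        rw [hrec (m + 4)]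
        have e0 : m + 4 + 1 = m + 1 + 4 := by ring
        have e1 : m + 4 + 2 = m + 2 + 4 := by ring
        have e2 : m + 4 + 3 = m + 3 + 4 := by ring
        have hD : lin4 c x (m + 4) = c 1 * x (m + 3 + 4) + c 2 * x (m + 2 + 4) +
            c 3 * x (m + 1 + 4) + c 4 * x (m + 4) := by
          unfold lin4
          rw [hc0, e0, e1, e2]
          ring
        have hDpos := hx.dpos (m + 4)
        set L := b 0 / (S * M) with hL
        have hLpos : 0 < L := by positivity
        have up : lin4 c x (m + 4) ≤ S * M := by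
          rw [hD]
          have := mul_le_mul_of_nonneg_left k3.2 c1
          have := mul_le_mul_of_nonneg_left k2.2 c2
          have := mul_le_mul_of_nonneg_left k1.2 c3
          have := mul_le_mul_of_nonneg_left k0.2 c4
          have : S * M = c 1 * M + c 2 * M + c 3 * M + c 4 * M := by rw [hS]; ring
          linarith
        have dn : S * L ≤ lin4 c x (m + 4) := by
          rw [hD]
          have := mul_le_mul_of_nonneg_left k3.1 c1
          have := mul_le_mul_of_nonneg_left k2.1 c2
          have := mul_le_mul_of_nonneg_left k1.1 c3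
          have := mul_le_mul_of_nonneg_left k0.1 c4
          have : S * L = c 1 * L + c 2 * L + c 3 * L + c 4 * L := by rw [hS]; ring
          linarith
        constructor
        · exact div_le_div_of_nonneg_left hb0.le hDpos up
        · rw [div_le_iff₀ hDpos]
          have h1 : M * (S * L) = b 0 := by
            rw [hL]; field_simp
          have := mul_le_mul_of_nonneg_left dn hMpos.le
          linarith
  exact bdd_of_tail 4 ⟨M, fun n => (key n).2⟩

end Pool.Agent.H299.RDE
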