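import Pool.Agent.H299.RDE.NeutB

/-!
# Neutral special cases of order four, first part

Numerators `α + β x_{n-k₀}` and `[α +] β₃ x_{n-3} + β₄ x_{n-4}`.
-/

set_option linter.deprecated false

namespace Pool.Agent.H299.RDE

open Filter Topology Hyperreal

/-- a value multiplied by a large one stays bounded by a multiple of the record: finite -/
lemma fin_of_large {x L y : ℝ*} (hx : 0 ≤ x) (hL : Lg y L) (hy : Inf y) {B a K : ℝ} (hB : 0 < B)
    (hK : 0 ≤ K) (h : x * ((B : ℝ*) * L) ≤ a + K * y) : Fn x := by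
  obtain ⟨M, hM, hMle⟩ := hL.le
  refine Fn.of_mul hx (hL.inf hy) hB (a := a) (β := 0) (K := K * M) ?_
  have := mul_le_mul_of_nonneg_left hMle (coe_nonneg.2 hK)
  rw [coe_zero, coe_mul]
  calc x * ((B : ℝ*) * L) ≤ a + K * y := h
    _ ≤ a + K * (M * L) := by linarith
    _ = a + 0 * x + K * M * L := by ring

/-- if moreover the right-hand side is finite: infinitesimal -/
lemma tiny_of_large {x L y : ℝ*} (hx : 0 ≤ x) (hL : Lg y L) (hy : Inf y) {B r : ℝ} (hB : 0 < B)
    (h : x * ((B : ℝ*) * L) ≤ r) : IsSt x 0 := by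
  have hI := hL.inf hy
  have hp := hI.pos
  have hBs : (0 : ℝ*) < B := coe_pos.2 hB
  have h1 : x = (x * ((B : ℝ*) * L)) / ((B : ℝ*) * L) := by field_simp
  rw [h1]
  refine St.div_inf (mul_nonneg hx (mul_nonneg hBs.le hp.le)) h ?_
  intro s
  calc (s : ℝ*) = (B : ℝ*) * ((s / B : ℝ) : ℝ*) := by
        rw [← coe_mul]; congr 1; field_simp
    _ < B * L := mul_lt_mul_of_pos_left (hI _) hBs

/-- if `A + B t₀ ≤ γ` and `t_k A = α + γ t_{k+1}`: contradiction -/
theorem starC {A α γ B : ℝ} (hA : 0 < A) (hα : 0 < α) (hγ : 0 < γ) (hB : 0 < B)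
    {L t e : ℕ → ℝ*} (t0 : ∀ k, 0 ≤ t k) (L0 : ∀ k, 0 ≤ L k) (hL : ∀ k, L k ≤ L 0)
    (hinf : Inf (L 0)) (h1 : ∀ k, L k * (A + B * t k) ≤ α + γ * L (k + 1))
    (h2 : ∀ k, t k * (A + e k) = α + γ * t (k + 1)) (he : (∀ k, Lg (L 0) (L k)) →
      ∀ k, IsSt (e k) 0) : False := by
  have hAs : (0 : ℝ*) ≤ A := coe_nonneg.2 hA.le
  have hαs : (0 : ℝ*) ≤ α := coe_nonneg.2 hα.le
  have hγs : (0 : ℝ*) < γ := coe_pos.2 hγ
  have hBs : (0 : ℝ*) < B := coe_pos.2 hB
  have hLg : ∀ k, Lg (L 0) (L k) := by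
    intro k
    induction k with
    | zero => exact Lg.refl _
    | succ k ih =>
      refine ih.prop hinf hA hγ (r := α) ?_
      have h3 := h1 k
      have h4 := mul_nonneg (L0 k) (mul_nonneg hBs.le (t0 k))
      nlinarith
  have hF : ∀ k, Fn (t k) := by
    intro k
    refine fin_of_large (t0 k) (hLg k) hinf hB (a := α) (K := γ) hγ.le ?_
    have h3 := h1 k
    have h4 := mul_nonneg (L0 k) hAs
    have h5 := mul_le_mul_of_nonneg_left (hL (k + 1)) hγs.le
    nlinarith
  have hex : ∀ k, ∃ s : ℝ, 0 ≤ s ∧ IsSt (t k) s := fun k => (hF k).st (t0 k)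
  choose s hs0 hs using hex
  refine real_contra (β := 0) hA.le hα.le (le_refl 0) hγ hB (Or.inr ⟨hα, hA⟩) hs0 ?_ ?_
  · intro k
    have q1 := St.mul (hs k) (St.add (St.const A) (he hLg k))
    have q2 := St.add (St.const α) (St.cmul γ (hs (k + 1)))
    rw [h2 k] at q1
    have := St.unique q1 q2
    simp only [add_zero, zero_mul] at this ⊢
    exact this
  · have hI := hinf.pos
    have s1 : IsSt ((α : ℝ*) / L 0) 0 := (Fn.const α).div_inf hαs hinf
    have q1 := St.add (St.const A) (St.cmul B (hs 0))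
    have q2 := St.add s1 (St.const γ)
    have hle : (A : ℝ*) + B * t 0 ≤ α / L 0 + γ := by
      have h5 := h1 0
      have h6 := mul_le_mul_of_nonneg_left (hL (0 + 1)) hγs.le
      have h7 : ((A : ℝ*) + B * t 0) * L 0 ≤ (α / L 0 + γ) * L 0 := by
        have e : (α / L 0 + γ) * L 0 = α + γ * L 0 := by field_simp
        rw [e]
        linarith
      exact le_of_mul_le_mul_right h7 hI
    have := St.le q1 q2 hle
    linarith

/-- `(α + β₃ x_{n-3}) / (A [+ B₁ x_{n-1}] + B₄ x_{n-4})` -/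
theorem bdd_neutC3 (Q : ℕ) (k0 : Q.testBit 0 = true) (k4 : Q.testBit 4 = true)
    (k2 : Q.testBit 2 = false) (k3 : Q.testBit 3 = false) : BddM 9 Q := by
  intro b c hb hc x hx
  by_contra hu
  obtain ⟨X, hX⟩ := star_of_unbounded hx hu
  have hA := hc.pos (by norm_num) k0
  have hB := hc.pos (by norm_num) k4
  have hB1 := hc.nonneg (i := 1) (by norm_num)
  have hα := hb.pos (i := 0) (by norm_num) (by decide)
  have hγ := hb.pos (i := 3) (by norm_num) (by decide)
  have heq : ∀ m, X m * (c 0 + c 1 * X (m + 1) + c 4 * X (m + 4)) = b 0 + b 3 * X (m + 3) := by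
    intro m
    have := hX.eq m
    unfold linS at this
    rw [hb.zero (i := 1) (by norm_num) (by decide), hb.zero (i := 2) (by norm_num) (by decide),
      hb.zero (i := 4) (by norm_num) (by decide), hc.zero (i := 2) (by norm_num) k2,
      hc.zero (i := 3) (by norm_num) k3, coe_zero] at this
    linarith
  have n1 : (0 : ℝ*) ≤ c 1 := coe_nonneg.2 hB1
  have n0 : (0 : ℝ*) ≤ c 0 := coe_nonneg.2 hA.le
  have n4 : (0 : ℝ*) ≤ c 4 := coe_nonneg.2 hB.le
  have nb0 : (0 : ℝ*) ≤ b 0 := coe_nonneg.2 hα.le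
  have nb3 : (0 : ℝ*) ≤ b 3 := coe_nonneg.2 hγ.le
  refine starC hA hα hγ hB (L := fun k => X (3 * k)) (t := fun k => X (3 * k + 4))
    (e := fun k => c 1 * X (3 * k + 5) + c 4 * X (3 * k + 8)) (fun k => hX.nonneg _)
    (fun k => hX.nonneg _) (fun k => hX.le _) hX.inf ?_ ?_ ?_
  · intro k
    have := heq (3 * k)
    have h1 := mul_nonneg (hX.nonneg (3 * k)) (mul_nonneg n1 (hX.nonneg (3 * k + 1)))
    have e : 3 * (k + 1) = 3 * k + 3 := by ring
    simp only [e]
    nlinarith
  · intro k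
    have := heq (3 * k + 4)
    have e : 3 * (k + 1) + 4 = 3 * k + 4 + 3 := by ring
    simp only [e]
    rw [← this]
    ring
  · intro hLg k
    have hs : ∀ j, IsSt (X (3 * j + 2)) 0 := by
      have hF : ∀ j, Fn (X (3 * j + 2)) := by
        intro j
        have hl := hLg (j + 2)
        refine fin_of_large (hX.nonneg _) hl hX.inf hB (a := b 0) (K := b 3) hγ.le ?_
        have h1 := heq (3 * j + 2)
        have h2 := mul_nonneg (hX.nonneg (3 * j + 2)) (mul_nonneg n1 (hX.nonneg (3 * j + 2 + 1)))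
        have h3 := mul_nonneg (hX.nonneg (3 * j + 2)) n0
        have h4 := mul_le_mul_of_nonneg_left (hX.le (3 * j + 2 + 3)) nb3
        have e : 3 * (j + 2) = 3 * j + 2 + 4 := by ring
        simp only [e]
        nlinarith
      intro j
      obtain ⟨r, hr⟩ := hF (j + 1)
      have hl := hLg (j + 2)
      refine tiny_of_large (hX.nonneg _) hl hX.inf hB (r := b 0 + b 3 * r) ?_
      have h1 := heq (3 * j + 2)
      have h2 := mul_nonneg (hX.nonneg (3 * j + 2)) (mul_nonneg n1 (hX.nonneg (3 * j + 2 + 1)))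
      have h3 := mul_nonneg (hX.nonneg (3 * j + 2)) n0
      have e : 3 * (j + 2) = 3 * j + 2 + 4 := by ring
      have e' : 3 * (j + 1) + 2 = 3 * j + 2 + 3 := by ring
      rw [e'] at hr
      have h4 := mul_le_mul_of_nonneg_left hr nb3
      simp only [e]
      rw [coe_add, coe_mul]
      nlinarith
    have e1 : 3 * k + 5 = 3 * (k + 1) + 2 := by ring
    have e2 : 3 * k + 8 = 3 * (k + 2) + 2 := by ring
    simp only [e1, e2]
    have := St.add (St.cmul (c 1) (hs (k + 1))) (St.cmul (c 4) (hs (k + 2)))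
    simpa using this

/-- `(α + β₄ x_{n-4}) / (A + B₁ x_{n-1} + B₂ x_{n-2})` -/
theorem bdd_04_012 : BddM 17 7 := by
  intro b c hb hc x hx
  by_contra hu
  obtain ⟨X, hX⟩ := star_of_unbounded hx hu
  have hA := hc.pos (i := 0) (by norm_num) (by decide)
  have hB := hc.pos (i := 1) (by norm_num) (by decide)
  have hB2 := hc.pos (i := 2) (by norm_num) (by decide)
  have hα := hb.pos (i := 0) (by norm_num) (by decide)
  have hγ := hb.pos (i := 4) (by norm_num) (by decide)
  have heq : ∀ m, X m * (c 0 + c 1 * X (m + 1) + c 2 * X (m + 2)) = b 0 + b 4 * X (m + 4) := by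
    intro m
    have := hX.eq m
    unfold linS at this
    rw [hb.zero (i := 1) (by norm_num) (by decide), hb.zero (i := 2) (by norm_num) (by decide),
      hb.zero (i := 3) (by norm_num) (by decide), hc.zero (i := 3) (by norm_num) (by decide),
      hc.zero (i := 4) (by norm_num) (by decide), coe_zero] at this
    linarith
  have n1 : (0 : ℝ*) ≤ c 1 := coe_nonneg.2 hB.le
  have n0 : (0 : ℝ*) ≤ c 0 := coe_nonneg.2 hA.le
  have n2 : (0 : ℝ*) ≤ c 2 := coe_nonneg.2 hB2.le
  have nb0 : (0 : ℝ*) ≤ b 0 := coe_nonneg.2 hα.le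
  have nb4 : (0 : ℝ*) ≤ b 4 := coe_nonneg.2 hγ.le
  refine starC hA hα hγ hB (L := fun k => X (4 * k)) (t := fun k => X (4 * k + 1))
    (e := fun k => c 1 * X (4 * k + 2) + c 2 * X (4 * k + 3)) (fun k => hX.nonneg _)
    (fun k => hX.nonneg _) (fun k => hX.le _) hX.inf ?_ ?_ ?_
  · intro k
    have := heq (4 * k)
    have h1 := mul_nonneg (hX.nonneg (4 * k)) (mul_nonneg n2 (hX.nonneg (4 * k + 2)))
    have e : 4 * (k + 1) = 4 * k + 4 := by ring
    simp only [e]
    nlinarith
  · intro k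
    have := heq (4 * k + 1)
    have e : 4 * (k + 1) + 1 = 4 * k + 1 + 4 := by ring
    simp only [e]
    rw [← this]
    ring
  · intro hLg k
    have hs3 : ∀ j, IsSt (X (4 * j + 3)) 0 := by
      have hF : ∀ j, Fn (X (4 * j + 3)) := by
        intro j
        refine fin_of_large (hX.nonneg _) (hLg (j + 1)) hX.inf hB (a := b 0) (K := b 4) hγ.le ?_
        have h1 := heq (4 * j + 3)
        have h2 := mul_nonneg (hX.nonneg (4 * j + 3)) (mul_nonneg n2 (hX.nonneg (4 * j + 3 + 2)))
        have h3 := mul_nonneg (hX.nonneg (4 * j + 3)) n0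
        have h4 := mul_le_mul_of_nonneg_left (hX.le (4 * j + 3 + 4)) nb4
        have e : 4 * (j + 1) = 4 * j + 3 + 1 := by ring
        simp only [e]
        nlinarith
      intro j
      obtain ⟨r, hr⟩ := hF (j + 1)
      refine tiny_of_large (hX.nonneg _) (hLg (j + 1)) hX.inf hB (r := b 0 + b 4 * r) ?_
      have h1 := heq (4 * j + 3)
      have h2 := mul_nonneg (hX.nonneg (4 * j + 3)) (mul_nonneg n2 (hX.nonneg (4 * j + 3 + 2)))
      have h3 := mul_nonneg (hX.nonneg (4 * j + 3)) n0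
      have e : 4 * (j + 1) = 4 * j + 3 + 1 := by ring
      have e' : 4 * (j + 1) + 3 = 4 * j + 3 + 4 := by ring
      rw [e'] at hr
      have h4 := mul_le_mul_of_nonneg_left hr nb4
      simp only [e]
      rw [coe_add, coe_mul]
      nlinarith
    have hs2 : ∀ j, IsSt (X (4 * j + 2)) 0 := by
      have hF : ∀ j, Fn (X (4 * j + 2)) := by
        intro j
        refine fin_of_large (hX.nonneg _) (hLg (j + 1)) hX.inf hB2 (a := b 0) (K := b 4) hγ.le ?_
        have h1 := heq (4 * j + 2)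
        have h2 := mul_nonneg (hX.nonneg (4 * j + 2)) (mul_nonneg n1 (hX.nonneg (4 * j + 2 + 1)))
        have h3 := mul_nonneg (hX.nonneg (4 * j + 2)) n0
        have h4 := mul_le_mul_of_nonneg_left (hX.le (4 * j + 2 + 4)) nb4
        have e : 4 * (j + 1) = 4 * j + 2 + 2 := by ring
        simp only [e]
        nlinarith
      intro j
      obtain ⟨r, hr⟩ := hF (j + 1)
      refine tiny_of_large (hX.nonneg _) (hLg (j + 1)) hX.inf hB2 (r := b 0 + b 4 * r) ?_
      have h1 := heq (4 * j + 2)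
      have h2 := mul_nonneg (hX.nonneg (4 * j + 2)) (mul_nonneg n1 (hX.nonneg (4 * j + 2 + 1)))
      have h3 := mul_nonneg (hX.nonneg (4 * j + 2)) n0
      have e : 4 * (j + 1) = 4 * j + 2 + 2 := by ring
      have e' : 4 * (j + 1) + 2 = 4 * j + 2 + 4 := by ring
      rw [e'] at hr
      have h4 := mul_le_mul_of_nonneg_left hr nb4
      simp only [e]
      rw [coe_add, coe_mul]
      nlinarith
    have := St.add (St.cmul (c 1) (hs2 k)) (St.cmul (c 2) (hs3 k))
    simpa using this

/-- `(α + β₄ x_{n-4}) / (A + B₂ x_{n-2} + B₃ x_{n-3})` -/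
theorem bdd_04_023 : BddM 17 13 := by
  intro b c hb hc x hx
  by_contra hu
  obtain ⟨X, hX⟩ := star_of_unbounded hx hu
  have hA := hc.pos (i := 0) (by norm_num) (by decide)
  have hB := hc.pos (i := 3) (by norm_num) (by decide)
  have hB2 := hc.pos (i := 2) (by norm_num) (by decide)
  have hα := hb.pos (i := 0) (by norm_num) (by decide)
  have hγ := hb.pos (i := 4) (by norm_num) (by decide)
  have heq : ∀ m, X m * (c 0 + c 2 * X (m + 2) + c 3 * X (m + 3)) = b 0 + b 4 * X (m + 4) := by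
    intro m
    have := hX.eq m
    unfold linS at this
    rw [hb.zero (i := 1) (by norm_num) (by decide), hb.zero (i := 2) (by norm_num) (by decide),
      hb.zero (i := 3) (by norm_num) (by decide), hc.zero (i := 1) (by norm_num) (by decide),
      hc.zero (i := 4) (by norm_num) (by decide), coe_zero] at this
    linarith
  have n3 : (0 : ℝ*) ≤ c 3 := coe_nonneg.2 hB.le
  have n0 : (0 : ℝ*) ≤ c 0 := coe_nonneg.2 hA.le
  have n2 : (0 : ℝ*) ≤ c 2 := coe_nonneg.2 hB2.le
  have nb0 : (0 : ℝ*) ≤ b 0 := coe_nonneg.2 hα.le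
  have nb4 : (0 : ℝ*) ≤ b 4 := coe_nonneg.2 hγ.le
  refine starC hA hα hγ hB (L := fun k => X (4 * k)) (t := fun k => X (4 * k + 3))
    (e := fun k => c 2 * X (4 * k + 5) + c 3 * X (4 * k + 6)) (fun k => hX.nonneg _)
    (fun k => hX.nonneg _) (fun k => hX.le _) hX.inf ?_ ?_ ?_
  · intro k
    have := heq (4 * k)
    have h1 := mul_nonneg (hX.nonneg (4 * k)) (mul_nonneg n2 (hX.nonneg (4 * k + 2)))
    have e : 4 * (k + 1) = 4 * k + 4 := by ring
    simp only [e]
    nlinarith
  · intro k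
    have := heq (4 * k + 3)
    have e : 4 * (k + 1) + 3 = 4 * k + 3 + 4 := by ring
    simp only [e]
    rw [← this]
    ring
  · intro hLg k
    have hs1 : ∀ j, IsSt (X (4 * j + 1)) 0 := by
      have hF : ∀ j, Fn (X (4 * j + 1)) := by
        intro j
        refine fin_of_large (hX.nonneg _) (hLg (j + 1)) hX.inf hB (a := b 0) (K := b 4) hγ.le ?_
        have h1 := heq (4 * j + 1)
        have h2 := mul_nonneg (hX.nonneg (4 * j + 1)) (mul_nonneg n2 (hX.nonneg (4 * j + 1 + 2)))
        have h3 := mul_nonneg (hX.nonneg (4 * j + 1)) n0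
        have h4 := mul_le_mul_of_nonneg_left (hX.le (4 * j + 1 + 4)) nb4
        have e : 4 * (j + 1) = 4 * j + 1 + 3 := by ring
        simp only [e]
        nlinarith
      intro j
      obtain ⟨r, hr⟩ := hF (j + 1)
      refine tiny_of_large (hX.nonneg _) (hLg (j + 1)) hX.inf hB (r := b 0 + b 4 * r) ?_
      have h1 := heq (4 * j + 1)
      have h2 := mul_nonneg (hX.nonneg (4 * j + 1)) (mul_nonneg n2 (hX.nonneg (4 * j + 1 + 2)))
      have h3 := mul_nonneg (hX.nonneg (4 * j + 1)) n0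
      have e : 4 * (j + 1) = 4 * j + 1 + 3 := by ring
      have e' : 4 * (j + 1) + 1 = 4 * j + 1 + 4 := by ring
      rw [e'] at hr
      have h4 := mul_le_mul_of_nonneg_left hr nb4
      simp only [e]
      rw [coe_add, coe_mul]
      nlinarith
    have hs2 : ∀ j, IsSt (X (4 * j + 2)) 0 := by
      have hF : ∀ j, Fn (X (4 * j + 2)) := by
        intro j
        refine fin_of_large (hX.nonneg _) (hLg (j + 1)) hX.inf hB2 (a := b 0) (K := b 4) hγ.le ?_
        have h1 := heq (4 * j + 2)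
        have h2 := mul_nonneg (hX.nonneg (4 * j + 2)) (mul_nonneg n3 (hX.nonneg (4 * j + 2 + 3)))
        have h3 := mul_nonneg (hX.nonneg (4 * j + 2)) n0
        have h4 := mul_le_mul_of_nonneg_left (hX.le (4 * j + 2 + 4)) nb4
        have e : 4 * (j + 1) = 4 * j + 2 + 2 := by ring
        simp only [e]
        nlinarith
      intro j
      obtain ⟨r, hr⟩ := hF (j + 1)
      refine tiny_of_large (hX.nonneg _) (hLg (j + 1)) hX.inf hB2 (r := b 0 + b 4 * r) ?_
      have h1 := heq (4 * j + 2)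
      have h2 := mul_nonneg (hX.nonneg (4 * j + 2)) (mul_nonneg n3 (hX.nonneg (4 * j + 2 + 3)))
      have h3 := mul_nonneg (hX.nonneg (4 * j + 2)) n0
      have e : 4 * (j + 1) = 4 * j + 2 + 2 := by ring
      have e' : 4 * (j + 1) + 2 = 4 * j + 2 + 4 := by ring
      rw [e'] at hr
      have h4 := mul_le_mul_of_nonneg_left hr nb4
      simp only [e]
      rw [coe_add, coe_mul]
      nlinarith
    have e1 : 4 * k + 5 = 4 * (k + 1) + 1 := by ring
    have e2 : 4 * k + 6 = 4 * (k + 1) + 2 := by ring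
    simp only [e1, e2]
    have := St.add (St.cmul (c 2) (hs1 (k + 1))) (St.cmul (c 3) (hs2 (k + 1)))
    simpa using this

/-- `([α +] β₃ x_{n-3} + β₄ x_{n-4}) / ([A +] B₄ x_{n-4})` -/
theorem bdd_neutC4 (P Q : ℕ) (h3 : P.testBit 3 = true) (h4 : P.testBit 4 = true)
    (h1 : P.testBit 1 = false) (h2 : P.testBit 2 = false) (k4 : Q.testBit 4 = true)
    (k1 : Q.testBit 1 = false) (k2 : Q.testBit 2 = false) (k3 : Q.testBit 3 = false) :
    BddM P Q := by
  intro b c hb hc x hx
  by_contra hu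
  obtain ⟨X, hX⟩ := star_of_unbounded hx hu
  have hlb : ∀ m, linS b X m = b 0 + b 4 * X (m + 4) + b 3 * X (m + 3) := by
    intro m
    unfold linS
    rw [hb.zero (by norm_num) h1, hb.zero (by norm_num) h2, coe_zero]
    ring
  have hlc : ∀ m, linS c X m = c 0 + c 4 * X (m + 4) := by
    intro m
    unfold linS
    rw [hc.zero (by norm_num) k1, hc.zero (by norm_num) k2, hc.zero (by norm_num) k3, coe_zero]
    ring
  have heq : ∀ m, X m * (c 0 + c 4 * X (m + 4)) = b 0 + b 4 * X (m + 4) + b 3 * X (m + 3) := by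
    intro m
    rw [← hlb, ← hlc]
    exact hX.eq m
  refine starA (A := c 0) (α := b 0) (β := b 4) (γ := b 3) (B := c 4)
    (hc.nonneg (by norm_num)) (hb.nonneg (by norm_num)) (hb.nonneg (by norm_num))
    (hb.pos (by norm_num) h3) (hc.pos (by norm_num) k4) (Or.inl (hb.pos (by norm_num) h4))
    (L := fun k => X (3 * k)) (a := fun k => X (3 * k + 4)) (p := fun k => X (3 * k + 2))
    (q := fun k => X (3 * k + 8)) (fun k => hX.nonneg _) (fun k => hX.nonneg _)
    (fun k => hX.le _) (fun k => hX.le _) hX.inf ?_ 2 2 ?_ ?_ (fun k => rfl) ?_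
  · intro k
    exact heq (3 * k)
  · intro k
    exact heq (3 * k + 2)
  · intro k
    exact heq (3 * k + 4)
  · intro k
    have := hX.dpos (3 * k + 4)
    rw [hlc] at this
    exact this

end Pool.Agent.H299.RDE
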