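import Pool.Agent.H299.RDE.NeutD

/-!
# Neutral special cases of order four with a cycle of length five

Second family: denominator `[A +] B₂ x_{n-2} + B₃ x_{n-3}`.
-/

set_option linter.deprecated false

namespace Pool.Agent.H299.RDE

open Filter Topology Hyperreal

section

variable {A α β₁ β₂ β₃ β₄ B₂ B₃ : ℝ} {X : ℕ → ℝ*}

/-- `x_n (A + B₂ x_{n-2} + B₃ x_{n-3}) = α + β₁ x_{n-1} + ⋯ + β₄ x_{n-4}` seen from a record, with
a positive lower bound for the denominators -/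
structure SysE (A α β₁ β₂ β₃ β₄ B₂ B₃ : ℝ) (X : ℕ → ℝ*) : Prop where
  hA : 0 ≤ A
  hα : 0 ≤ α
  h1 : 0 < β₁
  h2 : 0 ≤ β₂
  h3 : 0 ≤ β₃
  h4 : 0 < β₄
  hB2 : 0 < B₂
  hB3 : 0 < B₃
  hpos : 0 < A + β₃
  nn : ∀ m, 0 ≤ X m
  le : ∀ m, X m ≤ X 0
  inf : Inf (X 0)
  low : ∃ c0 : ℝ, 0 < c0 ∧ ∀ m, (c0 : ℝ*) ≤ A + B₂ * X (m + 2) + B₃ * X (m + 3)
  eq : ∀ m, X m * (A + B₂ * X (m + 2) + B₃ * X (m + 3)) =
    α + β₁ * X (m + 1) + β₂ * X (m + 2) + β₃ * X (m + 3) + β₄ * X (m + 4)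

lemma SysE.fin2 (S : SysE A α β₁ β₂ β₃ β₄ B₂ B₃ X) {m : ℕ} (hm : Lg (X 0) (X m)) :
    Fn (X (m + 2)) := by
  have hAs : (0 : ℝ*) ≤ A := coe_nonneg.2 S.hA
  refine fn_pair (S.nn (m + 2)) (S.nn (m + 3)) hm S.inf S.hB2 S.hB3 (a := α) (b := β₂) (c := β₃)
    (K := β₁ + β₄) (by have := S.h1; have := S.h4; positivity) ?_
  have e := S.eq m
  have h1 := mul_nonneg (S.nn m) hAs
  have h2 := mul_le_mul_of_nonneg_left (S.le (m + 1)) (coe_pos.2 S.h1).le
  have h3 := mul_le_mul_of_nonneg_left (S.le (m + 4)) (coe_pos.2 S.h4).le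
  rw [coe_add]
  nlinarith

lemma SysE.fin3 (S : SysE A α β₁ β₂ β₃ β₄ B₂ B₃ X) {m : ℕ} (hm : Lg (X 0) (X m)) :
    Fn (X (m + 3)) := by
  have hAs : (0 : ℝ*) ≤ A := coe_nonneg.2 S.hA
  refine fn_pair (S.nn (m + 3)) (S.nn (m + 2)) hm S.inf S.hB3 S.hB2 (a := α) (b := β₃) (c := β₂)
    (K := β₁ + β₄) (by have := S.h1; have := S.h4; positivity) ?_
  have e := S.eq m
  have h1 := mul_nonneg (S.nn m) hAs
  have h2 := mul_le_mul_of_nonneg_left (S.le (m + 1)) (coe_pos.2 S.h1).le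
  have h3 := mul_le_mul_of_nonneg_left (S.le (m + 4)) (coe_pos.2 S.h4).le
  rw [coe_add]
  nlinarith

/-- if `X (m + 1)`, `X (m + 3)` is large compared to ... then ... -/
lemma SysE.next (S : SysE A α β₁ β₂ β₃ β₄ B₂ B₃ X) {m : ℕ} (h1 : Lg (X 0) (X (m + 1)))
    (F0 : Fn (X m)) (F3 : Fn (X (m + 3))) : Lg (X 0) (X (m + 2)) := by
  obtain ⟨c0, hc0, hlow⟩ := S.low
  obtain ⟨r0, hr0⟩ := F0
  obtain ⟨r3, hr3⟩ := F3
  have hr0' : X m ≤ ((max r0 1 : ℝ) : ℝ*) := hr0.trans (coe_le_coe.2 (le_max_left _ _))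
  have hmx : 0 < max r0 1 := lt_of_lt_of_le one_pos (le_max_right _ _)
  have b2 : (0 : ℝ*) ≤ β₂ := coe_nonneg.2 S.h2
  have b3 : (0 : ℝ*) ≤ β₃ := coe_nonneg.2 S.h3
  have b4 : (0 : ℝ*) < β₄ := coe_pos.2 S.h4
  refine h1.prop S.inf S.h1 (K := max r0 1 * B₂) (mul_pos hmx S.hB2)
    (r := max r0 1 * (A + B₃ * r3)) ?_
  have e := S.eq m
  have hd := hlow m
  have hd0 : (0 : ℝ*) ≤ A + B₂ * X (m + 2) + B₃ * X (m + 3) := (coe_pos.2 hc0).le.trans hd
  have m1 := mul_le_mul_of_nonneg_right hr0' hd0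
  have k1 := mul_nonneg b2 (S.nn (m + 2))
  have k3 := mul_nonneg b3 (S.nn (m + 3))
  have k4 := mul_nonneg b4.le (S.nn (m + 4))
  have k6 : (0 : ℝ*) ≤ α := coe_nonneg.2 S.hα
  have m2 := mul_le_mul_of_nonneg_left hr3 (coe_pos.2 S.hB3).le
  have m3 : ((max r0 1 : ℝ) : ℝ*) * (A + B₂ * X (m + 2) + B₃ * X (m + 3)) ≤
      ((max r0 1 : ℝ) : ℝ*) * (A + B₂ * X (m + 2) + B₃ * r3) := by
    apply mul_le_mul_of_nonneg_left _ (coe_pos.2 hmx).le
    linarith
  rw [coe_mul, coe_mul, coe_add, coe_mul]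
  calc (β₁ : ℝ*) * X (m + 1) ≤ X m * (A + B₂ * X (m + 2) + B₃ * X (m + 3)) := by
        rw [e]; linarith
    _ ≤ ((max r0 1 : ℝ) : ℝ*) * (A + B₂ * X (m + 2) + B₃ * r3) := m1.trans m3
    _ = ((max r0 1 : ℝ) : ℝ*) * (A + B₃ * r3) + ((max r0 1 : ℝ) : ℝ*) * B₂ * X (m + 2) := by
        ring

/-- propagation of the pattern -/
lemma SysE.pat (S : SysE A α β₁ β₂ β₃ β₄ B₂ B₃ X) {j : ℕ} (h0 : Lg (X 0) (X j))
    (h1 : Lg (X 0) (X (j + 1))) : Lg (X 0) (X (j + 5)) ∧ Lg (X 0) (X (j + 6)) := by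
  obtain ⟨c0, hc0, hlow⟩ := S.low
  obtain ⟨r2, hr2⟩ := S.fin2 h0
  obtain ⟨r3, hr3⟩ := S.fin3 h0
  have F4 : Fn (X (j + 4)) := S.fin3 h1
  obtain ⟨r4, hr4⟩ := F4
  have b1 : (0 : ℝ*) < β₁ := coe_pos.2 S.h1
  have b2 : (0 : ℝ*) ≤ β₂ := coe_nonneg.2 S.h2
  have b3 : (0 : ℝ*) ≤ β₃ := coe_nonneg.2 S.h3
  have b4 : (0 : ℝ*) < β₄ := coe_pos.2 S.h4
  have hL5 : Lg (X 0) (X (j + 5)) := by
    refine h1.prop S.inf hc0 S.h4 (r := α + β₁ * r2 + β₂ * r3 + β₃ * r4) ?_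
    have e := S.eq (j + 1)
    have hw := mul_le_mul_of_nonneg_left (hlow (j + 1)) (S.nn (j + 1))
    have e2 : j + 1 + 1 = j + 2 := by ring
    have e3 : j + 1 + 2 = j + 3 := by ring
    have e4 : j + 1 + 3 = j + 4 := by ring
    have e5 : j + 1 + 4 = j + 5 := by ring
    rw [e2, e3, e4, e5] at e
    rw [e3, e4] at hw
    have m1 := mul_le_mul_of_nonneg_left hr2 b1.le
    have m2 := mul_le_mul_of_nonneg_left hr3 b2
    have m3 := mul_le_mul_of_nonneg_left hr4 b3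
    rw [coe_add, coe_add, coe_add, coe_mul, coe_mul, coe_mul]
    linarith
  exact ⟨hL5, S.next (m := j + 4) hL5 ⟨r4, hr4⟩ (S.fin2 hL5)⟩

/-- value `U` in terms of the preceding `V` -/
lemma SysE.sig (S : SysE A α β₁ β₂ β₃ β₄ B₂ B₃ X) {m : ℕ} (h0 : Lg (X 0) (X m))
    (F1 : Fn (X (m + 1))) (h4 : Lg (X 0) (X (m + 4))) (h5 : Lg (X 0) (X (m + 5))) {ρ q : ℝ}
    (hρ : IsSt (X (m + 4) / X (m + 5)) ρ) (hq : IsSt (X (m + 2)) q) :
    ∃ σ : ℝ, 0 < σ ∧ IsSt (X m / X (m + 4)) σ ∧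
      σ * (A + B₂ * q + B₃ / B₂ * (β₁ * ρ + β₂)) = β₄ := by
  have F2 := S.fin2 h0
  have F3 := S.fin3 h0
  have I4 := h4.inf S.inf
  have p4 := I4.pos
  have I5 := h5.inf S.inf
  have p5 := I5.pos
  obtain ⟨p, hp0, hp⟩ := F3.st (S.nn _)
  have F6 : Fn (X (m + 6)) := S.fin2 h4
  have F7 : Fn (X (m + 7)) := S.fin3 h4
  have hB2 := S.hB2
  have hB3 := S.hB3
  have hpe : B₂ * p = β₁ * ρ + β₂ := by
    have s0 : IsSt ((A : ℝ*) / X (m + 5)) 0 := (Fn.const A).div_inf (coe_nonneg.2 S.hA) I5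
    have s1 : IsSt ((α : ℝ*) / X (m + 5)) 0 := (Fn.const α).div_inf (coe_nonneg.2 S.hα) I5
    have s2 : IsSt (X (m + 6) / X (m + 5)) 0 := F6.div_inf (S.nn _) I5
    have s4 : IsSt (X (m + 7) / X (m + 5)) 0 := F7.div_inf (S.nn _) I5
    have e : X (m + 3) * (A / X (m + 5) + B₂ + B₃ * (X (m + 6) / X (m + 5))) =
        α / X (m + 5) + β₁ * (X (m + 4) / X (m + 5)) + β₂ + β₃ * (X (m + 6) / X (m + 5)) +
          β₄ * (X (m + 7) / X (m + 5)) := by
      have := S.eq (m + 3)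
      have e1 : m + 3 + 1 = m + 4 := by ring
      have e2 : m + 3 + 2 = m + 5 := by ring
      have e3 : m + 3 + 3 = m + 6 := by ring
      have e4 : m + 3 + 4 = m + 7 := by ring
      rw [e1, e2, e3, e4] at this
      field_simp
      linarith
    have t1 := St.mul hp (St.add (St.add s0 (St.const B₂)) (St.cmul B₃ s2))
    have t2 := St.add (St.add (St.add (St.add s1 (St.cmul β₁ hρ)) (St.const β₂))
      (St.cmul β₃ s2)) (St.cmul β₄ s4)
    rw [e] at t1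
    have := St.unique t1 t2
    linarith
  obtain ⟨σ, hσ0, hσ, _⟩ := ratio_st h0 h4 S.inf (S.le _) (S.le _)
  refine ⟨σ, hσ0, hσ, ?_⟩
  have s1 : IsSt ((α : ℝ*) / X (m + 4)) 0 := (Fn.const α).div_inf (coe_nonneg.2 S.hα) I4
  have s2 : IsSt (X (m + 1) / X (m + 4)) 0 := F1.div_inf (S.nn _) I4
  have s3 : IsSt (X (m + 2) / X (m + 4)) 0 := F2.div_inf (S.nn _) I4
  have s4 : IsSt (X (m + 3) / X (m + 4)) 0 := F3.div_inf (S.nn _) I4
  have e : X m / X (m + 4) * (A + B₂ * X (m + 2) + B₃ * X (m + 3)) =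
      α / X (m + 4) + β₁ * (X (m + 1) / X (m + 4)) + β₂ * (X (m + 2) / X (m + 4)) +
        β₃ * (X (m + 3) / X (m + 4)) + β₄ := by
    have := S.eq m
    field_simp
    linarith
  have t1 := St.mul hσ (St.add (St.add (St.const A) (St.cmul B₂ hq)) (St.cmul B₃ hp))
  have t2 := St.add (St.add (St.add (St.add s1 (St.cmul β₁ s2)) (St.cmul β₂ s3))
    (St.cmul β₃ s4)) (St.const β₄)
  rw [e] at t1
  have := St.unique t1 t2
  have e2 : B₃ / B₂ * (β₁ * ρ + β₂) = B₃ * p := by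
    rw [← hpe]; field_simp
  rw [e2]
  linarith

/-- the value `q` -/
lemma SysE.midq (S : SysE A α β₁ β₂ β₃ β₄ B₂ B₃ X) {m : ℕ} (F0 : Fn (X m)) (F1 : Fn (X (m + 1)))
    (h2 : Lg (X 0) (X (m + 2))) (h3 : Lg (X 0) (X (m + 3))) {ρ : ℝ}
    (hρ : IsSt (X (m + 2) / X (m + 3)) ρ) :
    ∃ q : ℝ, 0 ≤ q ∧ IsSt (X m) q ∧ q * (B₂ * ρ + B₃) = β₂ * ρ + β₃ := by
  have I3 := h3.inf S.inf
  have p3 := I3.pos
  have F4 : Fn (X (m + 4)) := S.fin2 h2
  obtain ⟨q, hq0, hq⟩ := F0.st (S.nn _)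
  refine ⟨q, hq0, hq, ?_⟩
  have s0 : IsSt ((A : ℝ*) / X (m + 3)) 0 := (Fn.const A).div_inf (coe_nonneg.2 S.hA) I3
  have s1 : IsSt ((α : ℝ*) / X (m + 3)) 0 := (Fn.const α).div_inf (coe_nonneg.2 S.hα) I3
  have s2 : IsSt (X (m + 1) / X (m + 3)) 0 := F1.div_inf (S.nn _) I3
  have s4 : IsSt (X (m + 4) / X (m + 3)) 0 := F4.div_inf (S.nn _) I3
  have e : X m * (A / X (m + 3) + B₂ * (X (m + 2) / X (m + 3)) + B₃) =
      α / X (m + 3) + β₁ * (X (m + 1) / X (m + 3)) + β₂ * (X (m + 2) / X (m + 3)) + β₃ +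
        β₄ * (X (m + 4) / X (m + 3)) := by
    have := S.eq m
    field_simp
    linarith
  have t1 := St.mul hq (St.add (St.add s0 (St.cmul B₂ hρ)) (St.const B₃))
  have t2 := St.add (St.add (St.add (St.add s1 (St.cmul β₁ s2)) (St.cmul β₂ hρ)) (St.const β₃))
    (St.cmul β₄ s4)
  rw [e] at t1
  have := St.unique t1 t2
  linarith

/-- data of one period -/
lemma SysE.per (S : SysE A α β₁ β₂ β₃ β₄ B₂ B₃ X) {j : ℕ} (h0 : Lg (X 0) (X j))
    (h1 : Lg (X 0) (X (j + 1))) : ∃ ρ ρ₁ q : ℝ, 0 < ρ ∧ 0 < ρ₁ ∧ 0 ≤ q ∧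
      IsSt (X j / X (j + 1)) ρ ∧ IsSt (X (j + 5) / X (j + 6)) ρ₁ ∧ IsSt (X (j + 3)) q ∧
      ρ * (A + B₃ * q + B₂ / B₃ * (β₄ / ρ₁ + β₃)) = β₁ := by
  obtain ⟨h5, h6⟩ := S.pat h0 h1
  have F2 : Fn (X (j + 2)) := S.fin2 h0
  have F3 : Fn (X (j + 3)) := S.fin3 h0
  have F4 : Fn (X (j + 4)) := S.fin3 h1
  have I1 := h1.inf S.inf
  have I5 := h5.inf S.inf
  have p1 := I1.pos
  have p5 := I5.pos
  have hB2 := S.hB2
  have hB3 := S.hB3
  obtain ⟨ρ, hρ0, hρ, _⟩ := ratio_st h0 h1 S.inf (S.le _) (S.le _)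
  obtain ⟨ρ₁, hρ1, hρ1s, hρ1i⟩ := ratio_st h5 h6 S.inf (S.le _) (S.le _)
  obtain ⟨r, hr0, hr⟩ := F2.st (S.nn _)
  obtain ⟨q, hq0, hq, _⟩ := S.midq (m := j + 3) F3 F4 h5 h6 hρ1s
  -- `r`
  have hre : B₃ * r = β₃ + β₄ / ρ₁ := by
    have s0 : IsSt ((A : ℝ*) / X (j + 5)) 0 := (Fn.const A).div_inf (coe_nonneg.2 S.hA) I5
    have s1 : IsSt ((α : ℝ*) / X (j + 5)) 0 := (Fn.const α).div_inf (coe_nonneg.2 S.hα) I5
    have s3 : IsSt (X (j + 3) / X (j + 5)) 0 := F3.div_inf (S.nn _) I5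
    have s4 : IsSt (X (j + 4) / X (j + 5)) 0 := F4.div_inf (S.nn _) I5
    have e : X (j + 2) * (A / X (j + 5) + B₂ * (X (j + 4) / X (j + 5)) + B₃) =
        α / X (j + 5) + β₁ * (X (j + 3) / X (j + 5)) + β₂ * (X (j + 4) / X (j + 5)) + β₃ +
          β₄ * (X (j + 6) / X (j + 5)) := by
      have := S.eq (j + 2)
      have e1 : j + 2 + 1 = j + 3 := by ring
      have e2 : j + 2 + 2 = j + 4 := by ring
      have e3 : j + 2 + 3 = j + 5 := by ring
      have e4 : j + 2 + 4 = j + 6 := by ring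
      rw [e1, e2, e3, e4] at this
      field_simp
      linarith
    have t1 := St.mul hr (St.add (St.add s0 (St.cmul B₂ s4)) (St.const B₃))
    have t2 := St.add (St.add (St.add (St.add s1 (St.cmul β₁ s3)) (St.cmul β₂ s4))
      (St.const β₃)) (St.cmul β₄ hρ1i)
    rw [e] at t1
    have := St.unique t1 t2
    have e5 : β₄ / ρ₁ = β₄ * (1 / ρ₁) := by ring
    rw [e5]
    linarith
  refine ⟨ρ, ρ₁, q, hρ0, hρ1, hq0, hρ, hρ1s, hq, ?_⟩
  have s1 : IsSt ((α : ℝ*) / X (j + 1)) 0 := (Fn.const α).div_inf (coe_nonneg.2 S.hα) I1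
  have s2 : IsSt (X (j + 2) / X (j + 1)) 0 := F2.div_inf (S.nn _) I1
  have s3 : IsSt (X (j + 3) / X (j + 1)) 0 := F3.div_inf (S.nn _) I1
  have s4 : IsSt (X (j + 4) / X (j + 1)) 0 := F4.div_inf (S.nn _) I1
  have e : X j / X (j + 1) * (A + B₂ * X (j + 2) + B₃ * X (j + 3)) =
      α / X (j + 1) + β₁ + β₂ * (X (j + 2) / X (j + 1)) + β₃ * (X (j + 3) / X (j + 1)) +
        β₄ * (X (j + 4) / X (j + 1)) := by
    have := S.eq j
    field_simp
    linarith
  have t1 := St.mul hρ (St.add (St.add (St.const A) (St.cmul B₂ hr)) (St.cmul B₃ hq))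
  have t2 := St.add (St.add (St.add (St.add s1 (St.const β₁)) (St.cmul β₂ s2))
    (St.cmul β₃ s3)) (St.cmul β₄ s4)
  rw [e] at t1
  have := St.unique t1 t2
  have e2 : B₂ / B₃ * (β₄ / ρ₁ + β₃) = B₂ * r := by
    rw [add_comm (β₄ / ρ₁), ← hre]; field_simp
  rw [e2]
  linarith

theorem SysE.false (S : SysE A α β₁ β₂ β₃ β₄ B₂ B₃ X) : False := by
  obtain ⟨c0, hc0, hlow⟩ := S.low
  have b1 : (0 : ℝ*) < β₁ := coe_pos.2 S.h1
  have b2 : (0 : ℝ*) ≤ β₂ := coe_nonneg.2 S.h2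
  have b3 : (0 : ℝ*) ≤ β₃ := coe_nonneg.2 S.h3
  have b4 : (0 : ℝ*) < β₄ := coe_pos.2 S.h4
  have k6 : (0 : ℝ*) ≤ α := coe_nonneg.2 S.hα
  have g1 := S.h1
  have g4 := S.h4
  have hB2 := S.hB2
  have hB3 := S.hB3
  have hcc : B₃ / B₂ * (B₂ / B₃) = 1 := by field_simp
  have F2 : Fn (X 2) := S.fin2 (Lg.refl (X 0))
  have F3 : Fn (X 3) := S.fin3 (Lg.refl (X 0))
  have prop : ∀ j, Lg (X 0) (X j) → Lg (X 0) (X (j + 1)) → ∀ i : ℕ,
      Lg (X 0) (X (j + 5 * i)) ∧ Lg (X 0) (X (j + 5 * i + 1)) := by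
    intro j h0 h1 i
    induction i with
    | zero => exact ⟨h0, h1⟩
    | succ i ih =>
      have := S.pat ih.1 ih.2
      have e1 : j + 5 * (i + 1) = j + 5 * i + 5 := by ring
      rw [e1]
      exact this
  have altI : Lg (X 0) (X 1) → False := by
    intro h
    obtain ⟨ρ, ρ₁, q, hρ, hρ1, hq, sρ, sρ1, sq, hr⟩ := S.per (j := 0) (Lg.refl _) h
    obtain ⟨h5, h6⟩ := S.pat (j := 0) (Lg.refl _) h
    simp only [zero_add] at sρ sρ1 h5 h6 sq
    obtain ⟨σ, hσ0, hσ, hσe⟩ := S.sig (m := 1) h F2 h5 h6 sρ1 sq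
    have I1 := (h.inf S.inf).pos
    have I5 := (h5.inf S.inf).pos
    have t := St.mul sρ hσ
    have e : X 0 / X 1 * (X 1 / X (1 + 4)) = X 0 / X 5 := by
      have e4 : 1 + 4 = 5 := rfl
      rw [e4]
      field_simp
    rw [e] at t
    have hge : (1 : ℝ*) ≤ X 0 / X 5 := (one_le_div I5).2 (S.le 5)
    have h1 := St.le (St.const 1) t (by rw [coe_one]; exact hge)
    refine alt_one (e₁ := β₂) (e₂ := β₃) S.hA g1 g4 (div_pos hB3 hB2) (div_pos hB2 hB3) hcc S.h2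
      S.h3 hρ1 (mul_nonneg hB2.le hq) (mul_nonneg hB3.le hq)
      (by have := S.hpos; have := S.h2; linarith) hr hσe hσ0 h1
  have altII : Lg (X 0) (X 4) → False := by
    intro h4
    have F6 : Fn (X 6) := S.fin2 h4
    have h5 : Lg (X 0) (X 5) := S.next (m := 3) h4 F3 F6
    have hp := prop 4 h4 (by simpa using h5)
    have hper := fun i => S.per (hp i).1 (hp i).2
    choose ρ ρ₁ q hρ hρ1 hq0 sρ sρ1 sq hr using hper
    have hρe : ∀ i, ρ₁ i = ρ (i + 1) := by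
      intro i
      have h1 := sρ1 i
      have h2 := sρ (i + 1)
      have e1 : 4 + 5 * (i + 1) = 4 + 5 * i + 5 := by ring
      have e2 : 4 + 5 * (i + 1) + 1 = 4 + 5 * i + 6 := by ring
      rw [e2, e1] at h2
      exact St.unique h1 h2
    have F1 : Fn (X 1) := by
      have hAs : (0 : ℝ*) ≤ A := coe_nonneg.2 S.hA
      obtain ⟨K, hK, hKle⟩ := h4.le
      refine Fn.of_mul (S.nn _) (h4.inf S.inf) hB3 (a := α) (β := 0)
        (K := β₁ * K + β₂ * K + β₃ + β₄ * K) ?_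
      have e := S.eq 1
      simp only [Nat.reduceAdd] at e
      have m1 := mul_le_mul_of_nonneg_left ((S.le 2).trans hKle) b1.le
      have m2 := mul_le_mul_of_nonneg_left ((S.le 3).trans hKle) b2
      have m4 := mul_le_mul_of_nonneg_left ((S.le 5).trans hKle) b4.le
      have m5 := mul_nonneg (S.nn 1) hAs
      have m6 := mul_nonneg (S.nn 1) (mul_nonneg (coe_pos.2 hB2).le (S.nn 3))
      rw [coe_add, coe_add, coe_add, coe_mul, coe_mul, coe_mul, coe_zero]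
      nlinarith
    have I4 := (h4.inf S.inf).pos
    have I5 := (h5.inf S.inf).pos
    obtain ⟨q', hq'0, hq', _⟩ := S.midq (m := 2) F2 F3 h4 h5 (ρ := ρ 0) (by simpa using sρ 0)
    obtain ⟨σ, hσ0, hσs, hσe⟩ := S.sig (m := 0) (ρ := ρ 0) (q := q') (Lg.refl _) F1
      (by simpa using h4) (by simpa using h5) (by simpa using sρ 0) (by simpa using hq')
    have t := St.mul hσs (sρ 0)
    have e : X 0 / X (0 + 4) * (X (4 + 5 * 0) / X (4 + 5 * 0 + 1)) = X 0 / X 5 := by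
      simp only [zero_add, mul_zero, add_zero, Nat.reduceAdd]
      field_simp
    rw [e] at t
    have hge : (1 : ℝ*) ≤ X 0 / X 5 := (one_le_div I5).2 (S.le 5)
    have h1 := St.le (St.const 1) t (by rw [coe_one]; exact hge)
    have hδ : 0 < A + B₂ / B₃ * β₃ := by
      rcases S.hA.lt_or_eq with h | h
      · have := mul_nonneg (div_pos hB2 hB3).le S.h3
        linarith
      · have : 0 < β₃ := by have := S.hpos; linarith
        have := mul_pos (div_pos hB2 hB3) this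
        linarith [S.hA]
    -- positivity of the middle value
    have hmid : 0 < A + B₂ * q' + B₃ / B₂ * β₂ := by
      have q1 : 0 ≤ B₂ * q' := mul_nonneg hB2.le hq'0
      have q2 : 0 ≤ B₃ / B₂ * β₂ := mul_nonneg (div_pos hB3 hB2).le S.h2
      rcases S.hA.lt_or_eq with h | h
      · linarith
      · have h3 : 0 < β₃ := by have := S.hpos; linarith
        have : 0 < q' := by
          rcases hq'0.lt_or_eq with hh | hh
          · exact hh
          · exfalso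
            rename_i hqe
            rw [← hh, zero_mul] at hqe
            have := mul_nonneg S.h2 (hρ 0).le
            linarith
        have : 0 < B₂ * q' := by positivity
        linarith
    refine alt_two (ρ := ρ) (m' := fun k => B₃ * q k) (m := B₂ * q') (e₂ := β₃) S.hA g1 g4
      (div_pos hB3 hB2) (div_pos hB2 hB3) hcc S.h2 S.h3 hρ (mul_nonneg hB2.le hq'0)
      (fun k => mul_nonneg hB3.le (hq0 k)) ?_ hσe h1 hmid ?_
    · intro k
      have := hr k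
      rw [hρe k] at this
      exact this
    · intro _
      refine ⟨A + B₂ / B₃ * β₃, hδ, fun k => ?_⟩
      have := mul_nonneg hB3.le (hq0 k)
      linarith
  -- the alternatives
  obtain ⟨r2, hr2⟩ := F2
  obtain ⟨r3, hr3⟩ := F3
  have e := S.eq 0
  have hw := mul_le_mul_of_nonneg_left (hlow 0) (S.nn 0)
  simp only [zero_add] at e hw
  have m2 := mul_le_mul_of_nonneg_left hr2 b2
  have m3 := mul_le_mul_of_nonneg_left hr3 b3
  have two : ((2 : ℝ) : ℝ*) = 2 := rfl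
  rcases le_total (β₁ * X 1) (β₄ * X 4) with h | h
  · refine altII ((Lg.refl (X 0)).prop S.inf hc0 (K := 2 * β₄) (by positivity)
        (r := α + β₂ * r2 + β₃ * r3) ?_)
    rw [coe_add, coe_add, coe_mul, coe_mul, coe_mul, two]
    linarith
  · refine altI ((Lg.refl (X 0)).prop S.inf hc0 (K := 2 * β₁) (by positivity)
        (r := α + β₂ * r2 + β₃ * r3) ?_)
    rw [coe_add, coe_add, coe_mul, coe_mul, coe_mul, two]
    linarith

end

/-- `([α +] β₁ x_{n-1} [+ β₂ x_{n-2}] [+ β₃ x_{n-3}] + β₄ x_{n-4}) /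
([A +] B₂ x_{n-2} + B₃ x_{n-3})` -/
theorem bdd_neutE (P Q : ℕ) (h1 : P.testBit 1 = true) (h4 : P.testBit 4 = true)
    (k2 : Q.testBit 2 = true) (k3 : Q.testBit 3 = true)
    (k1 : Q.testBit 1 = false) (k4 : Q.testBit 4 = false)
    (hor : Q.testBit 0 = true ∨ (P.testBit 2 = true ∧ P.testBit 3 = true)) : BddM P Q := by
  intro b c hb hc x hx
  by_contra hu
  obtain ⟨X, hX⟩ := star_of_unbounded hx hu
  have hlc : ∀ m, linS c X m = c 0 + c 2 * X (m + 2) + c 3 * X (m + 3) := by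
    intro m
    unfold linS
    rw [hc.zero (by norm_num) k1, hc.zero (by norm_num) k4, coe_zero]
    ring
  have heq : ∀ m, X m * (c 0 + c 2 * X (m + 2) + c 3 * X (m + 3)) =
      b 0 + b 1 * X (m + 1) + b 2 * X (m + 2) + b 3 * X (m + 3) + b 4 * X (m + 4) := by
    intro m
    rw [← hlc]
    exact hX.eq m
  have n2 : (0 : ℝ*) < c 2 := coe_pos.2 (hc.pos (by norm_num) k2)
  have n3 : (0 : ℝ*) < c 3 := coe_pos.2 (hc.pos (by norm_num) k3)
  have S : SysE (c 0) (b 0) (b 1) (b 2) (b 3) (b 4) (c 2) (c 3) X := by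
    refine ⟨hc.nonneg (by norm_num), hb.nonneg (by norm_num), hb.pos (by norm_num) h1,
      hb.nonneg (by norm_num), hb.nonneg (by norm_num), hb.pos (by norm_num) h4,
      hc.pos (by norm_num) k2, hc.pos (by norm_num) k3, ?_, hX.nonneg, hX.le, hX.inf, ?_, heq⟩
    · have g0 := hc.nonneg (i := 0) (by norm_num)
      have g3 := hb.nonneg (i := 3) (by norm_num)
      rcases hor with h | ⟨_, h⟩
      · have := hc.pos (i := 0) (by norm_num) h
        linarith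
      · have := hb.pos (i := 3) (by norm_num) h
        linarith
    · rcases hor with h | ⟨h, h'⟩
      · refine ⟨c 0, hc.pos (by norm_num) h, fun m => ?_⟩
        have := mul_nonneg n2.le (hX.nonneg (m + 2))
        have := mul_nonneg n3.le (hX.nonneg (m + 3))
        linarith
      · have g2 := hb.pos (i := 2) (by norm_num) h
        have g3 := hb.pos (i := 3) (by norm_num) h'
        have c2 := hc.pos (i := 2) (by norm_num) k2
        have c3 := hc.pos (i := 3) (by norm_num) k3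
        rcases (hc.nonneg (i := 0) (by norm_num)).lt_or_eq with hA | hA
        · refine ⟨c 0, hA, fun m => ?_⟩
          have := mul_nonneg n2.le (hX.nonneg (m + 2))
          have := mul_nonneg n3.le (hX.nonneg (m + 3))
          linarith
        · -- every term is at least `μ`
          set μ := min (b 2 / c 2) (b 3 / c 3) with hμ
          have hμ0 : 0 < μ := lt_min (div_pos g2 c2) (div_pos g3 c3)
          have m2 : μ * c 2 ≤ b 2 := by
            have := min_le_left (b 2 / c 2) (b 3 / c 3)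
            rwa [← hμ, le_div_iff₀ c2] at this
          have m3 : μ * c 3 ≤ b 3 := by
            have := min_le_right (b 2 / c 2) (b 3 / c 3)
            rwa [← hμ, le_div_iff₀ c3] at this
          have hge : ∀ m, (μ : ℝ*) ≤ X m := by
            intro m
            have hd := hX.dpos m
            rw [hlc] at hd
            refine le_of_mul_le_mul_right ?_ hd
            rw [heq m, ← hA, coe_zero, zero_add]
            have q2 := mul_le_mul_of_nonneg_right (coe_le_coe.2 m2) (hX.nonneg (m + 2))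
            have q3 := mul_le_mul_of_nonneg_right (coe_le_coe.2 m3) (hX.nonneg (m + 3))
            have z0 : (0 : ℝ*) ≤ b 0 := coe_nonneg.2 (hb.nonneg (by norm_num))
            have z1 := mul_nonneg (coe_nonneg.2 (hb.nonneg (i := 1) (by norm_num)))
              (hX.nonneg (m + 1))
            have z4 := mul_nonneg (coe_nonneg.2 (hb.nonneg (i := 4) (by norm_num)))
              (hX.nonneg (m + 4))
            rw [coe_mul] at q2 q3
            linarith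
          refine ⟨c 2 * μ, by positivity, fun m => ?_⟩
          have q2 := mul_le_mul_of_nonneg_left (hge (m + 2)) n2.le
          have := mul_nonneg n3.le (hX.nonneg (m + 3))
          rw [coe_mul, ← hA, coe_zero]
          linarith
  exact S.false

end Pool.Agent.H299.RDE
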