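import Pool.Agent.H299.RDE.Cert

/-!
# Unbounded solutions given by explicit formulas
-/

namespace Pool.Agent.H299.RDE

/-- `P = {k₀}`, `0 ∈ Q` and no other index in `Q` is a multiple of `k₀`: the solution vanishes
outside one residue class modulo `k₀` and grows geometrically there. -/
theorem unb_zero (k0 Q : ℕ) (h1 : 1 ≤ k0) (h4 : k0 ≤ 4) (hQ0 : Q.testBit 0 = true)
    (hQ : ∀ j, 1 ≤ j → j ≤ 4 → Q.testBit j = true → ¬ k0 ∣ j) : UnbM (2 ^ k0) Q := by
  set b : ℕ → ℝ := fun i => if i = k0 then 2 else 0 with hb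
  set c : ℕ → ℝ := fun i => if Q.testBit i then 1 else 0 with hc
  set x : ℕ → ℝ := fun n => if k0 ∣ n then 2 ^ (n / k0) else 0 with hx
  have hx0 : ∀ n, 0 ≤ x n := by
    intro n
    simp only [hx]
    split_ifs <;> positivity
  have hxz : ∀ n, ¬ k0 ∣ n → x n = 0 := fun n h => by simp only [hx, h, if_false]
  have hnum : ∀ n, lin4 b x n = 2 * x (n + 4 - k0) := by
    intro n
    unfold lin4
    simp only [hb]
    interval_cases k0 <;> simp
  have hc0 : c 0 = 1 := by simp only [hc, hQ0, if_true]
  have hcj : ∀ n j, 1 ≤ j → j ≤ 4 → k0 ∣ n + 4 → c j * x (n + 4 - j) = 0 := by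
    intro n j hj1 hj4 hd
    by_cases hj : Q.testBit j = true
    · have hnd := hQ j hj1 hj4 hj
      rw [hxz, mul_zero]
      intro hd2
      apply hnd
      have : n + 4 = (n + 4 - j) + j := by omega
      rw [this] at hd
      exact (Nat.dvd_add_right hd2).1 hd
    · simp [hc, hj]
  have hcn : ∀ j, 0 ≤ c j := by
    intro j
    simp only [hc]
    split_ifs <;> norm_num
  have hdpos : ∀ n, 0 < lin4 c x n := by
    intro n
    unfold lin4
    rw [hc0]
    have := mul_nonneg (hcn 1) (hx0 (n + 3))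
    have := mul_nonneg (hcn 2) (hx0 (n + 2))
    have := mul_nonneg (hcn 3) (hx0 (n + 1))
    have := mul_nonneg (hcn 4) (hx0 n)
    linarith
  refine ⟨b, c, x, ?_, ?_, ⟨hx0, hdpos, ?_⟩, ?_⟩
  · intro i _
    constructor
    · intro h
      have : i = k0 := by
        rw [Nat.testBit_two_pow] at h
        simpa using (of_decide_eq_true h).symm
      simp [hb, this]
    · intro h
      have : i ≠ k0 := by
        rintro rfl
        rw [Nat.testBit_two_pow_self] at h
        exact absurd h (by decide)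
      simp [hb, this]
  · intro i _
    constructor
    · intro h
      simp [hc, h]
    · intro h
      simp [hc, h]
  · intro n
    rw [hnum]
    by_cases hd : k0 ∣ n + 4
    · have hden : lin4 c x n = 1 := by
        unfold lin4
        rw [hc0]
        have e1 := hcj n 1 (by norm_num) (by norm_num) hd
        have e2 := hcj n 2 (by norm_num) (by norm_num) hd
        have e3 := hcj n 3 (by norm_num) (by norm_num) hd
        have e4 := hcj n 4 (by norm_num) (by norm_num) hd
        simp only [Nat.reduceSubDiff, Nat.add_sub_cancel] at e1 e2 e3 e4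
        linarith
      rw [hden, div_one]
      obtain ⟨m, hm⟩ := hd
      have hm1 : 1 ≤ m := by
        rcases Nat.eq_zero_or_pos m with h | h
        · subst h; omega
        · exact h
      have e : n + 4 - k0 = k0 * (m - 1) := by
        rw [hm, Nat.mul_sub, mul_one]
      rw [e, hm]
      simp only [hx, dvd_mul_right, if_true]
      rw [Nat.mul_div_cancel_left _ (by omega), Nat.mul_div_cancel_left _ (by omega)]
      obtain ⟨m', rfl⟩ := Nat.exists_eq_add_of_le' hm1
      simp only [Nat.add_sub_cancel, pow_succ]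
      ring
    · rw [hxz _ hd, hxz (n + 4 - k0), mul_zero, zero_div]
      intro hd2
      apply hd
      have : n + 4 = (n + 4 - k0) + k0 := by omega
      rw [this]
      exact (Nat.dvd_add_right hd2).2 (dvd_refl _)
  · intro M
    obtain ⟨m, hm⟩ := pow_unbounded_of_one_lt M (by norm_num : (1 : ℝ) < 2)
    refine ⟨k0 * m, ?_⟩
    simp only [hx, dvd_mul_right, if_true]
    rw [Nat.mul_div_cancel_left _ (by omega)]
    exact hm

/-- The special case with numerator `β x_{n-4}` and denominator `B x_{n-1}`. -/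
theorem unb_four_one : UnbM 16 2 := by
  obtain ⟨r, hr, hr0⟩ : ∃ r ∈ Set.Icc (-2 : ℝ) (-1), r ^ 4 + r ^ 3 - 1 = 0 := by
    have hcont : ContinuousOn (fun r : ℝ => r ^ 4 + r ^ 3 - 1) (Set.Icc (-2) (-1)) := by
      fun_prop
    have := intermediate_value_Icc' (by norm_num : (-2 : ℝ) ≤ -1) hcont
    have h0 : (0 : ℝ) ∈ Set.Icc ((-1 : ℝ) ^ 4 + (-1) ^ 3 - 1) ((-2) ^ 4 + (-2) ^ 3 - 1) := by
      constructor <;> norm_num
    obtain ⟨r, hr, h⟩ := this h0
    exact ⟨r, hr, h⟩
  have hr1 : 1 < r ^ 2 := by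
    have h1 := hr.2
    rcases lt_or_eq_of_le h1 with h | h
    · nlinarith
    · rw [h] at hr0
      norm_num at hr0
  set x : ℕ → ℝ := fun n => Real.exp (r ^ n) with hx
  refine ⟨fun i => if i = 4 then 1 else 0, fun i => if i = 1 then 1 else 0, x, ?_, ?_,
    ⟨fun n => (Real.exp_pos _).le, ?_, ?_⟩, ?_⟩
  · intro i hi
    interval_cases i <;> simp <;> decide
  · intro i hi
    interval_cases i <;> simp <;> decide
  · intro n
    simp only [lin4]
    norm_num
    exact Real.exp_pos _
  · intro n
    simp only [lin4]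
    norm_num
    rw [← Real.exp_sub]
    change Real.exp (r ^ (n + 4)) = _
    congr 1
    have : r ^ (n + 4) + r ^ (n + 3) - r ^ n = r ^ n * (r ^ 4 + r ^ 3 - 1) := by ring
    rw [hr0, mul_zero] at this
    linarith
  · intro M
    obtain ⟨m, hm⟩ := pow_unbounded_of_one_lt M hr1
    refine ⟨2 * m, ?_⟩
    simp only [hx]
    rw [pow_mul]
    have := Real.add_one_le_exp ((r ^ 2) ^ m)
    linarith

/-- The special case with numerator `β₃ x_{n-3} + β₄ x_{n-4}` and denominator `B x_{n-1}`. -/
theorem unb_threefour_one : UnbM 24 2 := by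
  set b : ℕ → ℝ := fun i => if i = 3 then 1 else if i = 4 then 4 else 0 with hb
  set c : ℕ → ℝ := fun i => if i = 1 then 1 else 0 with hc
  have hbs : Supp 24 b := by
    intro i hi
    interval_cases i <;> simp [hb] <;> decide
  have hcs : Supp 2 c := by
    intro i hi
    interval_cases i <;> simp [hc] <;> decide
  have hP : ∃ i, i ≤ 4 ∧ Nat.testBit 24 i = true := ⟨3, by norm_num, by decide⟩
  have hQ : ∃ i, i ≤ 4 ∧ Nat.testBit 2 i = true := ⟨1, by norm_num, by decide⟩
  set x := orb b c (4, 1, 8, 1) with hx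
  have hsol : PSol b c x := orb_psol hbs hcs hP hQ (by norm_num) (by norm_num) (by norm_num)
    (by norm_num)
  have hrec : ∀ n, x (n + 4) * x (n + 3) = x (n + 1) + 4 * x n := by
    intro n
    have := hsol.eq n
    have hp := hsol.pos (n + 3)
    simp only [lin4, hb, hc] at this
    norm_num at this
    rw [this]
    field_simp
  have key : ∀ k : ℕ, 4 * 2 ^ k ≤ x (2 * k) ∧ 2 * x (2 * k) ≤ x (2 * k + 2) ∧
      x (2 * k + 1) ≤ 1 ∧ x (2 * k + 3) * x (2 * k + 2) ≤ 2 * x (2 * k) := by
    intro k
    induction k with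
    | zero =>
      have e0 : x 0 = 4 := rfl
      have e1 : x 1 = 1 := rfl
      have e2 : x 2 = 8 := rfl
      have e3 : x 3 = 1 := rfl
      simp only [mul_zero, zero_add]
      rw [e0, e1, e2, e3]
      norm_num
    | succ k ih =>
      obtain ⟨h1, h2, h3, h4⟩ := ih
      have e0 : 2 * (k + 1) = 2 * k + 2 := by ring
      have p0 := hsol.pos (2 * k)
      have p1 := hsol.pos (2 * k + 1)
      have p2 := hsol.pos (2 * k + 2)
      have p3 := hsol.pos (2 * k + 3)
      have p4 := hsol.pos (2 * k + 4)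
      have p5 := hsol.pos (2 * k + 5)
      have r0 := hrec (2 * k)
      have r1 := hrec (2 * k + 1)
      have hpow : (1 : ℝ) ≤ 2 ^ k := one_le_pow₀ (by norm_num)
      rw [e0]
      have g1 : 4 * 2 ^ (k + 1) ≤ x (2 * k + 2) := by rw [pow_succ]; linarith
      have g2 : 2 * x (2 * k + 2) ≤ x (2 * k + 2 + 2) := by
        have e : 2 * k + 2 + 2 = 2 * k + 4 := by ring
        rw [e]
        -- x4 * x3 ≥ 4 x0, x3 * x2 ≤ 2 x0
        have : 2 * x (2 * k + 2) * x (2 * k + 3) ≤ x (2 * k + 4) * x (2 * k + 3) := by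
          rw [r0]
          nlinarith
        exact le_of_mul_le_mul_right this p3
      have g3 : x (2 * k + 2 + 1) ≤ 1 := by
        have e : 2 * k + 2 + 1 = 2 * k + 3 := by ring
        rw [e]
        have : x (2 * k + 3) * x (2 * k + 2) ≤ 1 * x (2 * k + 2) := by linarith
        exact le_of_mul_le_mul_right this p2
      have g4 : x (2 * k + 2 + 3) * x (2 * k + 2 + 2) ≤ 2 * x (2 * k + 2) := by
        have e5 : 2 * k + 2 + 3 = 2 * k + 1 + 4 := by ring
        have e4 : 2 * k + 2 + 2 = 2 * k + 1 + 3 := by ring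
        rw [e5, e4, r1]
        have e2' : 2 * k + 1 + 1 = 2 * k + 2 := by ring
        rw [e2']
        linarith
      exact ⟨g1, g2, g3, g4⟩
  refine ⟨b, c, x, hbs, hcs, hsol.nsol hcs hQ, ?_⟩
  intro M
  obtain ⟨m, hm⟩ := pow_unbounded_of_one_lt M (by norm_num : (1 : ℝ) < 2)
  refine ⟨2 * m, ?_⟩
  have := (key m).1
  have hpow : (0 : ℝ) < 2 ^ m := by positivity
  linarith

end Pool.Agent.H299.RDE
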