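import Pool.Agent.H299.RDE.Table
import Pool.Agent.H299.RDE.Link
import Pool.Agent.H299.RDE.Lyness
import Pool.Agent.H299.RDE.Special
import Pool.Agent.H299.RDE.Lib
import Pool.Agent.H299.RDE.NeutC
import Pool.Agent.H299.RDE.NeutE
import Pool.Agent.H299.RDE.B.B00
import Pool.Agent.H299.RDE.B.B01
import Pool.Agent.H299.RDE.B.B02
import Pool.Agent.H299.RDE.B.B03
import Pool.Agent.H299.RDE.B.B04
import Pool.Agent.H299.RDE.B.B05
import Pool.Agent.H299.RDE.B.B06
import Pool.Agent.H299.RDE.B.B07
import Pool.Agent.H299.RDE.B.B08
import Pool.Agent.H299.RDE.B.B09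
import Pool.Agent.H299.RDE.B.B10
import Pool.Agent.H299.RDE.B.B11
import Pool.Agent.H299.RDE.B.B12
import Pool.Agent.H299.RDE.U.U00
import Pool.Agent.H299.RDE.U.U01
import Pool.Agent.H299.RDE.U.U02
import Pool.Agent.H299.RDE.U.U03
import Pool.Agent.H299.RDE.U.U04
import Pool.Agent.H299.RDE.U.U05
import Pool.Agent.H299.RDE.U.U06
import Pool.Agent.H299.RDE.U.U07
import Pool.Agent.H299.RDE.U.U08
import Pool.Agent.H299.RDE.U.U09
import Pool.Agent.H299.RDE.U.U10
import Pool.Agent.H299.RDE.U.U11

/-!
# The classification: all cases together
-/

set_option maxRecDepth 100000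

namespace Pool.Agent.H299.RDE

/-- the special cases shown to be bounded without a certificate -/
def bddSpecial : List (ℕ × ℕ) :=
  [(1, 2), (1, 4), (1, 6), (1, 8), (1, 10), (1, 12), (1, 14), (1, 16), (1, 18), (1, 20), (1, 22), (1, 24), (1, 26), (1, 28), (1, 30), (2, 4), (3, 4), (4, 16), (5, 16), (9, 3), (10, 2), (10, 3), (11, 2), (11, 3), (9, 5), (12, 4), (12, 5), (13, 4), (13, 5), (10, 5), (11, 5), (14, 4), (14, 5), (15, 4), (15, 5), (9, 17), (9, 19), (17, 7), (17, 13), (24, 16), (24, 17), (25, 16), (25, 17), (12, 19), (13, 19), (14, 19), (15, 19), (28, 19), (29, 19), (30, 19), (31, 19), (30, 18), (31, 18), (18, 13), (19, 13), (22, 13), (23, 13), (26, 13), (27, 13), (30, 13), (31, 13), (30, 12), (31, 12)]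

theorem bddSpecial_ok : ∀ p ∈ bddSpecial, BddM p.1 p.2 := by
  intro p hp
  simp only [bddSpecial, List.mem_cons, List.not_mem_nil, or_false] at hp
  rcases hp with rfl | rfl | rfl | rfl | rfl | rfl | rfl | rfl | rfl | rfl | rfl | rfl | rfl | rfl | rfl | rfl | rfl | rfl | rfl | rfl | rfl | rfl | rfl | rfl | rfl | rfl | rfl | rfl | rfl | rfl | rfl | rfl | rfl | rfl | rfl | rfl | rfl | rfl | rfl | rfl | rfl | rfl | rfl | rfl | rfl | rfl | rfl | rfl | rfl | rfl | rfl | rfl | rfl | rfl | rfl | rfl | rfl | rfl | rfl | rfl | rfl | rfl | rfl
  · exact bdd_const 2 (by decide) ⟨1, by decide, by decide⟩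
  · exact bdd_const 4 (by decide) ⟨2, by decide, by decide⟩
  · exact bdd_const 6 (by decide) ⟨1, by decide, by decide⟩
  · exact bdd_const 8 (by decide) ⟨3, by decide, by decide⟩
  · exact bdd_const 10 (by decide) ⟨1, by decide, by decide⟩
  · exact bdd_const 12 (by decide) ⟨2, by decide, by decide⟩
  · exact bdd_const 14 (by decide) ⟨1, by decide, by decide⟩
  · exact bdd_const 16 (by decide) ⟨4, by decide, by decide⟩
  · exact bdd_const 18 (by decide) ⟨1, by decide, by decide⟩
  · exact bdd_const 20 (by decide) ⟨2, by decide, by decide⟩
  · exact bdd_const 22 (by decide) ⟨1, by decide, by decide⟩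
  · exact bdd_const 24 (by decide) ⟨3, by decide, by decide⟩
  · exact bdd_const 26 (by decide) ⟨1, by decide, by decide⟩
  · exact bdd_const 28 (by decide) ⟨2, by decide, by decide⟩
  · exact bdd_const 30 (by decide) ⟨1, by decide, by decide⟩
  · exact bdd_lyness1 2 (by decide)
  · exact bdd_lyness1 3 (by decide)
  · exact bdd_lyness2 4 (by decide)
  · exact bdd_lyness2 5 (by decide)
  · exact bdd_neutA1 9 3 (by decide) (by decide) (by decide) (by decide) (by decide) (by decide)
      (by decide) (by decide)
  · exact bdd_neutA1 10 2 (by decide) (by decide) (by decide) (by decide) (by decide) (by decide)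
      (by decide) (by decide)
  · exact bdd_neutA1 10 3 (by decide) (by decide) (by decide) (by decide) (by decide) (by decide)
      (by decide) (by decide)
  · exact bdd_neutA1 11 2 (by decide) (by decide) (by decide) (by decide) (by decide) (by decide)
      (by decide) (by decide)
  · exact bdd_neutA1 11 3 (by decide) (by decide) (by decide) (by decide) (by decide) (by decide)
      (by decide) (by decide)
  · exact bdd_neutA2 9 5 (by decide) (by decide) (by decide) (by decide) (by decide) (by decide)
      (by decide) (by decide)
  · exact bdd_neutA2 12 4 (by decide) (by decide) (by decide) (by decide) (by decide) (by decide)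
      (by decide) (by decide)
  · exact bdd_neutA2 12 5 (by decide) (by decide) (by decide) (by decide) (by decide) (by decide)
      (by decide) (by decide)
  · exact bdd_neutA2 13 4 (by decide) (by decide) (by decide) (by decide) (by decide) (by decide)
      (by decide) (by decide)
  · exact bdd_neutA2 13 5 (by decide) (by decide) (by decide) (by decide) (by decide) (by decide)
      (by decide) (by decide)
  · exact bdd_neutB 10 5 (by decide) (by decide) (by decide) (by decide) (by decide) (by decide)
      (by decide) (by decide)
  · exact bdd_neutB 11 5 (by decide) (by decide) (by decide) (by decide) (by decide) (by decide)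
      (by decide) (by decide)
  · exact bdd_neutB 14 4 (by decide) (by decide) (by decide) (by decide) (by decide) (by decide)
      (by decide) (by decide)
  · exact bdd_neutB 14 5 (by decide) (by decide) (by decide) (by decide) (by decide) (by decide)
      (by decide) (by decide)
  · exact bdd_neutB 15 4 (by decide) (by decide) (by decide) (by decide) (by decide) (by decide)
      (by decide) (by decide)
  · exact bdd_neutB 15 5 (by decide) (by decide) (by decide) (by decide) (by decide) (by decide)
      (by decide) (by decide)
  · exact bdd_neutC3 17 (by decide) (by decide) (by decide) (by decide)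
  · exact bdd_neutC3 19 (by decide) (by decide) (by decide) (by decide)
  · exact bdd_04_012
  · exact bdd_04_023
  · exact bdd_neutC4 24 16 (by decide) (by decide) (by decide) (by decide) (by decide) (by decide)
      (by decide) (by decide)
  · exact bdd_neutC4 24 17 (by decide) (by decide) (by decide) (by decide) (by decide) (by decide)
      (by decide) (by decide)
  · exact bdd_neutC4 25 16 (by decide) (by decide) (by decide) (by decide) (by decide) (by decide)
      (by decide) (by decide)
  · exact bdd_neutC4 25 17 (by decide) (by decide) (by decide) (by decide) (by decide) (by decide)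
      (by decide) (by decide)
  · exact bdd_neutD 12 19 (by decide) (by decide) (by decide) (by decide) (by decide) (by decide)
      (by decide)
  · exact bdd_neutD 13 19 (by decide) (by decide) (by decide) (by decide) (by decide) (by decide)
      (by decide)
  · exact bdd_neutD 14 19 (by decide) (by decide) (by decide) (by decide) (by decide) (by decide)
      (by decide)
  · exact bdd_neutD 15 19 (by decide) (by decide) (by decide) (by decide) (by decide) (by decide)
      (by decide)
  · exact bdd_neutD 28 19 (by decide) (by decide) (by decide) (by decide) (by decide) (by decide)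
      (by decide)
  · exact bdd_neutD 29 19 (by decide) (by decide) (by decide) (by decide) (by decide) (by decide)
      (by decide)
  · exact bdd_neutD 30 19 (by decide) (by decide) (by decide) (by decide) (by decide) (by decide)
      (by decide)
  · exact bdd_neutD 31 19 (by decide) (by decide) (by decide) (by decide) (by decide) (by decide)
      (by decide)
  · exact bdd_neutD 30 18 (by decide) (by decide) (by decide) (by decide) (by decide) (by decide)
      (by decide)
  · exact bdd_neutD 31 18 (by decide) (by decide) (by decide) (by decide) (by decide) (by decide)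
      (by decide)
  · exact bdd_neutE 18 13 (by decide) (by decide) (by decide) (by decide) (by decide) (by decide)
      (by decide)
  · exact bdd_neutE 19 13 (by decide) (by decide) (by decide) (by decide) (by decide) (by decide)
      (by decide)
  · exact bdd_neutE 22 13 (by decide) (by decide) (by decide) (by decide) (by decide) (by decide)
      (by decide)
  · exact bdd_neutE 23 13 (by decide) (by decide) (by decide) (by decide) (by decide) (by decide)
      (by decide)
  · exact bdd_neutE 26 13 (by decide) (by decide) (by decide) (by decide) (by decide) (by decide)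
      (by decide)
  · exact bdd_neutE 27 13 (by decide) (by decide) (by decide) (by decide) (by decide) (by decide)
      (by decide)
  · exact bdd_neutE 30 13 (by decide) (by decide) (by decide) (by decide) (by decide) (by decide)
      (by decide)
  · exact bdd_neutE 31 13 (by decide) (by decide) (by decide) (by decide) (by decide) (by decide)
      (by decide)
  · exact bdd_neutE 30 12 (by decide) (by decide) (by decide) (by decide) (by decide) (by decide)
      (by decide)
  · exact bdd_neutE 31 12 (by decide) (by decide) (by decide) (by decide) (by decide) (by decide)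
      (by decide)

/-- all special cases shown to have bounded solutions only -/
def bddAll : List (ℕ × ℕ) :=
  B00.cases ++ B01.cases ++ B02.cases ++ B03.cases ++ B04.cases ++ B05.cases ++ B06.cases ++ B07.cases ++ B08.cases ++ B09.cases ++ B10.cases ++ B11.cases ++ B12.cases ++ bddSpecial

theorem bddAll_ok : ∀ p ∈ bddAll, BddM p.1 p.2 := by
  intro p hp
  simp only [bddAll, List.mem_append] at hp
  rcases hp with (((((((((((((hp | hp) | hp) | hp) | hp) | hp) | hp) | hp) | hp) | hp) | hp) | hp) | hp) | hp)
  · exact B00.all p hp
  · exact B01.all p hp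
  · exact B02.all p hp
  · exact B03.all p hp
  · exact B04.all p hp
  · exact B05.all p hp
  · exact B06.all p hp
  · exact B07.all p hp
  · exact B08.all p hp
  · exact B09.all p hp
  · exact B10.all p hp
  · exact B11.all p hp
  · exact B12.all p hp
  · exact bddSpecial_ok p hp

/-- the special cases shown to be unbounded without a certificate -/
def unbSpecial : List (ℕ × ℕ) :=
  [(8, 3), (8, 5), (8, 17), (8, 19), (16, 3), (16, 9), (16, 7), (16, 13), (16, 2), (24, 2), (3, 12), (6, 20)]

theorem unbSpecial_ok : ∀ p ∈ unbSpecial, ¬ BddM p.1 p.2 := by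
  intro p hp
  simp only [unbSpecial, List.mem_cons, List.not_mem_nil, or_false] at hp
  rcases hp with rfl | rfl | rfl | rfl | rfl | rfl | rfl | rfl | rfl | rfl | rfl | rfl
  · exact not_bddM (unb_zero 3 3 (by decide) (by decide) (by decide) (by decide))
  · exact not_bddM (unb_zero 3 5 (by decide) (by decide) (by decide) (by decide))
  · exact not_bddM (unb_zero 3 17 (by decide) (by decide) (by decide) (by decide))
  · exact not_bddM (unb_zero 3 19 (by decide) (by decide) (by decide) (by decide))
  · exact not_bddM (unb_zero 4 3 (by decide) (by decide) (by decide) (by decide))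
  · exact not_bddM (unb_zero 4 9 (by decide) (by decide) (by decide) (by decide))
  · exact not_bddM (unb_zero 4 7 (by decide) (by decide) (by decide) (by decide))
  · exact not_bddM (unb_zero 4 13 (by decide) (by decide) (by decide) (by decide))
  · exact not_bddM unb_four_one
  · exact not_bddM unb_threefour_one
  · exact not_bddM unb_01_23
  · exact not_bdd_12_24

/-- all special cases shown to have an unbounded solution -/
def unbAll : List (ℕ × ℕ) :=
  U00.cases ++ U01.cases ++ U02.cases ++ U03.cases ++ U04.cases ++ U05.cases ++ U06.cases ++ U07.cases ++ U08.cases ++ U09.cases ++ U10.cases ++ U11.cases ++ unbSpecial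

theorem unbAll_ok : ∀ p ∈ unbAll, ¬ BddM p.1 p.2 := by
  intro p hp
  simp only [unbAll, List.mem_append] at hp
  rcases hp with ((((((((((((hp | hp) | hp) | hp) | hp) | hp) | hp) | hp) | hp) | hp) | hp) | hp) | hp)
  · exact not_bddM (U00.all p hp)
  · exact not_bddM (U01.all p hp)
  · exact not_bddM (U02.all p hp)
  · exact not_bddM (U03.all p hp)
  · exact not_bddM (U04.all p hp)
  · exact not_bddM (U05.all p hp)
  · exact not_bddM (U06.all p hp)
  · exact not_bddM (U07.all p hp)
  · exact not_bddM (U08.all p hp)
  · exact not_bddM (U09.all p hp)
  · exact not_bddM (U10.all p hp)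
  · exact not_bddM (U11.all p hp)
  · exact unbSpecial_ok p hp

lemma table_check {t : List ℕ} {d K : ℕ} {L : List (ℕ × ℕ)}
    (h : ((List.range K).all fun m => (List.range K).all fun n =>
      m == 0 || n == 0 || entry t m n != d || L.contains (m, n)) = true) {m n : ℕ} (hm : m < K)
    (hn : n < K) (hm0 : m ≠ 0) (hn0 : n ≠ 0) (he : entry t m n = d) : (m, n) ∈ L := by
  have h1 := List.all_eq_true.1 h m (List.mem_range.2 hm)
  have h2 := List.all_eq_true.1 h1 n (List.mem_range.2 hn)
  simpa [he, hm0, hn0] using h2

theorem table4_bdd {m n : ℕ} (hm : m < 32) (hn : n < 32) (hm0 : m ≠ 0) (hn0 : n ≠ 0)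
    (he : entry table4 m n = 1) : BddM m n :=
  bddAll_ok _ (table_check (by decide +kernel) hm hn hm0 hn0 he)

theorem table4_unb {m n : ℕ} (hm : m < 32) (hn : n < 32) (hm0 : m ≠ 0) (hn0 : n ≠ 0)
    (he : entry table4 m n = 2) : ¬ BddM m n :=
  unbAll_ok _ (table_check (by decide +kernel) hm hn hm0 hn0 he)

theorem table3_four : ∀ m < 16, 0 < m → ∀ n < 16, 0 < n →
    entry table3 m n = entry table4 m n ∧ (entry table3 m n = 1 ∨ entry table3 m n = 2) := by
  decide +kernel

end Pool.Agent.H299.RDE
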