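import Pool.Agent.H299.RDE.Star

/-!
# Neutral special cases of period three and order three
-/

set_option linter.deprecated false

namespace Pool.Agent.H299.RDE

open Filter Topology Hyperreal

lemma real_contra {A α β γ B : ℝ} (hA : 0 ≤ A) (hα : 0 ≤ α) (hβ : 0 ≤ β) (hγ : 0 < γ)
    (hB : 0 < B) (hpos : 0 < β ∨ (0 < α ∧ 0 < A)) {t : ℕ → ℝ} (ht : ∀ k, 0 ≤ t k)
    (hrec : ∀ k, t k * (A + β) = α + β * (β / B) + γ * t (k + 1)) (h0 : A + B * t 0 ≤ γ) :
    False := by
  have he : 0 < α + β * (β / B) := by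
    rcases hpos with h | ⟨h, _⟩ <;> positivity
  have hs : 0 < A + β := by
    rcases hpos with h | ⟨_, h⟩ <;> positivity
  set e := α + β * (β / B) with he'
  have hBe : B * e = α * B + β ^ 2 := by rw [he']; field_simp
  have hBt : 0 ≤ B * t 0 := mul_nonneg hB.le (ht 0)
  rcases le_or_gt (A + β) γ with h | h
  · -- growth
    have key : ∀ k : ℕ, (k : ℝ) * e ≤ t 0 * (A + β) ∧ (k : ℝ) * e + t k * (A + β) ≤ t 0 * (A + β) := by
      intro k
      induction k with
      | zero => simp [mul_nonneg (ht 0) hs.le]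
      | succ k ih =>
        have h1 := hrec k
        have h2 : t (k + 1) * (A + β) ≤ γ * t (k + 1) := by
          rw [mul_comm]
          exact mul_le_mul_of_nonneg_right h (ht _)
        have h3 := mul_nonneg (ht (k + 1)) hs.le
        push_cast
        constructor <;> nlinarith [ih.2]
    obtain ⟨k, hk⟩ := exists_nat_gt (t 0 * (A + β) / e)
    rw [div_lt_iff₀ he] at hk
    exact absurd (key k).1 (not_le.2 hk)
  · -- geometric convergence
    set σ := A + β with hσ
    set T := e / (σ - γ) with hT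
    have hd : 0 < σ - γ := by linarith
    have hTp : 0 < T := by positivity
    have hTe : T * (σ - γ) = e := by rw [hT]; field_simp
    have hstep : ∀ k, t k - T = (γ / σ) * (t (k + 1) - T) := by
      intro k
      have h1 := hrec k
      have : (t k - T) * σ = γ * (t (k + 1) - T) := by
        have : e = T * σ - γ * T := by rw [← hTe]; ring
        rw [sub_mul, h1, this]
        ring
      field_simp
      linarith
    have hpow : ∀ k, t 0 - T = (γ / σ) ^ k * (t k - T) := by
      intro k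
      induction k with
      | zero => simp
      | succ k ih => rw [ih, hstep k, pow_succ]; ring
    have hlow : ∀ k : ℕ, T - (γ / σ) ^ k * T ≤ t 0 := by
      intro k
      have h1 := hpow k
      have h2 : 0 ≤ (γ / σ) ^ k * t k := mul_nonneg (by positivity) (ht k)
      nlinarith
    have hlim : Tendsto (fun k : ℕ => T - (γ / σ) ^ k * T) atTop (𝓝 (T - 0 * T)) := by
      refine tendsto_const_nhds.sub (Tendsto.mul_const T ?_)
      refine tendsto_pow_atTop_nhds_zero_of_lt_one (by positivity) ?_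
      rw [div_lt_one hs]
      exact h
    have hfin := le_of_tendsto' hlim hlow
    rw [zero_mul, sub_zero] at hfin
    -- `(γ - A) (β - (γ - A)) ≥ α B + β²`
    have h1 : B * T * (σ - γ) = α * B + β ^ 2 := by rw [mul_assoc, hTe, hBe]
    have h2 : B * T ≤ γ - A := by
      have := mul_le_mul_of_nonneg_left hfin hB.le
      linarith
    have h3 : α * B + β ^ 2 ≤ (γ - A) * (σ - γ) := by
      rw [← h1]
      exact mul_le_mul_of_nonneg_right h2 hd.le
    have h4 : (γ - A) * (σ - γ) ≤ β ^ 2 / 4 := by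
      rw [hσ]
      nlinarith [sq_nonneg (2 * (γ - A) - β)]
    have h5 : 0 ≤ α * B := by positivity
    rcases hpos with h | ⟨h, _⟩
    · nlinarith [pow_pos h 2]
    · have : 0 < α * B := by positivity
      nlinarith [sq_nonneg β]

theorem starA {A α β γ B : ℝ} (hA : 0 ≤ A) (hα : 0 ≤ α) (hβ : 0 ≤ β) (hγ : 0 < γ)
    (hB : 0 < B) (hpos : 0 < β ∨ (0 < α ∧ 0 < A)) {L a p q : ℕ → ℝ*}
    (a0 : ∀ k, 0 ≤ a k) (p0 : ∀ k, 0 ≤ p k)
    (hL : ∀ k, L k ≤ L 0) (hp : ∀ k, p k ≤ L 0) (hinf : Inf (L 0))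
    (h1 : ∀ k, L k * (A + B * a k) = α + β * a k + γ * L (k + 1)) (d j : ℕ)
    (h2 : ∀ k, p k * (A + B * L (k + d)) = α + β * L (k + d) + γ * p (k + 1))
    (h3 : ∀ k, a k * (A + B * q k) = α + β * q k + γ * a (k + 1))
    (hq : ∀ k, q k = p (k + j))
    (hd : ∀ k, 0 < (A : ℝ*) + B * q k) : False := by
  have hAs : (0 : ℝ*) ≤ A := coe_nonneg.2 hA
  have hαs : (0 : ℝ*) ≤ α := coe_nonneg.2 hα
  have hβs : (0 : ℝ*) ≤ β := coe_nonneg.2 hβ
  have hγs : (0 : ℝ*) < γ := coe_pos.2 hγ
  have hBs : (0 : ℝ*) < B := coe_pos.2 hB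
  have q0 : ∀ k, 0 ≤ q k := by
    intro k
    rw [hq]
    exact p0 _
  -- lower bound for the denominators
  obtain ⟨c0, hc0, hlow⟩ : ∃ c0 : ℝ, 0 < c0 ∧ ∀ k, (c0 : ℝ*) ≤ A + B * a k := by
    rcases hA.lt_or_eq with h | h
    · exact ⟨A, h, fun k => le_add_of_nonneg_right (mul_nonneg hBs.le (a0 k))⟩
    · have hβ' : 0 < β := by
        rcases hpos with h' | ⟨_, h'⟩
        · exact h'
        · rw [← h] at h'; exact absurd h' (lt_irrefl _)
      refine ⟨β, hβ', fun k => ?_⟩
      subst h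
      have hqk : 0 < q k := by
        have := hd k
        rw [coe_zero, zero_add] at this
        exact (pos_iff_pos_of_mul_pos this).1 hBs
      have e := h3 k
      rw [coe_zero, zero_add] at e
      rw [coe_zero, zero_add]
      have : (β : ℝ*) * q k ≤ (B * a k) * q k := by
        have h5 := mul_nonneg hγs.le (a0 (k + 1))
        calc (β : ℝ*) * q k ≤ α + β * q k + γ * a (k + 1) := by linarith
          _ = a k * (B * q k) := e.symm
          _ = (B * a k) * q k := by ring
      exact le_of_mul_le_mul_right this hqk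
  have hc0s : (0 : ℝ*) < c0 := coe_pos.2 hc0
  -- the large class
  have hLg : ∀ k, Lg (L 0) (L k) := by
    intro k
    induction k with
    | zero => exact Lg.refl _
    | succ k ih =>
      have hI := ih.inf hinf
      obtain ⟨K, hK, hKle⟩ := ih.le
      have hw := hlow k
      have e := h1 k
      have hak := a0 k
      -- `β a ≤ (β / B) w`
      have hβB : (β : ℝ*) * a k ≤ ((β / B : ℝ) : ℝ*) * (A + B * a k) := by
        have : ((β / B : ℝ) : ℝ*) * (B : ℝ*) = β := by
          rw [← coe_mul]; congr 1; field_simp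
        have h5 : (0 : ℝ*) ≤ ((β / B : ℝ) : ℝ*) * A :=
          mul_nonneg (coe_nonneg.2 (by positivity)) hAs
        calc (β : ℝ*) * a k = ((β / B : ℝ) : ℝ*) * (B * a k) := by rw [← mul_assoc, this]
          _ ≤ _ := by rw [mul_add]; linarith
      have hbig : ((β / B : ℝ) : ℝ*) + ((α / c0 : ℝ) : ℝ*) ≤ ((1 / 2 : ℝ) : ℝ*) * L k := by
        have := (hI (2 * (β / B + α / c0))).le
        have h6 : (0 : ℝ*) < ((1 / 2 : ℝ) : ℝ*) := coe_pos.2 (by norm_num)
        calc ((β / B : ℝ) : ℝ*) + ((α / c0 : ℝ) : ℝ*) =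
            ((1 / 2 : ℝ) : ℝ*) * ((2 * (β / B + α / c0) : ℝ) : ℝ*) := by
              rw [← coe_add, ← coe_mul]; congr 1; ring
          _ ≤ _ := mul_le_mul_of_nonneg_left this h6.le
      have hhalf : ((1 / 2 : ℝ) : ℝ*) * L k + ((1 / 2 : ℝ) : ℝ*) * L k = L k := by
        rw [← add_mul, ← coe_add]
        norm_num
      have hα0 : ((α / c0 : ℝ) : ℝ*) * c0 = α := by
        rw [← coe_mul]; congr 1; field_simp
      have h7 : ((1 / 2 : ℝ) : ℝ*) * L k * c0 ≤ γ * L (k + 1) := by
        have h8 : γ * L (k + 1) = L k * (A + B * a k) - α - β * a k := by rw [e]; ring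
        have h9 : (0 : ℝ*) ≤ L k - ((β / B : ℝ) : ℝ*) - ((α / c0 : ℝ) : ℝ*) := by
          have : (0 : ℝ*) ≤ ((1 / 2 : ℝ) : ℝ*) * L k :=
            mul_nonneg (coe_nonneg.2 (by norm_num)) hI.pos.le
          linarith
        have h10 : (L k - ((β / B : ℝ) : ℝ*) - ((α / c0 : ℝ) : ℝ*)) * c0 ≤
            (L k - ((β / B : ℝ) : ℝ*) - ((α / c0 : ℝ) : ℝ*)) * (A + B * a k) :=
          mul_le_mul_of_nonneg_left hw h9
        have h11 : ((α / c0 : ℝ) : ℝ*) * c0 ≤ ((α / c0 : ℝ) : ℝ*) * (A + B * a k) :=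
          mul_le_mul_of_nonneg_left hw (coe_nonneg.2 (by positivity))
        rw [hα0] at h11
        have h12 : ((1 / 2 : ℝ) : ℝ*) * L k * c0 ≤
            (L k - ((β / B : ℝ) : ℝ*) - ((α / c0 : ℝ) : ℝ*)) * c0 := by
          apply mul_le_mul_of_nonneg_right _ hc0s.le
          linarith
        rw [h8]
        nlinarith [h10, h11, h12, hβB]
      have hK2 : (0 : ℝ*) < ((2 / c0 : ℝ) : ℝ*) := coe_pos.2 (by positivity)
      refine Lg.of_le (K := K * (2 / c0) * γ) (by positivity) ?_
      have h13 := mul_le_mul_of_nonneg_left h7 hK2.le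
      have e1 : ((2 / c0 : ℝ) : ℝ*) * (((1 / 2 : ℝ) : ℝ*) * L k * c0) = L k := by
        have : ((2 / c0 : ℝ) : ℝ*) * ((1 / 2 : ℝ) : ℝ*) * c0 = 1 := by
          rw [← coe_mul, ← coe_mul, ← coe_one]; congr 1; field_simp
        calc ((2 / c0 : ℝ) : ℝ*) * (((1 / 2 : ℝ) : ℝ*) * L k * c0) =
            (((2 / c0 : ℝ) : ℝ*) * ((1 / 2 : ℝ) : ℝ*) * c0) * L k := by ring
          _ = L k := by rw [this, one_mul]
      rw [e1] at h13
      have hKs : (0 : ℝ*) ≤ K := coe_nonneg.2 hK.le
      calc L 0 ≤ K * L k := hKle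
        _ ≤ K * (((2 / c0 : ℝ) : ℝ*) * (γ * L (k + 1))) := mul_le_mul_of_nonneg_left h13 hKs
        _ = ((K * (2 / c0) * γ : ℝ) : ℝ*) * L (k + 1) := by
            rw [coe_mul, coe_mul]; ring
  -- the active class is finite
  have hFa : ∀ k, Fn (a k) := by
    intro k
    obtain ⟨K, hK, hKle⟩ := (hLg k).le
    refine Fn.of_mul (a0 k) ((hLg k).inf hinf) hB (a := α) (β := β) (K := γ * K) ?_
    have hLk := ((hLg k).inf hinf).pos
    calc a k * (B * L k) ≤ L k * (A + B * a k) := by nlinarith [mul_nonneg hAs hLk.le]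
      _ = α + β * a k + γ * L (k + 1) := h1 k
      _ ≤ α + β * a k + γ * (K * L k) := by
          have := mul_le_mul_of_nonneg_left ((hL (k + 1)).trans hKle) hγs.le
          linarith
      _ = α + β * a k + ((γ * K : ℝ) : ℝ*) * L k := by rw [coe_mul]; ring
  have hFp : ∀ k, Fn (p k) := by
    intro k
    obtain ⟨K, hK, hKle⟩ := (hLg (k + d)).le
    refine Fn.of_mul (p0 k) ((hLg (k + d)).inf hinf) hB (a := α) (β := 0) (K := β + γ * K) ?_
    have hLk := ((hLg (k + d)).inf hinf).pos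
    calc p k * (B * L (k + d)) ≤ p k * (A + B * L (k + d)) := by
          have := mul_nonneg (p0 k) hAs
          nlinarith
      _ = α + β * L (k + d) + γ * p (k + 1) := h2 k
      _ ≤ α + β * L (k + d) + γ * (K * L (k + d)) := by
          have := mul_le_mul_of_nonneg_left ((hp (k + 1)).trans hKle) hγs.le
          linarith
      _ = α + ((0 : ℝ) : ℝ*) * p k + ((β + γ * K : ℝ) : ℝ*) * L (k + d) := by
          rw [coe_add, coe_mul, coe_zero]; ring
  -- standard part of the passive class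
  have hStp : ∀ k, IsSt (p k) (β / B) := by
    intro k
    have hI := (hLg (k + d)).inf hinf
    have hLk := hI.pos
    obtain ⟨r, hr⟩ := hFp k
    obtain ⟨π, _, hπ⟩ := St.exists (p0 k) hr
    obtain ⟨r', hr'⟩ := hFp (k + 1)
    have s1 : IsSt ((A : ℝ*) / L (k + d)) 0 := St.div_inf hAs (le_refl _) hI
    have s2 : IsSt ((α : ℝ*) / L (k + d)) 0 := St.div_inf hαs (le_refl _) hI
    have s3 : IsSt (p (k + 1) / L (k + d)) 0 := St.div_inf (p0 _) hr' hI
    have e : p k * ((A : ℝ*) / L (k + d) + B) = α / L (k + d) + β + γ * (p (k + 1) / L (k + d)) := by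
      have := h2 k
      field_simp
      linarith
    have t1 := St.mul hπ (St.add s1 (St.const B))
    have t2 := St.add (St.add s2 (St.const β)) (St.cmul γ s3)
    rw [e] at t1
    have := St.unique t1 t2
    have hπe : π = β / B := by
      field_simp
      linarith
    rw [← hπe]
    exact hπ
  have hStq : ∀ k, IsSt (q k) (β / B) := by
    intro k
    rw [hq]
    exact hStp _
  have hex : ∀ k, ∃ t : ℝ, 0 ≤ t ∧ IsSt (a k) t := by
    intro k
    obtain ⟨r, hr⟩ := hFa k
    exact St.exists (a0 k) hr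
  choose t ht0 ht using hex
  refine real_contra hA hα hβ hγ hB hpos ht0 ?_ ?_
  · intro k
    have t1 := St.mul (ht k) (St.add (St.const A) (St.cmul B (hStq k)))
    have t2 := St.add (St.add (St.const α) (St.cmul β (hStq k))) (St.cmul γ (ht (k + 1)))
    rw [h3 k] at t1
    have := St.unique t1 t2
    have e : A + β = A + B * (β / B) := by field_simp
    rw [e]
    exact this
  · have hI := hinf
    have hL0 := hI.pos
    obtain ⟨r, hr⟩ := hFa 0
    have s1 : IsSt ((α : ℝ*) / L 0) 0 := St.div_inf hαs (le_refl _) hI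
    have s2 : IsSt (a 0 / L 0) 0 := St.div_inf (a0 0) hr hI
    have t1 := St.add (St.const A) (St.cmul B (ht 0))
    have t2 := St.add (St.add s1 (St.cmul β s2)) (St.const γ)
    have hle : (A : ℝ*) + B * a 0 ≤ α / L 0 + β * (a 0 / L 0) + γ := by
      have h5 := h1 0
      have h6 : γ * L (0 + 1) ≤ γ * L 0 := mul_le_mul_of_nonneg_left (hL _) hγs.le
      have h7 : ((A : ℝ*) + B * a 0) * L 0 ≤ (α / L 0 + β * (a 0 / L 0) + γ) * L 0 := by
        have e : (α / L 0 + β * (a 0 / L 0) + γ) * L 0 = α + β * a 0 + γ * L 0 := by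
          field_simp
        rw [e]
        linarith
      exact le_of_mul_le_mul_right h7 hL0
    have := St.le t1 t2 hle
    linarith

lemma Supp.zero {P : ℕ} {b : ℕ → ℝ} (h : Supp P b) {i : ℕ} (hi : i ≤ 4)
    (hP : P.testBit i = false) : b i = 0 := (h i hi).2 hP

lemma Supp.pos {P : ℕ} {b : ℕ → ℝ} (h : Supp P b) {i : ℕ} (hi : i ≤ 4)
    (hP : P.testBit i = true) : 0 < b i := (h i hi).1 hP

/-- numerator `α + β₁ x_{n-1} + β₃ x_{n-3}`, denominator `A + B₁ x_{n-1}` -/
theorem bdd_neutA1 (P Q : ℕ) (h3 : P.testBit 3 = true) (h2 : P.testBit 2 = false)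
    (h4 : P.testBit 4 = false) (k1 : Q.testBit 1 = true) (k2 : Q.testBit 2 = false)
    (k3 : Q.testBit 3 = false) (k4 : Q.testBit 4 = false)
    (hor : P.testBit 1 = true ∨ (P.testBit 0 = true ∧ Q.testBit 0 = true)) : BddM P Q := by
  intro b c hb hc x hx
  by_contra hu
  obtain ⟨X, hX⟩ := star_of_unbounded hx hu
  have hlb : ∀ m, linS b X m = b 0 + b 1 * X (m + 1) + b 3 * X (m + 3) := by
    intro m
    unfold linS
    rw [hb.zero (by norm_num) h2, hb.zero (by norm_num) h4, coe_zero]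
    ring
  have hlc : ∀ m, linS c X m = c 0 + c 1 * X (m + 1) := by
    intro m
    unfold linS
    rw [hc.zero (by norm_num) k2, hc.zero (by norm_num) k3, hc.zero (by norm_num) k4, coe_zero]
    ring
  have heq : ∀ m, X m * (c 0 + c 1 * X (m + 1)) = b 0 + b 1 * X (m + 1) + b 3 * X (m + 3) := by
    intro m
    rw [← hlb, ← hlc]
    exact hX.eq m
  refine starA (A := c 0) (α := b 0) (β := b 1) (γ := b 3) (B := c 1)
    (hc.nonneg (by norm_num)) (hb.nonneg (by norm_num)) (hb.nonneg (by norm_num))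
    (hb.pos (by norm_num) h3) (hc.pos (by norm_num) k1) ?_
    (L := fun k => X (3 * k)) (a := fun k => X (3 * k + 1)) (p := fun k => X (3 * k + 2))
    (q := fun k => X (3 * k + 2)) (fun k => hX.nonneg _) (fun k => hX.nonneg _)
    (fun k => hX.le _) (fun k => hX.le _) hX.inf ?_ 1 0 ?_ ?_ (fun k => rfl) ?_
  · rcases hor with h | ⟨h, h'⟩
    · exact Or.inl (hb.pos (by norm_num) h)
    · exact Or.inr ⟨hb.pos (by norm_num) h, hc.pos (by norm_num) h'⟩
  · intro k
    exact heq (3 * k)
  · intro k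
    exact heq (3 * k + 2)
  · intro k
    exact heq (3 * k + 1)
  · intro k
    have := hX.dpos (3 * k + 1)
    rw [hlc] at this
    exact this

/-- numerator `α + β₂ x_{n-2} + β₃ x_{n-3}`, denominator `A + B₂ x_{n-2}` -/
theorem bdd_neutA2 (P Q : ℕ) (h3 : P.testBit 3 = true) (h1 : P.testBit 1 = false)
    (h4 : P.testBit 4 = false) (k2 : Q.testBit 2 = true) (k1 : Q.testBit 1 = false)
    (k3 : Q.testBit 3 = false) (k4 : Q.testBit 4 = false)
    (hor : P.testBit 2 = true ∨ (P.testBit 0 = true ∧ Q.testBit 0 = true)) : BddM P Q := by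
  intro b c hb hc x hx
  by_contra hu
  obtain ⟨X, hX⟩ := star_of_unbounded hx hu
  have hlb : ∀ m, linS b X m = b 0 + b 2 * X (m + 2) + b 3 * X (m + 3) := by
    intro m
    unfold linS
    rw [hb.zero (by norm_num) h1, hb.zero (by norm_num) h4, coe_zero]
    ring
  have hlc : ∀ m, linS c X m = c 0 + c 2 * X (m + 2) := by
    intro m
    unfold linS
    rw [hc.zero (by norm_num) k1, hc.zero (by norm_num) k3, hc.zero (by norm_num) k4, coe_zero]
    ring
  have heq : ∀ m, X m * (c 0 + c 2 * X (m + 2)) = b 0 + b 2 * X (m + 2) + b 3 * X (m + 3) := by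
    intro m
    rw [← hlb, ← hlc]
    exact hX.eq m
  refine starA (A := c 0) (α := b 0) (β := b 2) (γ := b 3) (B := c 2)
    (hc.nonneg (by norm_num)) (hb.nonneg (by norm_num)) (hb.nonneg (by norm_num))
    (hb.pos (by norm_num) h3) (hc.pos (by norm_num) k2) ?_
    (L := fun k => X (3 * k)) (a := fun k => X (3 * k + 2)) (p := fun k => X (3 * k + 1))
    (q := fun k => X (3 * k + 4)) (fun k => hX.nonneg _) (fun k => hX.nonneg _)
    (fun k => hX.le _) (fun k => hX.le _) hX.inf ?_ 1 1 ?_ ?_ (fun k => rfl) ?_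
  · rcases hor with h | ⟨h, h'⟩
    · exact Or.inl (hb.pos (by norm_num) h)
    · exact Or.inr ⟨hb.pos (by norm_num) h, hc.pos (by norm_num) h'⟩
  · intro k
    exact heq (3 * k)
  · intro k
    exact heq (3 * k + 1)
  · intro k
    exact heq (3 * k + 2)
  · intro k
    have := hX.dpos (3 * k + 2)
    rw [hlc] at this
    exact this

end Pool.Agent.H299.RDE
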