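import Pool.Agent.H299.RDE.NeutA

/-!
# Neutral special cases of period four and order three
-/

set_option linter.deprecated false

namespace Pool.Agent.H299.RDE

open Filter Topology Hyperreal

/-- propagation of largeness -/
lemma Lg.prop {y L Y : ℝ*} (h : Lg y L) (hy : Inf y) {c K r : ℝ} (hc : 0 < c) (hK : 0 < K)
    (hle : (c : ℝ*) * L ≤ r + K * Y) : Lg y Y := by
  obtain ⟨κ, hκ, hle'⟩ := h
  have hI : Inf L := Lg.inf ⟨κ, hκ, hle'⟩ hy
  refine ⟨κ * (c / (2 * K)), by positivity, ?_⟩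
  have h1 : (r : ℝ*) ≤ ((c / 2 : ℝ) : ℝ*) * L := by
    have := (hI (2 * r / c)).le
    have h2 : (0 : ℝ*) < ((c / 2 : ℝ) : ℝ*) := coe_pos.2 (by positivity)
    calc (r : ℝ*) = ((c / 2 : ℝ) : ℝ*) * ((2 * r / c : ℝ) : ℝ*) := by
          rw [← coe_mul]; congr 1; field_simp
      _ ≤ _ := mul_le_mul_of_nonneg_left this h2.le
  have h3 : ((c / 2 : ℝ) : ℝ*) * L ≤ K * Y := by
    have : (c : ℝ*) * L = ((c / 2 : ℝ) : ℝ*) * L + ((c / 2 : ℝ) : ℝ*) * L := by
      rw [← add_mul, ← coe_add]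
      congr 2; ring
    linarith
  have h4 : (0 : ℝ*) < ((1 / K : ℝ) : ℝ*) := coe_pos.2 (by positivity)
  have h5 := mul_le_mul_of_nonneg_left h3 h4.le
  have e1 : ((1 / K : ℝ) : ℝ*) * ((K : ℝ*) * Y) = Y := by
    rw [← mul_assoc, ← coe_mul]
    have : 1 / K * K = 1 := by field_simp
    rw [this, coe_one, one_mul]
  rw [e1] at h5
  refine le_trans ?_ h5
  have h6 : (0 : ℝ*) ≤ ((c / (2 * K) : ℝ) : ℝ*) := coe_nonneg.2 (by positivity)
  calc ((κ * (c / (2 * K)) : ℝ) : ℝ*) * y = ((c / (2 * K) : ℝ) : ℝ*) * ((κ : ℝ*) * y) := by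
        rw [coe_mul]; ring
    _ ≤ ((c / (2 * K) : ℝ) : ℝ*) * L := mul_le_mul_of_nonneg_left hle' h6
    _ = ((1 / K : ℝ) : ℝ*) * (((c / 2 : ℝ) : ℝ*) * L) := by
        rw [← mul_assoc, ← coe_mul]
        congr 2
        field_simp

/-- quotient of a bounded-by-`y` number by a large one is finite -/
lemma Fn.div {x y L : ℝ*} (hL : Lg y L) (hy : Inf y) (hx : x ≤ y) : Fn (x / L) := by
  obtain ⟨K, hK, h⟩ := hL.le
  refine ⟨K, ?_⟩
  rw [div_le_iff₀ (hL.inf hy).pos]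
  exact hx.trans h

lemma Fn.st {x : ℝ*} (h : Fn x) (h0 : 0 ≤ x) : ∃ t : ℝ, 0 ≤ t ∧ IsSt x t := by
  obtain ⟨r, hr⟩ := h
  exact St.exists h0 hr

lemma Fn.div_inf {x y : ℝ*} (h : Fn x) (h0 : 0 ≤ x) (hy : Inf y) : IsSt (x / y) 0 := by
  obtain ⟨r, hr⟩ := h
  exact St.div_inf h0 hr hy

lemma Fn.const (r : ℝ) : Fn (r : ℝ*) := ⟨r, le_refl _⟩

section

variable {A α β₁ β₂ β₃ B : ℝ} {X : ℕ → ℝ*}

/-- the recurrence `x_n = (α + β₁ x_{n-1} + β₂ x_{n-2} + β₃ x_{n-3}) / (A + B x_{n-2})` -/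
structure SysB (A α β₁ β₂ β₃ B : ℝ) (X : ℕ → ℝ*) : Prop where
  hA : 0 ≤ A
  hα : 0 ≤ α
  h1 : 0 < β₁
  h2 : 0 ≤ β₂
  h3 : 0 < β₃
  hB : 0 < B
  ha : 0 < A + β₂
  nn : ∀ m, 0 ≤ X m
  le : ∀ m, X m ≤ X 0
  inf : Inf (X 0)
  dpos : ∀ m, 0 < (A : ℝ*) + B * X (m + 2)
  eq : ∀ m, X m * (A + B * X (m + 2)) = α + β₁ * X (m + 1) + β₂ * X (m + 2) + β₃ * X (m + 3)

lemma SysB.low (S : SysB A α β₁ β₂ β₃ B X) :
    ∃ c0 : ℝ, 0 < c0 ∧ ∀ k, (c0 : ℝ*) ≤ A + B * X k := by
  have hBs : (0 : ℝ*) < B := coe_pos.2 S.hB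
  rcases S.hA.lt_or_eq with h | h
  · exact ⟨A, h, fun k => le_add_of_nonneg_right (mul_nonneg hBs.le (S.nn k))⟩
  · have hβ' : 0 < β₂ := by
      have := S.ha
      rw [← h] at this
      simpa using this
    refine ⟨β₂, hβ', fun k => ?_⟩
    have hd := S.dpos k
    have e := S.eq k
    rw [← h] at hd e ⊢
    rw [coe_zero, zero_add] at hd e ⊢
    have hq : 0 < X (k + 2) := (pos_iff_pos_of_mul_pos hd).1 hBs
    have : (β₂ : ℝ*) * X (k + 2) ≤ (B * X k) * X (k + 2) := by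
      have h4 := mul_nonneg (coe_pos.2 S.h3).le (S.nn (k + 3))
      have h5 := mul_nonneg (coe_pos.2 S.h1).le (S.nn (k + 1))
      have h6 : (0 : ℝ*) ≤ α := coe_nonneg.2 S.hα
      calc (β₂ : ℝ*) * X (k + 2) ≤ α + β₁ * X (k + 1) + β₂ * X (k + 2) + β₃ * X (k + 3) := by
            linarith
        _ = X k * (B * X (k + 2)) := e.symm
        _ = (B * X k) * X (k + 2) := by ring
    exact le_of_mul_le_mul_right this hq

/-- if `X m` is large then `X (m+2)` is finite -/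
lemma SysB.fin2 (S : SysB A α β₁ β₂ β₃ B X) {m : ℕ} (hm : Lg (X 0) (X m)) : Fn (X (m + 2)) := by
  obtain ⟨K, hK, hKle⟩ := hm.le
  have hI := hm.inf S.inf
  have hAs : (0 : ℝ*) ≤ A := coe_nonneg.2 S.hA
  refine Fn.of_mul (S.nn _) hI S.hB (a := α) (β := β₂) (K := (β₁ + β₃) * K) ?_
  calc X (m + 2) * (B * X m) ≤ X m * (A + B * X (m + 2)) := by
        nlinarith [mul_nonneg hAs hI.pos.le]
    _ = α + β₁ * X (m + 1) + β₂ * X (m + 2) + β₃ * X (m + 3) := S.eq m
    _ ≤ α + β₂ * X (m + 2) + (β₁ * (K * X m) + β₃ * (K * X m)) := by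
        have h1 := mul_le_mul_of_nonneg_left ((S.le (m + 1)).trans hKle) (coe_pos.2 S.h1).le
        have h2 := mul_le_mul_of_nonneg_left ((S.le (m + 3)).trans hKle) (coe_pos.2 S.h3).le
        linarith
    _ = α + β₂ * X (m + 2) + (((β₁ + β₃) * K : ℝ) : ℝ*) * X m := by
        rw [coe_mul, coe_add]; ring

/-- two consecutive large values are followed (backwards) by two finite and two large ones -/
lemma SysB.pat (S : SysB A α β₁ β₂ β₃ B X) {j : ℕ} (h0 : Lg (X 0) (X j))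
    (h1 : Lg (X 0) (X (j + 1))) : Lg (X 0) (X (j + 4)) ∧ Lg (X 0) (X (j + 5)) := by
  obtain ⟨c0, hc0, hlow⟩ := S.low
  obtain ⟨r2, hr2⟩ := S.fin2 h0
  obtain ⟨r3, hr3⟩ := S.fin2 h1
  have e3 : j + 1 + 2 = j + 3 := by ring
  rw [e3] at hr3
  have b1 : (0 : ℝ*) < β₁ := coe_pos.2 S.h1
  have b2 : (0 : ℝ*) ≤ β₂ := coe_nonneg.2 S.h2
  have b3 : (0 : ℝ*) < β₃ := coe_pos.2 S.h3
  have hL4 : Lg (X 0) (X (j + 4)) := by
    refine h1.prop S.inf hc0 S.h3 (r := α + β₁ * r2 + β₂ * r3) ?_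
    have e := S.eq (j + 1)
    have hw := mul_le_mul_of_nonneg_left (hlow (j + 3)) (S.nn (j + 1))
    have e2 : j + 1 + 1 = j + 2 := by ring
    have e4 : j + 1 + 3 = j + 4 := by ring
    rw [e2, e3, e4] at e
    have m1 := mul_le_mul_of_nonneg_left hr2 b1.le
    have m2 := mul_le_mul_of_nonneg_left hr3 b2
    rw [coe_add, coe_add, coe_mul, coe_mul]
    linarith
  refine ⟨hL4, ?_⟩
  have hr3' : X (j + 3) ≤ ((max r3 1 : ℝ) : ℝ*) := hr3.trans (coe_le_coe.2 (le_max_left _ _))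
  have hmx : 0 < max r3 1 := lt_of_lt_of_le one_pos (le_max_right _ _)
  refine hL4.prop S.inf S.h1 (K := max r3 1 * B) (mul_pos hmx S.hB) (r := max r3 1 * A) ?_
  have e := S.eq (j + 3)
  have e4 : j + 3 + 1 = j + 4 := by ring
  have e5 : j + 3 + 2 = j + 5 := by ring
  rw [e4, e5] at e
  have hd := S.dpos (j + 3)
  rw [e5] at hd
  have m1 := mul_le_mul_of_nonneg_right hr3' hd.le
  have h4 := mul_nonneg b2 (S.nn (j + 5))
  have h5 := mul_nonneg b3.le (S.nn (j + 3 + 3))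
  have h6 : (0 : ℝ*) ≤ α := coe_nonneg.2 S.hα
  rw [coe_mul, coe_mul]
  nlinarith

/-- standard part of the quotient of two consecutive large values -/
lemma SysB.ratio (S : SysB A α β₁ β₂ β₃ B X) {j : ℕ} (h0 : Lg (X 0) (X j))
    (h1 : Lg (X 0) (X (j + 1))) :
    ∃ ρ ρ' τ : ℝ, 0 < ρ ∧ ρ * ρ' = 1 ∧ IsSt (X j / X (j + 1)) ρ ∧ IsSt (X (j + 1) / X j) ρ' ∧
      IsSt (X (j + 2)) τ ∧ 0 < A + B * τ ∧ ρ * (A + B * τ) = β₁ := by
  obtain ⟨c0, hc0, hlow⟩ := S.low
  have F2 := S.fin2 h0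
  have F3 := S.fin2 h1
  have e3 : j + 1 + 2 = j + 3 := by ring
  rw [e3] at F3
  have I0 := h0.inf S.inf
  have I1 := h1.inf S.inf
  have p0 := I0.pos
  have p1 := I1.pos
  obtain ⟨ρ, hρ0, hρ⟩ := (Fn.div h1 S.inf (S.le j)).st (div_nonneg p0.le p1.le)
  obtain ⟨ρ', hρ'0, hρ'⟩ := (Fn.div h0 S.inf (S.le (j + 1))).st (div_nonneg p1.le p0.le)
  obtain ⟨τ, hτ0, hτ⟩ := F2.st (S.nn _)
  have hprod : ρ * ρ' = 1 := by
    have := St.mul hρ hρ'
    have e : X j / X (j + 1) * (X (j + 1) / X j) = ((1 : ℝ) : ℝ*) := by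
      rw [coe_one]; field_simp
    rw [e] at this
    exact St.unique this (St.const 1)
  have hρpos : 0 < ρ := by
    rcases hρ0.lt_or_eq with h | h
    · exact h
    · rw [← h] at hprod; simp at hprod
  have hc : c0 ≤ A + B * τ := St.le (St.const c0) (St.add (St.const A) (St.cmul B hτ)) (hlow _)
  refine ⟨ρ, ρ', τ, hρpos, hprod, hρ, hρ', hτ, by linarith, ?_⟩
  have s1 : IsSt ((α : ℝ*) / X (j + 1)) 0 := (Fn.const α).div_inf (coe_nonneg.2 S.hα) I1
  have s2 : IsSt (X (j + 2) / X (j + 1)) 0 := F2.div_inf (S.nn _) I1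
  have s3 : IsSt (X (j + 3) / X (j + 1)) 0 := F3.div_inf (S.nn _) I1
  have e : X j / X (j + 1) * (A + B * X (j + 2)) =
      α / X (j + 1) + β₁ + β₂ * (X (j + 2) / X (j + 1)) + β₃ * (X (j + 3) / X (j + 1)) := by
    have := S.eq j
    field_simp
    linarith
  have t1 := St.mul hρ (St.add (St.const A) (St.cmul B hτ))
  have t2 := St.add (St.add (St.add s1 (St.const β₁)) (St.cmul β₂ s2)) (St.cmul β₃ s3)
  rw [e] at t1
  have := St.unique t1 t2
  linarith

/-- the finite value two steps before (in time) a large pair -/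
lemma SysB.tau (S : SysB A α β₁ β₂ β₃ B X) {m : ℕ} (F1 : Fn (X (m + 1)))
    (h2 : Lg (X 0) (X (m + 2))) {ρ' τ : ℝ} (hρ' : IsSt (X (m + 3) / X (m + 2)) ρ')
    (hτ : IsSt (X m) τ) : B * τ = β₂ + β₃ * ρ' := by
  have I2 := h2.inf S.inf
  have p2 := I2.pos
  have s0 : IsSt ((A : ℝ*) / X (m + 2)) 0 := (Fn.const A).div_inf (coe_nonneg.2 S.hA) I2
  have s1 : IsSt ((α : ℝ*) / X (m + 2)) 0 := (Fn.const α).div_inf (coe_nonneg.2 S.hα) I2
  have s2 : IsSt (X (m + 1) / X (m + 2)) 0 := F1.div_inf (S.nn _) I2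
  have e : X m * (A / X (m + 2) + B) =
      α / X (m + 2) + β₁ * (X (m + 1) / X (m + 2)) + β₂ + β₃ * (X (m + 3) / X (m + 2)) := by
    have := S.eq m
    field_simp
    linarith
  have t1 := St.mul hτ (St.add s0 (St.const B))
  have t2 := St.add (St.add (St.add s1 (St.cmul β₁ s2)) (St.const β₂)) (St.cmul β₃ hρ')
  rw [e] at t1
  have := St.unique t1 t2
  linarith

/-- the finite value one step before (in time) ... and the quotient across it -/
lemma SysB.quot (S : SysB A α β₁ β₂ β₃ B X) {m : ℕ} (h0 : Lg (X 0) (X m))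
    (F1 : Fn (X (m + 1))) (h3 : Lg (X 0) (X (m + 3)))
    (h4 : Lg (X 0) (X (m + 4))) {ρ : ℝ} (hρ : IsSt (X (m + 3) / X (m + 4)) ρ)
    (F5 : Fn (X (m + 5))) :
    ∃ q : ℝ, IsSt (X m / X (m + 3)) q ∧ q * (A + β₂ + β₁ * ρ) = β₃ := by
  have F2 := S.fin2 h0
  have I3 := h3.inf S.inf
  have p3 := I3.pos
  have I4 := h4.inf S.inf
  have p4 := I4.pos
  obtain ⟨σ, hσ0, hσ⟩ := F2.st (S.nn _)
  have hσe : B * σ = β₁ * ρ + β₂ := by
    have s0 : IsSt ((A : ℝ*) / X (m + 4)) 0 := (Fn.const A).div_inf (coe_nonneg.2 S.hA) I4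
    have s1 : IsSt ((α : ℝ*) / X (m + 4)) 0 := (Fn.const α).div_inf (coe_nonneg.2 S.hα) I4
    have s2 : IsSt (X (m + 5) / X (m + 4)) 0 := F5.div_inf (S.nn _) I4
    have e : X (m + 2) * (A / X (m + 4) + B) =
        α / X (m + 4) + β₁ * (X (m + 3) / X (m + 4)) + β₂ + β₃ * (X (m + 5) / X (m + 4)) := by
      have := S.eq (m + 2)
      have e1 : m + 2 + 1 = m + 3 := by ring
      have e2 : m + 2 + 2 = m + 4 := by ring
      have e3 : m + 2 + 3 = m + 5 := by ring
      rw [e1, e2, e3] at this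
      field_simp
      linarith
    have t1 := St.mul hσ (St.add s0 (St.const B))
    have t2 := St.add (St.add (St.add s1 (St.cmul β₁ hρ)) (St.const β₂)) (St.cmul β₃ s2)
    rw [e] at t1
    have := St.unique t1 t2
    linarith
  obtain ⟨q, hq0, hq⟩ := (Fn.div h3 S.inf (S.le m)).st
    (div_nonneg (S.nn m) p3.le)
  refine ⟨q, hq, ?_⟩
  have s1 : IsSt ((α : ℝ*) / X (m + 3)) 0 := (Fn.const α).div_inf (coe_nonneg.2 S.hα) I3
  have s2 : IsSt (X (m + 1) / X (m + 3)) 0 := F1.div_inf (S.nn _) I3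
  have s3 : IsSt (X (m + 2) / X (m + 3)) 0 := F2.div_inf (S.nn _) I3
  have e : X m / X (m + 3) * (A + B * X (m + 2)) =
      α / X (m + 3) + β₁ * (X (m + 1) / X (m + 3)) + β₂ * (X (m + 2) / X (m + 3)) + β₃ := by
    have := S.eq m
    field_simp
    linarith
  have t1 := St.mul hq (St.add (St.const A) (St.cmul B hσ))
  have t2 := St.add (St.add (St.add s1 (St.cmul β₁ s2)) (St.cmul β₂ s3)) (St.const β₃)
  rw [e] at t1
  have := St.unique t1 t2
  have e2 : A + β₂ + β₁ * ρ = A + B * σ := by rw [hσe]; ring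
  rw [e2]
  linarith

theorem SysB.false (S : SysB A α β₁ β₂ β₃ B X) : False := by
  obtain ⟨c0, hc0, hlow⟩ := S.low
  have b1 : (0 : ℝ*) < β₁ := coe_pos.2 S.h1
  have b2 : (0 : ℝ*) ≤ β₂ := coe_nonneg.2 S.h2
  have b3 : (0 : ℝ*) < β₃ := coe_pos.2 S.h3
  set a := A + β₂ with hadef
  have ha := S.ha
  have F2 := S.fin2 (Lg.refl (X 0))
  -- pattern propagation
  have prop : ∀ j, Lg (X 0) (X j) → Lg (X 0) (X (j + 1)) → ∀ i : ℕ,
      Lg (X 0) (X (j + 4 * i)) ∧ Lg (X 0) (X (j + 4 * i + 1)) := by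
    intro j h0 h1 i
    induction i with
    | zero => exact ⟨h0, h1⟩
    | succ i ih =>
      have := S.pat ih.1 ih.2
      have e1 : j + 4 * (i + 1) = j + 4 * i + 4 := by ring
      rw [e1]
      exact this
  -- the numbers `z`
  have zseq : ∀ j, Lg (X 0) (X j) → Lg (X 0) (X (j + 1)) → ∃ z : ℕ → ℝ, (∀ i, 0 < z i) ∧
      (∀ i, z i = a + β₃ / β₁ * z (i + 1)) ∧
      ∀ i, IsSt (X (j + 4 * i) / X (j + 4 * i + 1)) (β₁ / z i) := by
    intro j h0 h1
    have hp := prop j h0 h1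
    choose ρ ρ' τ h using fun i => S.ratio (hp i).1 (hp i).2
    refine ⟨fun i => A + B * τ i, fun i => (h i).2.2.2.2.2.1, ?_, ?_⟩
    · intro i
      obtain ⟨g1, g2, g3, g4, g5, g6, g7⟩ := h i
      obtain ⟨k1, k2, k3, k4, k5, k6, k7⟩ := h (i + 1)
      have F2' := S.fin2 (hp i).1
      have F3' := S.fin2 (hp i).2
      have hL := (hp (i + 1)).1
      have e1 : j + 4 * (i + 1) = j + 4 * i + 2 + 2 := by ring
      have e2 : j + 4 * (i + 1) + 1 = j + 4 * i + 2 + 3 := by ring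
      rw [e1] at hL
      rw [e1] at k4
      have ht := S.tau (m := j + 4 * i + 2) F3' hL (ρ' := ρ' (i + 1)) (τ := τ i) k4 g5
      simp only
      have : ρ' (i + 1) = (A + B * τ (i + 1)) / β₁ := by
        have hb1 := S.h1
        field_simp
        have : ρ (i + 1) * (ρ' (i + 1) * β₁) = ρ (i + 1) * (A + B * τ (i + 1)) := by
          rw [k7, ← mul_assoc, k2, one_mul]
        exact mul_left_cancel₀ k1.ne' this
      rw [ht, this, hadef]
      ring
    · intro i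
      obtain ⟨g1, g2, g3, g4, g5, g6, g7⟩ := h i
      have : β₁ / (A + B * τ i) = ρ i := by
        field_simp
        linarith
      rw [this]
      exact g3
  -- first alternative
  have hbig : Lg (X 0) (X 1) ∨ Lg (X 0) (X 3) := by
    obtain ⟨r, hr⟩ := F2
    have e := S.eq 0
    have hw := mul_le_mul_of_nonneg_left (hlow 2) (S.nn 0)
    simp only [zero_add] at e
    have m2 := mul_le_mul_of_nonneg_left hr b2
    rcases le_total (β₁ * X 1) (β₃ * X 3) with h | h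
    · right
      refine (Lg.refl (X 0)).prop S.inf hc0 (K := 2 * β₃) (by have := S.h3; positivity)
        (r := α + β₂ * r) ?_
      rw [coe_add, coe_mul, coe_mul]
      have : ((2 : ℝ) : ℝ*) = 2 := rfl
      rw [this]
      linarith
    · left
      refine (Lg.refl (X 0)).prop S.inf hc0 (K := 2 * β₁) (by have := S.h1; positivity)
        (r := α + β₂ * r) ?_
      rw [coe_add, coe_mul, coe_mul]
      have : ((2 : ℝ) : ℝ*) = 2 := rfl
      rw [this]
      linarith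
  have g1 := S.h1
  have g3 := S.h3
  rcases hbig with h | h
  · -- `X 0`, `X 1` large
    obtain ⟨z, hz, hzr, hst⟩ := zseq 0 (Lg.refl _) h
    have hp := prop 0 (Lg.refl _) h
    have L4 : Lg (X 0) (X 4) := by simpa using (hp 1).1
    have L5 : Lg (X 0) (X 5) := by simpa using (hp 1).2
    have F3 : Fn (X 3) := S.fin2 h
    have F6 : Fn (X 6) := S.fin2 L4
    have s0 : IsSt (X 0 / X 1) (β₁ / z 0) := by simpa using hst 0
    have s1 : IsSt (X 4 / X 5) (β₁ / z 1) := by simpa using hst 1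
    obtain ⟨q, hq, hqe⟩ := S.quot (m := 1) h F2 L4 L5 s1 F6
    have I1 := (h.inf S.inf).pos
    have I4 := (L4.inf S.inf).pos
    have t := St.mul s0 hq
    have e : X 0 / X 1 * (X 1 / X (1 + 3)) = X 0 / X 4 := by
      have e4 : 1 + 3 = 4 := rfl
      rw [e4]
      field_simp
    rw [e] at t
    have hge : (1 : ℝ*) ≤ X 0 / X 4 := (one_le_div I4).2 (S.le 4)
    have h1 := St.le (St.const 1) t (by rw [coe_one]; exact hge)
    have hzz := hzr 0
    simp only [zero_add] at hzz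
    have hz0 := hz 0
    have hz1 := hz 1
    -- `β₁ β₃ ≥ z₀ (a + β₁² / z₁)`
    have hq2 : q = β₃ / (a + β₁ * (β₁ / z 1)) := by
      rw [eq_div_iff (by positivity)]
      exact hqe
    rw [hq2] at h1
    have h2 : z 0 * (a + β₁ * (β₁ / z 1)) ≤ β₁ * β₃ := by
      rw [div_mul_div_comm, le_div_iff₀ (by positivity)] at h1
      linarith
    rw [hzz] at h2
    have e5 : (a + β₃ / β₁ * z 1) * (a + β₁ * (β₁ / z 1)) =
        a * a + a * (β₁ * (β₁ / z 1)) + β₃ / β₁ * z 1 * a + β₁ * β₃ := by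
      field_simp
      ring
    rw [e5] at h2
    have : 0 < a * a := by positivity
    have : 0 < a * (β₁ * (β₁ / z 1)) := by positivity
    have : 0 < β₃ / β₁ * z 1 * a := by positivity
    linarith
  · -- `X 3` large
    have I3 := h.inf S.inf
    obtain ⟨r2, hr2⟩ := F2
    have L4 : Lg (X 0) (X 4) := by
      have hr2' : X 2 ≤ ((max r2 1 : ℝ) : ℝ*) := hr2.trans (coe_le_coe.2 (le_max_left _ _))
      have hmx : 0 < max r2 1 := lt_of_lt_of_le one_pos (le_max_right _ _)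
      refine h.prop S.inf S.h1 (K := max r2 1 * B) (mul_pos hmx S.hB) (r := max r2 1 * A) ?_
      have e := S.eq 2
      simp only [Nat.reduceAdd] at e
      have hd := S.dpos 2
      simp only [Nat.reduceAdd] at hd
      have m1 := mul_le_mul_of_nonneg_right hr2' hd.le
      have h4 := mul_nonneg b2 (S.nn 4)
      have h5 := mul_nonneg b3.le (S.nn 5)
      have h6 : (0 : ℝ*) ≤ α := coe_nonneg.2 S.hα
      rw [coe_mul, coe_mul]
      nlinarith
    have F1 : Fn (X 1) := by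
      obtain ⟨K, hK, hKle⟩ := h.le
      have hAs : (0 : ℝ*) ≤ A := coe_nonneg.2 S.hA
      refine Fn.of_mul (S.nn _) I3 S.hB (a := α + β₁ * r2) (β := 0) (K := β₂ + β₃ * K) ?_
      have e := S.eq 1
      simp only [Nat.reduceAdd] at e
      have m1 := mul_le_mul_of_nonneg_left hr2 b1.le
      have m2 := mul_le_mul_of_nonneg_left ((S.le 4).trans hKle) b3.le
      have m3 := mul_nonneg (S.nn 1) hAs
      rw [coe_add, coe_mul, coe_add, coe_mul, coe_zero]
      nlinarith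
    obtain ⟨z, hz, hzr, hst⟩ := zseq 3 h L4
    have F5 : Fn (X 5) := S.fin2 h
    have s0 : IsSt (X 3 / X 4) (β₁ / z 0) := by simpa using hst 0
    obtain ⟨q, hq, hqe⟩ := S.quot (m := 0) (Lg.refl _) F1 h L4 s0 F5
    have p3 := I3.pos
    have p4 := (L4.inf S.inf).pos
    have t := St.mul hq s0
    have e : X 0 / X (0 + 3) * (X 3 / X 4) = X 0 / X 4 := by
      have e4 : 0 + 3 = 3 := rfl
      rw [e4]
      field_simp
    rw [e] at t
    have hge : (1 : ℝ*) ≤ X 0 / X 4 := (one_le_div p4).2 (S.le 4)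
    have h1 := St.le (St.const 1) t (by rw [coe_one]; exact hge)
    have hz0 := hz 0
    have hq2 : q = β₃ / (a + β₁ * (β₁ / z 0)) := by
      rw [eq_div_iff (by positivity)]
      exact hqe
    rw [hq2, div_mul_div_comm, le_div_iff₀ (by positivity)] at h1
    have e6 : (a + β₁ * (β₁ / z 0)) * z 0 = a * z 0 + β₁ ^ 2 := by
      field_simp
    rw [e6] at h1
    rcases le_or_gt β₃ β₁ with hle | hlt
    · have : 0 < a * z 0 := by positivity
      nlinarith
    · -- `z` grows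
      have hr1 : 1 ≤ β₃ / β₁ := by
        rw [one_le_div g1]
        exact hlt.le
      have key : ∀ k : ℕ, (k : ℝ) * a + z k ≤ z 0 := by
        intro k
        induction k with
        | zero => simp
        | succ k ih =>
          have h5 := hzr k
          have h6 : z (k + 1) ≤ β₃ / β₁ * z (k + 1) := by
            have := hz (k + 1)
            nlinarith
          push_cast
          linarith
      obtain ⟨k, hk⟩ := exists_nat_gt (z 0 / a)
      rw [div_lt_iff₀ ha] at hk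
      have := key k
      have := hz k
      linarith

end

/-- numerator `[α +] β₁ x_{n-1} [+ β₂ x_{n-2}] + β₃ x_{n-3}`, denominator `[A +] B₂ x_{n-2}` -/
theorem bdd_neutB (P Q : ℕ) (h1 : P.testBit 1 = true) (h3 : P.testBit 3 = true)
    (h4 : P.testBit 4 = false) (k2 : Q.testBit 2 = true) (k1 : Q.testBit 1 = false)
    (k3 : Q.testBit 3 = false) (k4 : Q.testBit 4 = false)
    (hor : P.testBit 2 = true ∨ Q.testBit 0 = true) : BddM P Q := by
  intro b c hb hc x hx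
  by_contra hu
  obtain ⟨X, hX⟩ := star_of_unbounded hx hu
  have hlb : ∀ m, linS b X m = b 0 + b 1 * X (m + 1) + b 2 * X (m + 2) + b 3 * X (m + 3) := by
    intro m
    unfold linS
    rw [hb.zero (by norm_num) h4, coe_zero]
    ring
  have hlc : ∀ m, linS c X m = c 0 + c 2 * X (m + 2) := by
    intro m
    unfold linS
    rw [hc.zero (by norm_num) k1, hc.zero (by norm_num) k3, hc.zero (by norm_num) k4, coe_zero]
    ring
  have S : SysB (c 0) (b 0) (b 1) (b 2) (b 3) (c 2) X := by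
    refine ⟨hc.nonneg (by norm_num), hb.nonneg (by norm_num), hb.pos (by norm_num) h1,
      hb.nonneg (by norm_num), hb.pos (by norm_num) h3, hc.pos (by norm_num) k2, ?_,
      hX.nonneg, hX.le, hX.inf, ?_, ?_⟩
    · rcases hor with h | h
      · exact add_pos_of_nonneg_of_pos (hc.nonneg (by norm_num)) (hb.pos (by norm_num) h)
      · exact add_pos_of_pos_of_nonneg (hc.pos (by norm_num) h) (hb.nonneg (by norm_num))
    · intro m
      have := hX.dpos m
      rw [hlc] at this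
      exact this
    · intro m
      rw [← hlb, ← hlc]
      exact hX.eq m
  exact S.false

end Pool.Agent.H299.RDE
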