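import Pool.Agent.H299.RDE.NeutB

/-!
# Neutral special cases of order four with a cycle of length five

First family: denominator `[A +] B₁ x_{n-1} + B₄ x_{n-4}`.
-/

set_option linter.deprecated false

namespace Pool.Agent.H299.RDE

open Filter Topology Hyperreal

/-- a real sequence that cannot exist -/
lemma no_descent {Y : ℕ → ℝ} {δ : ℝ} (hδ : 0 < δ) (hY : ∀ k, 0 ≤ Y k)
    (h : ∀ k, δ + Y (k + 1) ≤ Y k) : False := by
  have key : ∀ k : ℕ, (k : ℝ) * δ + Y k ≤ Y 0 := by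
    intro k
    induction k with
    | zero => simp
    | succ k ih =>
      have := h k
      push_cast
      linarith
  obtain ⟨k, hk⟩ := exists_nat_gt (Y 0 / δ)
  rw [div_lt_iff₀ hδ] at hk
  have := key k
  have := hY k
  linarith

/-- product inequality for the first alternative -/
lemma alt_one {A γ₁ γ₂ c₁ c₂ e₁ e₂ ρ m m' σ ρ₀ : ℝ} (hA : 0 ≤ A) (h1 : 0 < γ₁) (h2 : 0 < γ₂)
    (hc1 : 0 < c₁) (hc2 : 0 < c₂) (hcc : c₁ * c₂ = 1) (he1 : 0 ≤ e₁) (he2 : 0 ≤ e₂)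
    (hρ : 0 < ρ) (hm : 0 ≤ m) (hm' : 0 ≤ m') (hpos : 0 < A + e₁ + e₂)
    (hρ0 : ρ₀ * (A + m' + c₂ * (γ₂ / ρ + e₂)) = γ₁)
    (hσ : σ * (A + m + c₁ * (γ₁ * ρ + e₁)) = γ₂) (hσ0 : 0 < σ) (hge : 1 ≤ ρ₀ * σ) : False := by
  have p1 : 0 < A + m' + c₂ * (γ₂ / ρ + e₂) := by positivity
  have p2 : 0 < A + m + c₁ * (γ₁ * ρ + e₁) := by positivity
  have hprod : (A + m' + c₂ * (γ₂ / ρ + e₂)) * (A + m + c₁ * (γ₁ * ρ + e₁)) ≤ γ₁ * γ₂ := by
    have e : γ₁ * γ₂ = (ρ₀ * σ) *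
        ((A + m' + c₂ * (γ₂ / ρ + e₂)) * (A + m + c₁ * (γ₁ * ρ + e₁))) := by
      calc γ₁ * γ₂ = (ρ₀ * (A + m' + c₂ * (γ₂ / ρ + e₂))) *
          (σ * (A + m + c₁ * (γ₁ * ρ + e₁))) := by rw [hρ0, hσ]
        _ = _ := by ring
    rw [e]
    have := mul_pos p1 p2
    nlinarith
  have hexp : (c₂ * (γ₂ / ρ)) * (c₁ * (γ₁ * ρ)) = γ₁ * γ₂ := by
    have : (c₂ * (γ₂ / ρ)) * (c₁ * (γ₁ * ρ)) = (c₁ * c₂) * (γ₁ * γ₂) := by
      field_simp
    rw [this, hcc, one_mul]
  have q1 : 0 < c₂ * (γ₂ / ρ) := by positivity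
  have q2 : 0 < c₁ * (γ₁ * ρ) := by positivity
  have q3 : 0 ≤ c₂ * e₂ := by positivity
  have q4 : 0 ≤ c₁ * e₁ := by positivity
  -- expand
  have hlt : (c₂ * (γ₂ / ρ)) * (c₁ * (γ₁ * ρ)) <
      (A + m' + c₂ * (γ₂ / ρ + e₂)) * (A + m + c₁ * (γ₁ * ρ + e₁)) := by
    have r1 : 0 ≤ A + m' + c₂ * e₂ := by positivity
    have r2 : 0 ≤ A + m + c₁ * e₁ := by positivity
    have r3 : 0 < (A + m' + c₂ * e₂) + (A + m + c₁ * e₁) := by
      rcases hA.lt_or_eq with h | h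
      · have := q3; have := q4; linarith
      · rcases he1.lt_or_eq with h' | h'
        · have : 0 < c₁ * e₁ := by positivity
          linarith
        · have h'' : 0 < e₂ := by linarith
          have : 0 < c₂ * e₂ := by positivity
          linarith
    have e : (A + m' + c₂ * (γ₂ / ρ + e₂)) * (A + m + c₁ * (γ₁ * ρ + e₁)) =
        (c₂ * (γ₂ / ρ)) * (c₁ * (γ₁ * ρ)) + (c₂ * (γ₂ / ρ)) * (A + m + c₁ * e₁) +
          (c₁ * (γ₁ * ρ)) * (A + m' + c₂ * e₂) + (A + m' + c₂ * e₂) * (A + m + c₁ * e₁) := by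
      ring
    rw [e]
    have s1 := mul_nonneg q1.le r2
    have s2 := mul_nonneg q2.le r1
    have s3 := mul_nonneg r1 r2
    rcases r1.lt_or_eq with h | h
    · have := mul_pos q2 h
      linarith
    · have : 0 < A + m + c₁ * e₁ := by linarith
      have := mul_pos q1 this
      linarith
  linarith

/-- second alternative -/
lemma alt_two {A γ₁ γ₂ c₁ c₂ e₁ e₂ m σ : ℝ} {ρ m' : ℕ → ℝ} (hA : 0 ≤ A) (h1 : 0 < γ₁)
    (h2 : 0 < γ₂) (hc1 : 0 < c₁) (hc2 : 0 < c₂) (hcc : c₁ * c₂ = 1) (he1 : 0 ≤ e₁)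
    (he2 : 0 ≤ e₂) (hρ : ∀ k, 0 < ρ k) (hm : 0 ≤ m) (hm' : ∀ k, 0 ≤ m' k)
    (hρr : ∀ k, ρ k * (A + m' k + c₂ * (γ₂ / ρ (k + 1) + e₂)) = γ₁)
    (hσ : σ * (A + m + c₁ * (γ₁ * ρ 0 + e₁)) = γ₂) (hge : 1 ≤ σ * ρ 0)
    (hpos : 0 < A + m + c₁ * e₁)
    (hlow : (∀ k, γ₁ / ρ (k + 1) ≤ γ₁ / ρ k) → ∃ δ, 0 < δ ∧ ∀ k, δ ≤ A + m' k + c₂ * e₂) :
    False := by
  have h0 := hρ 0
  -- `γ₂ ρ₀ ≥ A + m + c₁ e₁ + c₁ γ₁ ρ₀`
  have k1 : A + m + c₁ * (γ₁ * ρ 0 + e₁) ≤ γ₂ * ρ 0 := by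
    have p2 : 0 < A + m + c₁ * (γ₁ * ρ 0 + e₁) := by
      have : 0 < c₁ * (γ₁ * ρ 0) := by positivity
      have e : A + m + c₁ * (γ₁ * ρ 0 + e₁) = A + m + c₁ * e₁ + c₁ * (γ₁ * ρ 0) := by ring
      rw [e]
      linarith
    have e : γ₂ * ρ 0 = (σ * ρ 0) * (A + m + c₁ * (γ₁ * ρ 0 + e₁)) := by
      calc γ₂ * ρ 0 = (σ * (A + m + c₁ * (γ₁ * ρ 0 + e₁))) * ρ 0 := by rw [hσ]
        _ = _ := by ring
    rw [e]
    nlinarith
  have hgt : c₁ * γ₁ < γ₂ := by
    by_contra hcon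
    push Not at hcon
    have : γ₂ * ρ 0 ≤ c₁ * γ₁ * ρ 0 := mul_le_mul_of_nonneg_right hcon h0.le
    have e : A + m + c₁ * (γ₁ * ρ 0 + e₁) = A + m + c₁ * e₁ + c₁ * γ₁ * ρ 0 := by ring
    rw [e] at k1
    linarith
  -- the numbers `Y k = γ₁ / ρ k`
  have hYr : ∀ k, γ₁ / ρ k = A + m' k + c₂ * (γ₂ / ρ (k + 1) + e₂) := by
    intro k
    rw [div_eq_iff (hρ k).ne', mul_comm]
    exact (hρr k).symm
  have hR : ∀ k, γ₁ / ρ (k + 1) ≤ c₂ * (γ₂ / ρ (k + 1)) := by
    intro k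
    have h3 : γ₁ ≤ c₂ * γ₂ := by
      have : c₂ * (c₁ * γ₁) ≤ c₂ * γ₂ := mul_le_mul_of_nonneg_left hgt.le hc2.le
      calc γ₁ = (c₁ * c₂) * γ₁ := by rw [hcc, one_mul]
        _ = c₂ * (c₁ * γ₁) := by ring
        _ ≤ c₂ * γ₂ := this
    rw [← mul_div_assoc]
    exact div_le_div_of_nonneg_right h3 (hρ _).le
  have hmono : ∀ k, γ₁ / ρ (k + 1) ≤ γ₁ / ρ k := by
    intro k
    rw [hYr k]
    have := hR k
    have := hm' k
    have : 0 ≤ c₂ * e₂ := by positivity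
    have e : c₂ * (γ₂ / ρ (k + 1) + e₂) = c₂ * (γ₂ / ρ (k + 1)) + c₂ * e₂ := by ring
    rw [e]
    linarith
  obtain ⟨δ, hδ, hδk⟩ := hlow hmono
  refine no_descent hδ (Y := fun k => γ₁ / ρ k) (fun k => (div_pos h1 (hρ k)).le) ?_
  intro k
  have h4 := hYr k
  have h5 := hR k
  have h6 := hδk k
  rw [h4]
  have e : c₂ * (γ₂ / ρ (k + 1) + e₂) = c₂ * (γ₂ / ρ (k + 1)) + c₂ * e₂ := by ring
  rw [e]
  linarith

section

variable {A α β₁ β₂ β₃ β₄ B₁ B₄ : ℝ} {X : ℕ → ℝ*}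

/-- `x_n (A + B₁ x_{n-1} + B₄ x_{n-4}) = α + β₁ x_{n-1} + ⋯ + β₄ x_{n-4}` seen from a record, with
a positive lower bound for the denominators -/
structure SysD (A α β₁ β₂ β₃ β₄ B₁ B₄ : ℝ) (X : ℕ → ℝ*) : Prop where
  hA : 0 ≤ A
  hα : 0 ≤ α
  h1 : 0 ≤ β₁
  h2 : 0 < β₂
  h3 : 0 < β₃
  h4 : 0 ≤ β₄
  hB1 : 0 < B₁
  hB4 : 0 < B₄
  hpos : 0 < A + β₁ + β₄
  nn : ∀ m, 0 ≤ X m
  le : ∀ m, X m ≤ X 0
  inf : Inf (X 0)
  low : ∃ c0 : ℝ, 0 < c0 ∧ ∀ m, (c0 : ℝ*) ≤ A + B₁ * X (m + 1) + B₄ * X (m + 4)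
  eq : ∀ m, X m * (A + B₁ * X (m + 1) + B₄ * X (m + 4)) =
    α + β₁ * X (m + 1) + β₂ * X (m + 2) + β₃ * X (m + 3) + β₄ * X (m + 4)

/-- finiteness of one of two terms multiplied by a large number -/
lemma fn_pair {x z L y : ℝ*} (hx : 0 ≤ x) (hz : 0 ≤ z) (hL : Lg y L) (hy : Inf y)
    {B C a b c K : ℝ} (hB : 0 < B) (hC : 0 < C) (hK : 0 ≤ K)
    (h : x * ((B : ℝ*) * L) + z * ((C : ℝ*) * L) ≤ a + b * x + c * z + K * y) : Fn x := by
  obtain ⟨M, hM, hMle⟩ := hL.le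
  have hI := hL.inf hy
  refine Fn.of_mul hx hI hB (a := a) (β := b) (K := K * M) ?_
  have h1 : (c : ℝ*) ≤ (C : ℝ*) * L := by
    have := (hI (c / C)).le
    calc (c : ℝ*) = (C : ℝ*) * ((c / C : ℝ) : ℝ*) := by
          rw [← coe_mul]; congr 1; field_simp
      _ ≤ _ := mul_le_mul_of_nonneg_left this (coe_pos.2 hC).le
  have h2 : (c : ℝ*) * z ≤ z * ((C : ℝ*) * L) := by
    rw [mul_comm z]
    exact mul_le_mul_of_nonneg_right h1 hz
  have h3 := mul_le_mul_of_nonneg_left hMle (coe_nonneg.2 hK)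
  rw [coe_mul]
  calc x * ((B : ℝ*) * L) ≤ a + b * x + K * y := by linarith
    _ ≤ a + b * x + K * (M * L) := by linarith
    _ = a + b * x + K * M * L := by ring

lemma SysD.fin1 (S : SysD A α β₁ β₂ β₃ β₄ B₁ B₄ X) {m : ℕ} (hm : Lg (X 0) (X m)) :
    Fn (X (m + 1)) := by
  have hAs : (0 : ℝ*) ≤ A := coe_nonneg.2 S.hA
  refine fn_pair (S.nn (m + 1)) (S.nn (m + 4)) hm S.inf S.hB1 S.hB4 (a := α) (b := β₁) (c := β₄)
    (K := β₂ + β₃) (by have := S.h2; have := S.h3; positivity) ?_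
  have e := S.eq m
  have h1 := mul_nonneg (S.nn m) hAs
  have h2 := mul_le_mul_of_nonneg_left (S.le (m + 2)) (coe_pos.2 S.h2).le
  have h3 := mul_le_mul_of_nonneg_left (S.le (m + 3)) (coe_pos.2 S.h3).le
  rw [coe_add]
  nlinarith

lemma SysD.fin4 (S : SysD A α β₁ β₂ β₃ β₄ B₁ B₄ X) {m : ℕ} (hm : Lg (X 0) (X m)) :
    Fn (X (m + 4)) := by
  have hAs : (0 : ℝ*) ≤ A := coe_nonneg.2 S.hA
  refine fn_pair (S.nn (m + 4)) (S.nn (m + 1)) hm S.inf S.hB4 S.hB1 (a := α) (b := β₄) (c := β₁)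
    (K := β₂ + β₃) (by have := S.h2; have := S.h3; positivity) ?_
  have e := S.eq m
  have h1 := mul_nonneg (S.nn m) hAs
  have h2 := mul_le_mul_of_nonneg_left (S.le (m + 2)) (coe_pos.2 S.h2).le
  have h3 := mul_le_mul_of_nonneg_left (S.le (m + 3)) (coe_pos.2 S.h3).le
  rw [coe_add]
  nlinarith

/-- propagation of the pattern -/
lemma SysD.pat (S : SysD A α β₁ β₂ β₃ β₄ B₁ B₄ X) {j : ℕ} (h0 : Lg (X 0) (X j))
    (h2 : Lg (X 0) (X (j + 2))) : Lg (X 0) (X (j + 5)) ∧ Lg (X 0) (X (j + 7)) := by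
  obtain ⟨c0, hc0, hlow⟩ := S.low
  obtain ⟨r4, hr4⟩ := S.fin4 h0
  obtain ⟨r3, hr3⟩ := S.fin1 h2
  obtain ⟨r6, hr6⟩ := S.fin4 h2
  have e3 : j + 2 + 1 = j + 3 := by ring
  have e6 : j + 2 + 4 = j + 6 := by ring
  rw [e3] at hr3
  rw [e6] at hr6
  have b1 : (0 : ℝ*) ≤ β₁ := coe_nonneg.2 S.h1
  have b2 : (0 : ℝ*) < β₂ := coe_pos.2 S.h2
  have b3 : (0 : ℝ*) < β₃ := coe_pos.2 S.h3
  have b4 : (0 : ℝ*) ≤ β₄ := coe_nonneg.2 S.h4
  have hL5 : Lg (X 0) (X (j + 5)) := by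
    refine h2.prop S.inf hc0 S.h3 (r := α + β₁ * r3 + β₂ * r4 + β₄ * r6) ?_
    have e := S.eq (j + 2)
    have hw := mul_le_mul_of_nonneg_left (hlow (j + 2)) (S.nn (j + 2))
    have e4 : j + 2 + 2 = j + 4 := by ring
    have e5 : j + 2 + 3 = j + 5 := by ring
    rw [e3, e4, e5, e6] at e
    rw [e3, e6] at hw
    have m1 := mul_le_mul_of_nonneg_left hr3 b1
    have m2 := mul_le_mul_of_nonneg_left hr4 b2.le
    have m3 := mul_le_mul_of_nonneg_left hr6 b4
    rw [coe_add, coe_add, coe_add, coe_mul, coe_mul, coe_mul]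
    linarith
  refine ⟨hL5, ?_⟩
  have hr3' : X (j + 3) ≤ ((max r3 1 : ℝ) : ℝ*) := hr3.trans (coe_le_coe.2 (le_max_left _ _))
  have hmx : 0 < max r3 1 := lt_of_lt_of_le one_pos (le_max_right _ _)
  refine hL5.prop S.inf S.h2 (K := max r3 1 * B₄) (mul_pos hmx S.hB4)
    (r := max r3 1 * (A + B₁ * r4)) ?_
  have e := S.eq (j + 3)
  have f4 : j + 3 + 1 = j + 4 := by ring
  have f5 : j + 3 + 2 = j + 5 := by ring
  have f7 : j + 3 + 4 = j + 7 := by ring
  rw [f4, f5, f7] at e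
  have hd := hlow (j + 3)
  rw [f4, f7] at hd
  have hd0 : (0 : ℝ*) ≤ A + B₁ * X (j + 4) + B₄ * X (j + 7) := (coe_pos.2 hc0).le.trans hd
  have m1 := mul_le_mul_of_nonneg_right hr3' hd0
  have k1 := mul_nonneg b1 (S.nn (j + 4))
  have k3 := mul_nonneg b3.le (S.nn (j + 3 + 3))
  have k4 := mul_nonneg b4 (S.nn (j + 7))
  have k6 : (0 : ℝ*) ≤ α := coe_nonneg.2 S.hα
  have m2 := mul_le_mul_of_nonneg_left hr4 (coe_pos.2 S.hB1).le
  have m3 : ((max r3 1 : ℝ) : ℝ*) * (A + B₁ * X (j + 4) + B₄ * X (j + 7)) ≤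
      ((max r3 1 : ℝ) : ℝ*) * (A + B₁ * r4 + B₄ * X (j + 7)) := by
    apply mul_le_mul_of_nonneg_left _ (coe_pos.2 hmx).le
    linarith
  rw [coe_mul, coe_mul, coe_add, coe_mul]
  calc (β₂ : ℝ*) * X (j + 5) ≤ X (j + 3) * (A + B₁ * X (j + 4) + B₄ * X (j + 7)) := by
        rw [e]; linarith
    _ ≤ ((max r3 1 : ℝ) : ℝ*) * (A + B₁ * r4 + B₄ * X (j + 7)) := m1.trans m3
    _ = ((max r3 1 : ℝ) : ℝ*) * (A + B₁ * r4) + ((max r3 1 : ℝ) : ℝ*) * B₄ * X (j + 7) := by
        ring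

/-- positive standard part of a quotient of two large numbers -/
lemma ratio_st {x z y : ℝ*} (hx : Lg y x) (hz : Lg y z) (hy : Inf y) (hxy : x ≤ y)
    (hzy : z ≤ y) : ∃ ρ : ℝ, 0 < ρ ∧ IsSt (x / z) ρ ∧ IsSt (z / x) (1 / ρ) := by
  have px := (hx.inf hy).pos
  have pz := (hz.inf hy).pos
  obtain ⟨ρ, hρ0, hρ⟩ := (Fn.div hz hy hxy).st (div_nonneg px.le pz.le)
  obtain ⟨ρ', hρ'0, hρ'⟩ := (Fn.div hx hy hzy).st (div_nonneg pz.le px.le)
  have hprod : ρ * ρ' = 1 := by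
    have := St.mul hρ hρ'
    have e : x / z * (z / x) = ((1 : ℝ) : ℝ*) := by
      rw [coe_one]; field_simp
    rw [e] at this
    exact St.unique this (St.const 1)
  have hρpos : 0 < ρ := by
    rcases hρ0.lt_or_eq with h | h
    · exact h
    · rw [← h] at hprod; simp at hprod
  refine ⟨ρ, hρpos, hρ, ?_⟩
  have : ρ' = 1 / ρ := by field_simp; linarith
  rw [← this]
  exact hρ'

/-- value `U` in terms of the preceding `V` -/
lemma SysD.sig (S : SysD A α β₁ β₂ β₃ β₄ B₁ B₄ X) {m : ℕ} (h0 : Lg (X 0) (X m))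
    (F2 : Fn (X (m + 2))) (h3 : Lg (X 0) (X (m + 3))) (h5 : Lg (X 0) (X (m + 5))) {ρ p : ℝ}
    (hρ : IsSt (X (m + 3) / X (m + 5)) ρ) (hp : IsSt (X (m + 4)) p) :
    ∃ σ : ℝ, 0 < σ ∧ IsSt (X m / X (m + 3)) σ ∧
      σ * (A + B₄ * p + B₁ / B₄ * (β₂ * ρ + β₄)) = β₃ := by
  have F1 := S.fin1 h0
  have F4 := S.fin4 h0
  have I3 := h3.inf S.inf
  have p3 := I3.pos
  have I5 := h5.inf S.inf
  have p5 := I5.pos
  obtain ⟨r, hr0, hr⟩ := F1.st (S.nn _)
  have F6 : Fn (X (m + 6)) := S.fin1 h5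
  have hB1 := S.hB1
  have hB4 := S.hB4
  have hre : B₄ * r = β₂ * ρ + β₄ := by
    have s0 : IsSt ((A : ℝ*) / X (m + 5)) 0 := (Fn.const A).div_inf (coe_nonneg.2 S.hA) I5
    have s1 : IsSt ((α : ℝ*) / X (m + 5)) 0 := (Fn.const α).div_inf (coe_nonneg.2 S.hα) I5
    have s2 : IsSt (X (m + 2) / X (m + 5)) 0 := F2.div_inf (S.nn _) I5
    have s4 : IsSt (X (m + 4) / X (m + 5)) 0 := F4.div_inf (S.nn _) I5
    have e : X (m + 1) * (A / X (m + 5) + B₁ * (X (m + 2) / X (m + 5)) + B₄) =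
        α / X (m + 5) + β₁ * (X (m + 2) / X (m + 5)) + β₂ * (X (m + 3) / X (m + 5)) +
          β₃ * (X (m + 4) / X (m + 5)) + β₄ := by
      have := S.eq (m + 1)
      have e1 : m + 1 + 1 = m + 2 := by ring
      have e2 : m + 1 + 2 = m + 3 := by ring
      have e3 : m + 1 + 3 = m + 4 := by ring
      have e4 : m + 1 + 4 = m + 5 := by ring
      rw [e1, e2, e3, e4] at this
      field_simp
      linarith
    have t1 := St.mul hr (St.add (St.add s0 (St.cmul B₁ s2)) (St.const B₄))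
    have t2 := St.add (St.add (St.add (St.add s1 (St.cmul β₁ s2)) (St.cmul β₂ hρ))
      (St.cmul β₃ s4)) (St.const β₄)
    rw [e] at t1
    have := St.unique t1 t2
    linarith
  obtain ⟨σ, hσ0, hσ, _⟩ := ratio_st h0 h3 S.inf (S.le _) (S.le _)
  refine ⟨σ, hσ0, hσ, ?_⟩
  have s1 : IsSt ((α : ℝ*) / X (m + 3)) 0 := (Fn.const α).div_inf (coe_nonneg.2 S.hα) I3
  have s2 : IsSt (X (m + 1) / X (m + 3)) 0 := F1.div_inf (S.nn _) I3
  have s3 : IsSt (X (m + 2) / X (m + 3)) 0 := F2.div_inf (S.nn _) I3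
  have s4 : IsSt (X (m + 4) / X (m + 3)) 0 := F4.div_inf (S.nn _) I3
  have e : X m / X (m + 3) * (A + B₁ * X (m + 1) + B₄ * X (m + 4)) =
      α / X (m + 3) + β₁ * (X (m + 1) / X (m + 3)) + β₂ * (X (m + 2) / X (m + 3)) + β₃ +
        β₄ * (X (m + 4) / X (m + 3)) := by
    have := S.eq m
    field_simp
    linarith
  have t1 := St.mul hσ (St.add (St.add (St.const A) (St.cmul B₁ hr)) (St.cmul B₄ hp))
  have t2 := St.add (St.add (St.add (St.add s1 (St.cmul β₁ s2)) (St.cmul β₂ s3)) (St.const β₃))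
    (St.cmul β₄ s4)
  rw [e] at t1
  have := St.unique t1 t2
  have e2 : B₁ / B₄ * (β₂ * ρ + β₄) = B₁ * r := by
    rw [← hre]; field_simp
  rw [e2]
  linarith

/-- data of one period -/
lemma SysD.per (S : SysD A α β₁ β₂ β₃ β₄ B₁ B₄ X) {j : ℕ} (h0 : Lg (X 0) (X j))
    (h2 : Lg (X 0) (X (j + 2))) : ∃ ρ ρ₁ p : ℝ, 0 < ρ ∧ 0 < ρ₁ ∧ 0 ≤ p ∧
      IsSt (X j / X (j + 2)) ρ ∧ IsSt (X (j + 5) / X (j + 7)) ρ₁ ∧ IsSt (X (j + 1)) p ∧
      ρ * (A + B₁ * p + B₄ / B₁ * (β₃ / ρ₁ + β₁)) = β₂ ∧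
      (∃ σ : ℝ, 0 < σ ∧ IsSt (X (j + 2) / X (j + 5)) σ ∧ p * (B₁ * σ + B₄) = β₁ * σ + β₄) := by
  obtain ⟨h5, h7⟩ := S.pat h0 h2
  have F1 := S.fin1 h0
  have F4 := S.fin4 h0
  have F3 : Fn (X (j + 3)) := S.fin1 h2
  have F6 : Fn (X (j + 6)) := S.fin4 h2
  have F8 : Fn (X (j + 8)) := S.fin1 h7
  have I2 := h2.inf S.inf
  have I5 := h5.inf S.inf
  have p2 := I2.pos
  have p5 := I5.pos
  have hB1 := S.hB1
  have hB4 := S.hB4
  obtain ⟨ρ, hρ0, hρ, _⟩ := ratio_st h0 h2 S.inf (S.le _) (S.le _)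
  obtain ⟨ρ₁, hρ1, hρ1s, hρ1i⟩ := ratio_st h5 h7 S.inf (S.le _) (S.le _)
  obtain ⟨p, hp0, hp⟩ := F1.st (S.nn _)
  obtain ⟨q, hq0, hq⟩ := F4.st (S.nn _)
  obtain ⟨σ, hσ0, hσ, hσi⟩ := ratio_st h2 h5 S.inf (S.le _) (S.le _)
  -- `q`
  have hqe : B₁ * q = β₁ + β₃ / ρ₁ := by
    have s0 : IsSt ((A : ℝ*) / X (j + 5)) 0 := (Fn.const A).div_inf (coe_nonneg.2 S.hA) I5
    have s1 : IsSt ((α : ℝ*) / X (j + 5)) 0 := (Fn.const α).div_inf (coe_nonneg.2 S.hα) I5
    have s6 : IsSt (X (j + 6) / X (j + 5)) 0 := F6.div_inf (S.nn _) I5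
    have s8 : IsSt (X (j + 8) / X (j + 5)) 0 := F8.div_inf (S.nn _) I5
    have e : X (j + 4) * (A / X (j + 5) + B₁ + B₄ * (X (j + 8) / X (j + 5))) =
        α / X (j + 5) + β₁ + β₂ * (X (j + 6) / X (j + 5)) + β₃ * (X (j + 7) / X (j + 5)) +
          β₄ * (X (j + 8) / X (j + 5)) := by
      have := S.eq (j + 4)
      have e1 : j + 4 + 1 = j + 5 := by ring
      have e2 : j + 4 + 2 = j + 6 := by ring
      have e3 : j + 4 + 3 = j + 7 := by ring
      have e4 : j + 4 + 4 = j + 8 := by ring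
      rw [e1, e2, e3, e4] at this
      field_simp
      linarith
    have t1 := St.mul hq (St.add (St.add s0 (St.const B₁)) (St.cmul B₄ s8))
    have t2 := St.add (St.add (St.add (St.add s1 (St.const β₁)) (St.cmul β₂ s6))
      (St.cmul β₃ hρ1i)) (St.cmul β₄ s8)
    rw [e] at t1
    have := St.unique t1 t2
    have e5 : β₃ / ρ₁ = β₃ * (1 / ρ₁) := by ring
    rw [e5]
    linarith
  refine ⟨ρ, ρ₁, p, hρ0, hρ1, hp0, hρ, hρ1s, hp, ?_, σ, hσ0, hσ, ?_⟩
  · have s1 : IsSt ((α : ℝ*) / X (j + 2)) 0 := (Fn.const α).div_inf (coe_nonneg.2 S.hα) I2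
    have s2 : IsSt (X (j + 1) / X (j + 2)) 0 := F1.div_inf (S.nn _) I2
    have s3 : IsSt (X (j + 3) / X (j + 2)) 0 := F3.div_inf (S.nn _) I2
    have s4 : IsSt (X (j + 4) / X (j + 2)) 0 := F4.div_inf (S.nn _) I2
    have e : X j / X (j + 2) * (A + B₁ * X (j + 1) + B₄ * X (j + 4)) =
        α / X (j + 2) + β₁ * (X (j + 1) / X (j + 2)) + β₂ + β₃ * (X (j + 3) / X (j + 2)) +
          β₄ * (X (j + 4) / X (j + 2)) := by
      have := S.eq j
      field_simp
      linarith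
    have t1 := St.mul hρ (St.add (St.add (St.const A) (St.cmul B₁ hp)) (St.cmul B₄ hq))
    have t2 := St.add (St.add (St.add (St.add s1 (St.cmul β₁ s2)) (St.const β₂))
      (St.cmul β₃ s3)) (St.cmul β₄ s4)
    rw [e] at t1
    have := St.unique t1 t2
    have e2 : B₄ / B₁ * (β₃ / ρ₁ + β₁) = B₄ * q := by
      rw [add_comm, ← hqe]; field_simp
    rw [e2]
    linarith
  · -- the middle value
    have s0 : IsSt ((A : ℝ*) / X (j + 5)) 0 := (Fn.const A).div_inf (coe_nonneg.2 S.hA) I5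
    have s1 : IsSt ((α : ℝ*) / X (j + 5)) 0 := (Fn.const α).div_inf (coe_nonneg.2 S.hα) I5
    have s3 : IsSt (X (j + 3) / X (j + 5)) 0 := F3.div_inf (S.nn _) I5
    have s4 : IsSt (X (j + 4) / X (j + 5)) 0 := F4.div_inf (S.nn _) I5
    have e : X (j + 1) * (A / X (j + 5) + B₁ * (X (j + 2) / X (j + 5)) + B₄) =
        α / X (j + 5) + β₁ * (X (j + 2) / X (j + 5)) + β₂ * (X (j + 3) / X (j + 5)) +
          β₃ * (X (j + 4) / X (j + 5)) + β₄ := by
      have := S.eq (j + 1)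
      have e1 : j + 1 + 1 = j + 2 := by ring
      have e2 : j + 1 + 2 = j + 3 := by ring
      have e3 : j + 1 + 3 = j + 4 := by ring
      have e4 : j + 1 + 4 = j + 5 := by ring
      rw [e1, e2, e3, e4] at this
      field_simp
      linarith
    have t1 := St.mul hp (St.add (St.add s0 (St.cmul B₁ hσ)) (St.const B₄))
    have t2 := St.add (St.add (St.add (St.add s1 (St.cmul β₁ hσ)) (St.cmul β₂ s3))
      (St.cmul β₃ s4)) (St.const β₄)
    rw [e] at t1
    have := St.unique t1 t2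
    linarith

theorem SysD.false (S : SysD A α β₁ β₂ β₃ β₄ B₁ B₄ X) : False := by
  obtain ⟨c0, hc0, hlow⟩ := S.low
  have b1 : (0 : ℝ*) ≤ β₁ := coe_nonneg.2 S.h1
  have b2 : (0 : ℝ*) < β₂ := coe_pos.2 S.h2
  have b3 : (0 : ℝ*) < β₃ := coe_pos.2 S.h3
  have b4 : (0 : ℝ*) ≤ β₄ := coe_nonneg.2 S.h4
  have k6 : (0 : ℝ*) ≤ α := coe_nonneg.2 S.hα
  have g2 := S.h2
  have g3 := S.h3
  have hB1 := S.hB1
  have hB4 := S.hB4
  have hcc : B₁ / B₄ * (B₄ / B₁) = 1 := by field_simp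
  have F1 : Fn (X 1) := S.fin1 (Lg.refl (X 0))
  have F4 : Fn (X 4) := S.fin4 (Lg.refl (X 0))
  have prop : ∀ j, Lg (X 0) (X j) → Lg (X 0) (X (j + 2)) → ∀ i : ℕ,
      Lg (X 0) (X (j + 5 * i)) ∧ Lg (X 0) (X (j + 5 * i + 2)) := by
    intro j h0 h1 i
    induction i with
    | zero => exact ⟨h0, h1⟩
    | succ i ih =>
      have := S.pat ih.1 ih.2
      have e1 : j + 5 * (i + 1) = j + 5 * i + 5 := by ring
      rw [e1]
      exact this
  have altI : Lg (X 0) (X 2) → False := by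
    intro h
    obtain ⟨ρ, ρ₁, p, hρ, hρ1, hp, sρ, sρ1, sp, hr, _⟩ := S.per (j := 0) (Lg.refl _) h
    obtain ⟨h5, h7⟩ := S.pat (j := 0) (Lg.refl _) h
    simp only [zero_add] at sρ sρ1 h5 h7
    obtain ⟨p', hp', sp'⟩ := (S.fin1 h5).st (S.nn _)
    obtain ⟨σ, hσ0, hσ, hσe⟩ := S.sig (m := 2) h F4 h5 h7 sρ1 sp'
    have I2 := (h.inf S.inf).pos
    have I5 := (h5.inf S.inf).pos
    have t := St.mul sρ hσ
    have e : X 0 / X 2 * (X 2 / X (2 + 3)) = X 0 / X 5 := by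
      have e4 : 2 + 3 = 5 := rfl
      rw [e4]
      field_simp
    rw [e] at t
    have hge : (1 : ℝ*) ≤ X 0 / X 5 := (one_le_div I5).2 (S.le 5)
    have h1 := St.le (St.const 1) t (by rw [coe_one]; exact hge)
    exact alt_one S.hA g2 g3 (div_pos hB1 hB4) (div_pos hB4 hB1) hcc S.h4 S.h1 hρ1
      (mul_nonneg hB4.le hp') (mul_nonneg hB1.le hp) (by have := S.hpos; linarith) hr hσe hσ0 h1
  have altII : Lg (X 0) (X 3) → Lg (X 0) (X 5) → False := by
    intro h3 h5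
    have hp := prop 3 h3 (by simpa using h5)
    have hper := fun i => S.per (hp i).1 (hp i).2
    choose ρ ρ₁ p hρ hρ1 hp0 sρ sρ1 sp hr hσ using hper
    have hρe : ∀ i, ρ₁ i = ρ (i + 1) := by
      intro i
      have h1 := sρ1 i
      have h2 := sρ (i + 1)
      have e1 : 3 + 5 * (i + 1) = 3 + 5 * i + 5 := by ring
      have e2 : 3 + 5 * (i + 1) + 2 = 3 + 5 * i + 7 := by ring
      rw [e1] at h2
      exact St.unique h1 h2
    obtain ⟨σ, hσ0, hσs, hσe⟩ := S.sig (m := 0) (ρ := ρ 0) (p := p 0) (Lg.refl _)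
      (by
        -- `X 2` is finite
        have hF : Fn (X 2) := by
          have hAs : (0 : ℝ*) ≤ A := coe_nonneg.2 S.hA
          obtain ⟨K, hK, hKle⟩ := h3.le
          refine Fn.of_mul (S.nn _) (h3.inf S.inf) hB1 (a := α) (β := 0)
            (K := β₁ + β₂ * K + β₃ * K + β₄ * K) ?_
          have e := S.eq 2
          simp only [Nat.reduceAdd] at e
          have m2 := mul_le_mul_of_nonneg_left ((S.le 4).trans hKle) b2.le
          have m3 := mul_le_mul_of_nonneg_left ((S.le 5).trans hKle) b3.le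
          have m4 := mul_le_mul_of_nonneg_left ((S.le 6).trans hKle) b4
          have m5 := mul_nonneg (S.nn 2) hAs
          have m6 := mul_nonneg (S.nn 2) (mul_nonneg (coe_pos.2 hB4).le (S.nn 6))
          rw [coe_add, coe_add, coe_add, coe_mul, coe_mul, coe_mul, coe_zero]
          nlinarith
        simpa using hF)
      (by simpa using h3) (by simpa using h5) (by simpa using sρ 0) (by simpa using sp 0)
    have I3 := (h3.inf S.inf).pos
    have I5 := (h5.inf S.inf).pos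
    have t := St.mul hσs (sρ 0)
    have e : X 0 / X (0 + 3) * (X (3 + 5 * 0) / X (3 + 5 * 0 + 2)) = X 0 / X 5 := by
      simp only [zero_add, mul_zero, add_zero, Nat.reduceAdd]
      field_simp
    rw [e] at t
    have hge : (1 : ℝ*) ≤ X 0 / X 5 := (one_le_div I5).2 (S.le 5)
    have h1 := St.le (St.const 1) t (by rw [coe_one]; exact hge)
    -- positivity of the middle value
    obtain ⟨σ0, hσ00, _, hpe⟩ := hσ 0
    have hmid : 0 < A + B₄ * p 0 + B₁ / B₄ * β₄ := by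
      have q1 : 0 ≤ B₄ * p 0 := mul_nonneg hB4.le (hp0 0)
      have q2 : 0 ≤ B₁ / B₄ * β₄ := mul_nonneg (div_pos hB1 hB4).le S.h4
      rcases S.hA.lt_or_eq with h | h
      · linarith
      · rcases S.h4.lt_or_eq with h' | h'
        · have : 0 < B₁ / B₄ * β₄ := mul_pos (div_pos hB1 hB4) h'
          linarith
        · have h'' : 0 < β₁ := by have := S.hpos; linarith
          have : 0 < p 0 := by
            rcases (hp0 0).lt_or_eq with hh | hh
            · exact hh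
            · rw [← hh] at hpe
              have : 0 < β₁ * σ0 := by positivity
              linarith [S.h4]
          have : 0 < B₄ * p 0 := by positivity
          linarith
    refine alt_two (ρ := ρ) (m' := fun k => B₁ * p k) (m := B₄ * p 0) S.hA g2 g3
      (div_pos hB1 hB4) (div_pos hB4 hB1) hcc S.h4 S.h1 hρ (mul_nonneg hB4.le (hp0 0))
      (fun k => mul_nonneg hB1.le (hp0 k)) ?_ hσe h1 hmid ?_
    · intro k
      have := hr k
      rw [hρe k] at this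
      exact this
    · intro _
      rcases (add_nonneg S.hA (mul_nonneg (div_pos hB4 hB1).le S.h1)).lt_or_eq with h | h
      · refine ⟨A + B₄ / B₁ * β₁, h, fun k => ?_⟩
        have := mul_nonneg hB1.le (hp0 k)
        linarith
      · -- `A = β₁ = 0`, `β₄ > 0`
        have hA0 : A = 0 := by
          have := mul_nonneg (div_pos hB4 hB1).le S.h1
          have := S.hA
          linarith
        have hb10 : β₁ = 0 := by
          have h7 : B₄ / B₁ * β₁ = 0 := by rw [hA0] at h; linarith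
          rcases mul_eq_zero.1 h7 with h8 | h8
          · exact absurd h8 (div_pos hB4 hB1).ne'
          · exact h8
        have hb4 : 0 < β₄ := by
          have := S.hpos
          rw [hA0, hb10] at this
          linarith
        -- bound for `σ`
        have hσb : ∀ k, ∃ s : ℝ, 0 < s ∧ s ≤ β₃ * B₄ / (B₁ * β₄) ∧
            p k * (B₁ * s + B₄) = β₁ * s + β₄ := by
          intro k
          obtain ⟨s, hs0, hs, hse⟩ := hσ k
          refine ⟨s, hs0, ?_, hse⟩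
          -- `sig` at the position of `U`
          have hL5 : Lg (X 0) (X (3 + 5 * k + 2 + 3)) := by
            have := (hp (k + 1)).1
            have e1 : 3 + 5 * (k + 1) = 3 + 5 * k + 2 + 3 := by ring
            rw [e1] at this
            exact this
          have hL7 : Lg (X 0) (X (3 + 5 * k + 2 + 5)) := by
            have := (hp (k + 1)).2
            have e1 : 3 + 5 * (k + 1) + 2 = 3 + 5 * k + 2 + 5 := by ring
            rw [e1] at this
            exact this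
          have F4' : Fn (X (3 + 5 * k + 2 + 2)) := by
            have := S.fin4 (hp k).1
            have e1 : 3 + 5 * k + 4 = 3 + 5 * k + 2 + 2 := by ring
            rw [e1] at this
            exact this
          have hsρ : IsSt (X (3 + 5 * k + 2 + 3) / X (3 + 5 * k + 2 + 5)) (ρ (k + 1)) := by
            have := sρ (k + 1)
            have e1 : 3 + 5 * (k + 1) = 3 + 5 * k + 2 + 3 := by ring
            have e2 : 3 + 5 * (k + 1) + 2 = 3 + 5 * k + 2 + 5 := by ring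
            rw [e2, e1] at this
            exact this
          have hsp : IsSt (X (3 + 5 * k + 2 + 4)) (p (k + 1)) := by
            have := sp (k + 1)
            have e1 : 3 + 5 * (k + 1) + 1 = 3 + 5 * k + 2 + 4 := by ring
            rw [e1] at this
            exact this
          obtain ⟨s', hs'0, hs', hs'e⟩ := S.sig (hp k).2 F4' hL5 hL7 hsρ hsp
          have hss : s = s' := by
            have e1 : 3 + 5 * k + 5 = 3 + 5 * k + 2 + 3 := by ring
            rw [e1] at hs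
            exact St.unique hs hs'
          rw [hss]
          rw [le_div_iff₀ (by positivity)]
          have h9 : s' * (B₁ / B₄ * β₄) ≤ β₃ := by
            rw [← hs'e]
            apply mul_le_mul_of_nonneg_left _ hs'0.le
            have := mul_nonneg hB4.le (hp0 (k + 1))
            have h10 : 0 ≤ B₁ / B₄ * (β₂ * ρ (k + 1)) := by
              have := hρ (k + 1)
              positivity
            have e : B₁ / B₄ * (β₂ * ρ (k + 1) + β₄) =
                B₁ / B₄ * (β₂ * ρ (k + 1)) + B₁ / B₄ * β₄ := by ring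
            rw [e, hA0]
            linarith
          have h11 := mul_le_mul_of_nonneg_right h9 hB4.le
          have e : s' * (B₁ / B₄ * β₄) * B₄ = s' * (B₁ * β₄) := by field_simp
          rw [e] at h11
          exact h11
        set T := β₃ * B₄ / (B₁ * β₄) with hT
        have hTpos : 0 < T := by positivity
        refine ⟨B₁ * (β₄ / (B₁ * T + B₄)), by positivity, fun k => ?_⟩
        obtain ⟨s, hs0, hsT, hse⟩ := hσb k
        have h12 : β₄ / (B₁ * T + B₄) ≤ p k := by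
          rw [div_le_iff₀ (by positivity)]
          rw [hb10, zero_mul, zero_add] at hse
          rw [← hse]
          apply mul_le_mul_of_nonneg_left _ (hp0 k)
          have := mul_le_mul_of_nonneg_left hsT hB1.le
          linarith
        have := mul_le_mul_of_nonneg_left h12 hB1.le
        rw [hA0, hb10]
        linarith
  -- the alternatives
  obtain ⟨r1, hr1⟩ := F1
  obtain ⟨r4, hr4⟩ := F4
  have e := S.eq 0
  have hw := mul_le_mul_of_nonneg_left (hlow 0) (S.nn 0)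
  simp only [zero_add] at e hw
  have m1 := mul_le_mul_of_nonneg_left hr1 b1
  have m4 := mul_le_mul_of_nonneg_left hr4 b4
  have two : ((2 : ℝ) : ℝ*) = 2 := rfl
  rcases le_total (β₂ * X 2) (β₃ * X 3) with h | h
  · have h3 : Lg (X 0) (X 3) := by
      refine (Lg.refl (X 0)).prop S.inf hc0 (K := 2 * β₃) (by positivity)
        (r := α + β₁ * r1 + β₄ * r4) ?_
      rw [coe_add, coe_add, coe_mul, coe_mul, coe_mul, two]
      linarith
    -- `X 1` finite forces `X 2` or `X 5` large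
    have hr1' : X 1 ≤ ((max r1 1 : ℝ) : ℝ*) := hr1.trans (coe_le_coe.2 (le_max_left _ _))
    have hmx : 0 < max r1 1 := lt_of_lt_of_le one_pos (le_max_right _ _)
    have hmxs : (0 : ℝ*) < ((max r1 1 : ℝ) : ℝ*) := coe_pos.2 hmx
    have e1 := S.eq 1
    have hd := hlow 1
    simp only [Nat.reduceAdd] at e1 hd
    have hd0 : (0 : ℝ*) ≤ A + B₁ * X 2 + B₄ * X 5 := (coe_pos.2 hc0).le.trans hd
    have q1 := mul_le_mul_of_nonneg_right hr1' hd0
    have k1 := mul_nonneg b1 (S.nn 2)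
    have k3 := mul_nonneg b3.le (S.nn 4)
    have k4 := mul_nonneg b4 (S.nn 5)
    have q2 : (β₂ : ℝ*) * X 3 ≤ ((max r1 1 : ℝ) : ℝ*) * (A + B₁ * X 2 + B₄ * X 5) := by
      linarith
    rcases le_total (B₁ * X 2) (B₄ * X 5) with h' | h'
    · have h5 : Lg (X 0) (X 5) := by
        refine h3.prop S.inf g2 (K := max r1 1 * (2 * B₄)) (by positivity)
          (r := max r1 1 * A) ?_
        have q3 := mul_le_mul_of_nonneg_left h' hmxs.le
        rw [coe_mul, coe_mul, coe_mul, two]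
        nlinarith
      exact altII h3 h5
    · have h2 : Lg (X 0) (X 2) := by
        refine h3.prop S.inf g2 (K := max r1 1 * (2 * B₁)) (by positivity)
          (r := max r1 1 * A) ?_
        have q3 := mul_le_mul_of_nonneg_left h' hmxs.le
        rw [coe_mul, coe_mul, coe_mul, two]
        nlinarith
      exact altI h2
  · have h2 : Lg (X 0) (X 2) := by
      refine (Lg.refl (X 0)).prop S.inf hc0 (K := 2 * β₂) (by positivity)
        (r := α + β₁ * r1 + β₄ * r4) ?_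
      rw [coe_add, coe_add, coe_mul, coe_mul, coe_mul, two]
      linarith
    exact altI h2

end

/-- `([α +] [β₁ x_{n-1} +] β₂ x_{n-2} + β₃ x_{n-3} [+ β₄ x_{n-4}]) /
([A +] B₁ x_{n-1} + B₄ x_{n-4})` -/
theorem bdd_neutD (P Q : ℕ) (h2 : P.testBit 2 = true) (h3 : P.testBit 3 = true)
    (k1 : Q.testBit 1 = true) (k4 : Q.testBit 4 = true)
    (k2 : Q.testBit 2 = false) (k3 : Q.testBit 3 = false)
    (hor : Q.testBit 0 = true ∨ (P.testBit 1 = true ∧ P.testBit 4 = true)) : BddM P Q := by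
  intro b c hb hc x hx
  by_contra hu
  obtain ⟨X, hX⟩ := star_of_unbounded hx hu
  have hlc : ∀ m, linS c X m = c 0 + c 1 * X (m + 1) + c 4 * X (m + 4) := by
    intro m
    unfold linS
    rw [hc.zero (by norm_num) k2, hc.zero (by norm_num) k3, coe_zero]
    ring
  have heq : ∀ m, X m * (c 0 + c 1 * X (m + 1) + c 4 * X (m + 4)) =
      b 0 + b 1 * X (m + 1) + b 2 * X (m + 2) + b 3 * X (m + 3) + b 4 * X (m + 4) := by
    intro m
    rw [← hlc]
    exact hX.eq m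
  have n1 : (0 : ℝ*) < c 1 := coe_pos.2 (hc.pos (by norm_num) k1)
  have n4 : (0 : ℝ*) < c 4 := coe_pos.2 (hc.pos (by norm_num) k4)
  have S : SysD (c 0) (b 0) (b 1) (b 2) (b 3) (b 4) (c 1) (c 4) X := by
    refine ⟨hc.nonneg (by norm_num), hb.nonneg (by norm_num), hb.nonneg (by norm_num),
      hb.pos (by norm_num) h2, hb.pos (by norm_num) h3, hb.nonneg (by norm_num),
      hc.pos (by norm_num) k1, hc.pos (by norm_num) k4, ?_, hX.nonneg, hX.le, hX.inf, ?_, heq⟩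
    · have g0 := hc.nonneg (i := 0) (by norm_num)
      have g1 := hb.nonneg (i := 1) (by norm_num)
      have g4 := hb.nonneg (i := 4) (by norm_num)
      rcases hor with h | ⟨h, _⟩
      · have := hc.pos (i := 0) (by norm_num) h
        linarith
      · have := hb.pos (i := 1) (by norm_num) h
        linarith
    · rcases hor with h | ⟨h, h'⟩
      · refine ⟨c 0, hc.pos (by norm_num) h, fun m => ?_⟩
        have := mul_nonneg n1.le (hX.nonneg (m + 1))
        have := mul_nonneg n4.le (hX.nonneg (m + 4))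
        linarith
      · have g1 := hb.pos (i := 1) (by norm_num) h
        have g4 := hb.pos (i := 4) (by norm_num) h'
        have c1 := hc.pos (i := 1) (by norm_num) k1
        have c4 := hc.pos (i := 4) (by norm_num) k4
        rcases (hc.nonneg (i := 0) (by norm_num)).lt_or_eq with hA | hA
        · refine ⟨c 0, hA, fun m => ?_⟩
          have := mul_nonneg n1.le (hX.nonneg (m + 1))
          have := mul_nonneg n4.le (hX.nonneg (m + 4))
          linarith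
        · -- every term is at least `μ`
          set μ := min (b 1 / c 1) (b 4 / c 4) with hμ
          have hμ0 : 0 < μ := lt_min (div_pos g1 c1) (div_pos g4 c4)
          have m1 : μ * c 1 ≤ b 1 := by
            have := min_le_left (b 1 / c 1) (b 4 / c 4)
            rwa [← hμ, le_div_iff₀ c1] at this
          have m4 : μ * c 4 ≤ b 4 := by
            have := min_le_right (b 1 / c 1) (b 4 / c 4)
            rwa [← hμ, le_div_iff₀ c4] at this
          have hge : ∀ m, (μ : ℝ*) ≤ X m := by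
            intro m
            have hd := hX.dpos m
            rw [hlc] at hd
            refine le_of_mul_le_mul_right ?_ hd
            rw [heq m, ← hA, coe_zero, zero_add]
            have q1 := mul_le_mul_of_nonneg_right (coe_le_coe.2 m1) (hX.nonneg (m + 1))
            have q4 := mul_le_mul_of_nonneg_right (coe_le_coe.2 m4) (hX.nonneg (m + 4))
            have z0 : (0 : ℝ*) ≤ b 0 := coe_nonneg.2 (hb.nonneg (by norm_num))
            have z2 := mul_nonneg (coe_nonneg.2 (hb.nonneg (i := 2) (by norm_num)))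
              (hX.nonneg (m + 2))
            have z3 := mul_nonneg (coe_nonneg.2 (hb.nonneg (i := 3) (by norm_num)))
              (hX.nonneg (m + 3))
            rw [coe_mul] at q1 q4
            linarith
          refine ⟨c 1 * μ, by positivity, fun m => ?_⟩
          have q1 := mul_le_mul_of_nonneg_left (hge (m + 1)) n1.le
          have := mul_nonneg n4.le (hX.nonneg (m + 4))
          rw [coe_mul, ← hA, coe_zero]
          linarith
  exact S.false

end Pool.Agent.H299.RDE
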