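import Pool.Agent.H299.RDE.Defs
import Pool.Agent.H299.RDE.Checker

/-!
# Solutions of the order four recurrence and their logarithms
-/

namespace Pool.Agent.H299.RDE

/-- the linear form of order four, coefficients indexed by `ℕ` -/
noncomputable def lin4 (b : ℕ → ℝ) (x : ℕ → ℝ) (n : ℕ) : ℝ :=
  b 0 + b 1 * x (n + 3) + b 2 * x (n + 2) + b 3 * x (n + 1) + b 4 * x n

/-- support described by a bit mask -/
def Supp (P : ℕ) (b : ℕ → ℝ) : Prop :=
  ∀ i, i ≤ 4 → (P.testBit i = true → 0 < b i) ∧ (P.testBit i = false → b i = 0)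

/-- positive solutions -/
structure PSol (b c : ℕ → ℝ) (x : ℕ → ℝ) : Prop where
  pos : ∀ n, 0 < x n
  eq : ∀ n, x (n + 4) = lin4 b x n / lin4 c x n

/-- nonnegative solutions -/
structure NSol (b c : ℕ → ℝ) (x : ℕ → ℝ) : Prop where
  nonneg : ∀ n, 0 ≤ x n
  dpos : ∀ n, 0 < lin4 c x n
  eq : ∀ n, x (n + 4) = lin4 b x n / lin4 c x n

/-- `b_i x_{r-i}` with the convention `x_{r-0} = 1`. -/
noncomputable def term (b : ℕ → ℝ) (x : ℕ → ℝ) (r i : ℕ) : ℝ :=
  b i * (match i with
    | 0 => 1
    | i + 1 => x (r - (i + 1)))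

lemma Supp.nonneg {P : ℕ} {b : ℕ → ℝ} (h : Supp P b) {i : ℕ} (hi : i ≤ 4) : 0 ≤ b i := by
  rcases hP : P.testBit i with _ | _
  · exact ((h i hi).2 hP).ge
  · exact ((h i hi).1 hP).le

lemma term_nonneg {P : ℕ} {b x : ℕ → ℝ} (h : Supp P b) (hx : ∀ n, 0 ≤ x n) (r : ℕ) {i : ℕ}
    (hi : i ≤ 4) : 0 ≤ term b x r i := by
  unfold term
  refine mul_nonneg (h.nonneg hi) ?_
  cases i with
  | zero => norm_num
  | succ i => exact hx _

lemma lin4_eq (b x : ℕ → ℝ) {r : ℕ} (hr : 4 ≤ r) :
    lin4 b x (r - 4) = term b x r 0 + term b x r 1 + term b x r 2 + term b x r 3 +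
      term b x r 4 := by
  obtain ⟨m, rfl⟩ := Nat.exists_eq_add_of_le hr
  have e1 : 4 + m - 4 = m := by omega
  have e2 : 4 + m - 1 = m + 3 := by omega
  have e3 : 4 + m - 2 = m + 2 := by omega
  have e4 : 4 + m - 3 = m + 1 := by omega
  simp only [lin4, term, e1, e2, e3, e4, mul_one, Nat.reduceAdd, zero_add]

lemma term_zero {P : ℕ} {b : ℕ → ℝ} (h : Supp P b) (x : ℕ → ℝ) (r : ℕ) {i : ℕ} (hi : i ≤ 4)
    (hP : P.testBit i = false) : term b x r i = 0 := by
  unfold term
  rw [(h i hi).2 hP, zero_mul]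

lemma term_le_lin4 {P : ℕ} {b x : ℕ → ℝ} (h : Supp P b) (hx : ∀ n, 0 ≤ x n) {r : ℕ}
    (hr : 4 ≤ r) {i : ℕ} (hi : i ≤ 4) : term b x r i ≤ lin4 b x (r - 4) := by
  rw [lin4_eq b x hr]
  have h0 := term_nonneg h hx r (i := 0) (by norm_num)
  have h1 := term_nonneg h hx r (i := 1) (by norm_num)
  have h2 := term_nonneg h hx r (i := 2) (by norm_num)
  have h3 := term_nonneg h hx r (i := 3) (by norm_num)
  have h4 := term_nonneg h hx r (i := 4) (by norm_num)
  interval_cases i <;> linarith

/-- number of terms, crudely -/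
noncomputable def tot (m : ℕ) : ℝ := if single m then 1 else 5

lemma tot_pos (m : ℕ) : 0 < tot m := by unfold tot; split_ifs <;> norm_num

lemma exists_max_term {P : ℕ} {b x : ℕ → ℝ} (h : Supp P b) (hx : ∀ n, 0 ≤ x n) {r : ℕ}
    (hr : 4 ≤ r) (hpos : 0 < lin4 b x (r - 4)) :
    ∃ i, i ≤ 4 ∧ P.testBit i = true ∧ lin4 b x (r - 4) ≤ tot P * term b x r i := by
  by_contra hcon
  push Not at hcon
  have key : ∀ i, i ≤ 4 → tot P * term b x r i < lin4 b x (r - 4) := by
    intro i hi
    rcases hP : P.testBit i with _ | _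
    · rw [term_zero h x r hi hP]
      simpa using hpos
    · exact hcon i hi hP
  rw [lin4_eq b x hr] at key
  rw [lin4_eq b x hr] at hpos
  unfold tot at key
  split_ifs at key with hs
  · have hz : ∀ i, i ≤ 4 → P.testBit i = false → term b x r i = 0 := fun i hi hP =>
      term_zero h x r hi hP
    simp only [single, Bool.or_eq_true, beq_iff_eq] at hs
    rcases hs with (((rfl | rfl) | rfl) | rfl) | rfl
    · have := key 0 (by norm_num)
      rw [hz 1 (by norm_num) (by decide), hz 2 (by norm_num) (by decide),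
        hz 3 (by norm_num) (by decide), hz 4 (by norm_num) (by decide)] at this
      linarith
    · have := key 1 (by norm_num)
      rw [hz 0 (by norm_num) (by decide), hz 2 (by norm_num) (by decide),
        hz 3 (by norm_num) (by decide), hz 4 (by norm_num) (by decide)] at this
      linarith
    · have := key 2 (by norm_num)
      rw [hz 0 (by norm_num) (by decide), hz 1 (by norm_num) (by decide),
        hz 3 (by norm_num) (by decide), hz 4 (by norm_num) (by decide)] at this
      linarith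
    · have := key 3 (by norm_num)
      rw [hz 0 (by norm_num) (by decide), hz 1 (by norm_num) (by decide),
        hz 2 (by norm_num) (by decide), hz 4 (by norm_num) (by decide)] at this
      linarith
    · have := key 4 (by norm_num)
      rw [hz 0 (by norm_num) (by decide), hz 1 (by norm_num) (by decide),
        hz 2 (by norm_num) (by decide), hz 3 (by norm_num) (by decide)] at this
      linarith
  · have k0 := key 0 (by norm_num)
    have k1 := key 1 (by norm_num)
    have k2 := key 2 (by norm_num)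
    have k3 := key 3 (by norm_num)
    have k4 := key 4 (by norm_num)
    linarith

lemma lin4_pos {P : ℕ} {b x : ℕ → ℝ} (h : Supp P b) (hP : ∃ i, i ≤ 4 ∧ P.testBit i = true)
    (hx : ∀ n, 0 < x n) (n : ℕ) : 0 < lin4 b x n := by
  obtain ⟨i, hi, hb⟩ := hP
  have h1 := term_le_lin4 h (fun n => (hx n).le) (r := n + 4) (by omega) hi
  have h2 : 0 < term b x (n + 4) i := by
    unfold term
    refine mul_pos ((h i hi).1 hb) ?_
    cases i with
    | zero => norm_num
    | succ i => exact hx _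
  simpa using h2.trans_le h1

lemma log_term {b x : ℕ → ℝ} (hx : ∀ n, 0 < x n) (r i : ℕ) (hb : 0 < b i) {K : ℝ} (hK : 0 < K) :
    Real.log (term b x r i) / K =
      Real.log (b i) / K + yi (fun n => Real.log (x n) / K) r i := by
  unfold term
  cases i with
  | zero => simp [yi]
  | succ i =>
    simp only [yi]
    rw [Real.log_mul hb.ne' (hx _).ne', add_div]

/-- The scaled logarithms of a positive solution satisfy the facts used by the checker. -/
theorem env_of_psol {C : Cfg} {b c x : ℕ → ℝ} {K : ℝ} (hK : 0 < K) (hb : Supp C.P b)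
    (hc : Supp C.Q c) (hP : ∃ i, i ≤ 4 ∧ C.P.testBit i = true)
    (hQ : ∃ i, i ≤ 4 ∧ C.Q.testBit i = true)
    (hbl : ∀ i, i ≤ 4 → C.P.testBit i = true → (C.bb i : ℝ) ≤ Real.log (b i) / K)
    (hbu : ∀ i, i ≤ 4 → C.P.testBit i = true →
      (Real.log (tot C.P) + Real.log (b i)) / K ≤ C.bb i + C.eP)
    (hcl : ∀ i, i ≤ 4 → C.Q.testBit i = true → (C.cc i : ℝ) ≤ Real.log (c i) / K)
    (hcu : ∀ i, i ≤ 4 → C.Q.testBit i = true →
      (Real.log (tot C.Q) + Real.log (c i)) / K ≤ C.cc i + C.eQ)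
    (hx : PSol b c x) :
    Env C (fun n => Real.log (x n) / K) (fun r => Real.log (lin4 b x (r - 4)) / K) := by
  have hx0 : ∀ n, 0 ≤ x n := fun n => (hx.pos n).le
  have hD : ∀ r, 4 ≤ r → Real.log (lin4 b x (r - 4)) / K - Real.log (x r) / K =
      Real.log (lin4 c x (r - 4)) / K := by
    intro r hr
    have h1 := hx.eq (r - 4)
    have e : r - 4 + 4 = r := by omega
    rw [e] at h1
    have hb' := lin4_pos hb hP hx.pos (r - 4)
    have hc' := lin4_pos hc hQ hx.pos (r - 4)
    rw [h1, Real.log_div hb'.ne' hc'.ne']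
    ring
  have low : ∀ (d : ℕ → ℝ) (M : ℕ), Supp M d → ∀ (l : ℕ → ℤ),
      (∀ i, i ≤ 4 → M.testBit i = true → (l i : ℝ) ≤ Real.log (d i) / K) →
      ∀ r, 4 ≤ r → ∀ i, i ≤ 4 → M.testBit i = true →
      (l i : ℝ) + yi (fun n => Real.log (x n) / K) r i ≤ Real.log (lin4 d x (r - 4)) / K := by
    intro d M hd l hl r hr i hi hM
    have hdi := (hd i hi).1 hM
    have h1 := term_le_lin4 hd hx0 hr hi
    have h2 : 0 < term d x r i := by
      unfold term
      refine mul_pos hdi ?_
      cases i with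
      | zero => norm_num
      | succ i => exact hx.pos _
    have h3 : Real.log (term d x r i) / K ≤ Real.log (lin4 d x (r - 4)) / K :=
      div_le_div_of_nonneg_right (Real.log_le_log h2 h1) hK.le
    rw [log_term hx.pos r i hdi hK] at h3
    have := hl i hi hM
    linarith
  have upp : ∀ (d : ℕ → ℝ) (M : ℕ), Supp M d → (∃ i, i ≤ 4 ∧ M.testBit i = true) →
      ∀ (l : ℕ → ℝ),
      (∀ i, i ≤ 4 → M.testBit i = true →
        (Real.log (tot M) + Real.log (d i)) / K ≤ l i) →
      ∀ r, 4 ≤ r → ∃ i, i ≤ 4 ∧ M.testBit i = true ∧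
      Real.log (lin4 d x (r - 4)) / K ≤ l i + yi (fun n => Real.log (x n) / K) r i := by
    intro d M hd hM l hl r hr
    obtain ⟨i, hi, hMi, hle⟩ := exists_max_term hd hx0 hr (lin4_pos hd hM hx.pos (r - 4))
    refine ⟨i, hi, hMi, ?_⟩
    have hdi := (hd i hi).1 hMi
    have h2 : 0 < term d x r i := by
      unfold term
      refine mul_pos hdi ?_
      cases i with
      | zero => norm_num
      | succ i => exact hx.pos _
    have h3 := Real.log_le_log (lin4_pos hd hM hx.pos (r - 4)) hle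
    rw [Real.log_mul (tot_pos _).ne' h2.ne'] at h3
    have h4 := div_le_div_of_nonneg_right h3 hK.le
    rw [add_div, log_term hx.pos r i hdi hK] at h4
    have := hl i hi hMi
    rw [add_div] at this
    linarith
  refine ⟨?_, ?_, ?_, ?_⟩
  · intro r hr i hi hP'
    exact low b C.P hb C.bb hbl r hr i hi hP'
  · intro r hr
    obtain ⟨i, hi, hPi, h⟩ := upp b C.P hb hP (fun i => C.bb i + C.eP) hbu r hr
    exact ⟨i, hi, hPi, by linarith⟩
  · intro r hr i hi hQ'
    rw [hD r hr]
    exact low c C.Q hc C.cc hcl r hr i hi hQ'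
  · intro r hr
    obtain ⟨i, hi, hQi, h⟩ := upp c C.Q hc hQ (fun i => C.cc i + C.eQ) hcu r hr
    refine ⟨i, hi, hQi, ?_⟩
    rw [hD r hr]
    linarith

end Pool.Agent.H299.RDE
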