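import Pool.Agent.H299.RDE.Cert

/-!
# Unbounded solutions seen from a record value at infinity

From an unbounded solution we obtain, in the hyperreal numbers, a sequence `X 0, X 1, …` (the
values at times `n, n-1, …` for an infinite record time `n`) which satisfies the recurrence,
whose first entry is infinite and which is bounded by the first entry.
-/

set_option linter.deprecated false

namespace Pool.Agent.H299.RDE

open Filter Topology Hyperreal

/-- linear form along the reversed sequence -/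
noncomputable def linS (b : ℕ → ℝ) (X : ℕ → ℝ*) (m : ℕ) : ℝ* :=
  (b 0 : ℝ*) + b 1 * X (m + 1) + b 2 * X (m + 2) + b 3 * X (m + 3) + b 4 * X (m + 4)

structure Star (b c : ℕ → ℝ) (X : ℕ → ℝ*) : Prop where
  nonneg : ∀ m, 0 ≤ X m
  le : ∀ m, X m ≤ X 0
  inf : ∀ r : ℝ, (r : ℝ*) < X 0
  dpos : ∀ m, 0 < linS c X m
  eq : ∀ m, X m * linS c X m = linS b X m

theorem star_of_unbounded {b c x : ℕ → ℝ} (hx : NSol b c x) (hu : ¬ ∃ M, ∀ n, x n ≤ M) :
    ∃ X : ℕ → ℝ*, Star b c X := by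
  classical
  push Not at hu
  have hex : ∀ l : ℕ, ∃ n, (l : ℝ) + ∑ i ∈ Finset.range (l + 1), x i < x n := fun l => hu _
  set N : ℕ → ℕ := fun l => Nat.find (hex l) with hN
  have h1 : ∀ l : ℕ, (l : ℝ) + ∑ i ∈ Finset.range (l + 1), x i < x (N l) := fun l =>
    Nat.find_spec (hex l)
  have h2 : ∀ l m : ℕ, m < N l → x m ≤ (l : ℝ) + ∑ i ∈ Finset.range (l + 1), x i := fun l m hm =>
    not_lt.1 (Nat.find_min (hex l) hm)
  have hS : ∀ l : ℕ, 0 ≤ ∑ i ∈ Finset.range (l + 1), x i := fun l =>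
    Finset.sum_nonneg fun i _ => hx.nonneg i
  have h3 : ∀ l, l < N l := by
    intro l
    by_contra h
    push Not at h
    have a1 := h1 l
    have := Finset.single_le_sum (f := x) (fun i _ => hx.nonneg i)
      (Finset.mem_range.2 (by omega : N l < l + 1))
    have : (0 : ℝ) ≤ l := Nat.cast_nonneg l
    linarith
  have h4 : ∀ l : ℕ, (l : ℝ) < x (N l) := by
    intro l
    have := h1 l
    have := hS l
    linarith
  have h5 : ∀ l m, m ≤ N l → x m ≤ x (N l) := by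
    intro l m hm
    rcases Nat.lt_or_eq_of_le hm with h | h
    · exact (h2 l m h).trans (h1 l).le
    · rw [h]
  refine ⟨fun m => ofSeq fun l => x (N l - m), ?_, ?_, ?_, ?_, ?_⟩
  · intro m
    exact ofSeq_le_ofSeq.2 (Eventually.of_forall fun l => hx.nonneg _)
  · intro m
    exact ofSeq_le_ofSeq.2 (Eventually.of_forall fun l => h5 l _ (by omega))
  · intro r
    have : ∀ᶠ l : ℕ in (hyperfilter ℕ : Filter ℕ), r < x (N l - 0) := by
      refine Nat.hyperfilter_le_atTop ?_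
      obtain ⟨K, hK⟩ := exists_nat_gt r
      refine (eventually_ge_atTop K).mono fun l hl => ?_
      have h6 : (K : ℝ) ≤ l := by exact_mod_cast hl
      have := h4 l
      simp only [Nat.sub_zero]
      linarith
    exact ofSeq_lt_ofSeq.2 this
  · intro m
    have : ∀ᶠ l : ℕ in (hyperfilter ℕ : Filter ℕ), 0 < lin4 c x (N l - m - 4) := by
      exact Eventually.of_forall fun l => hx.dpos _
    have hev : ∀ᶠ l : ℕ in (hyperfilter ℕ : Filter ℕ),
        (0 : ℝ) < c 0 + c 1 * x (N l - (m + 1)) + c 2 * x (N l - (m + 2)) +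
          c 3 * x (N l - (m + 3)) + c 4 * x (N l - (m + 4)) := by
      refine Nat.hyperfilter_le_atTop ((eventually_ge_atTop (m + 4)).mono fun l hl => ?_)
      have h7 := h3 l
      have h8 := hx.dpos (N l - (m + 4))
      unfold lin4 at h8
      have e1 : N l - (m + 4) + 3 = N l - (m + 1) := by omega
      have e2 : N l - (m + 4) + 2 = N l - (m + 2) := by omega
      have e3 : N l - (m + 4) + 1 = N l - (m + 3) := by omega
      rw [e1, e2, e3] at h8
      exact h8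
    exact ofSeq_lt_ofSeq.2 hev
  · intro m
    have hev : ∀ᶠ l : ℕ in (hyperfilter ℕ : Filter ℕ),
        x (N l - m) * (c 0 + c 1 * x (N l - (m + 1)) + c 2 * x (N l - (m + 2)) +
          c 3 * x (N l - (m + 3)) + c 4 * x (N l - (m + 4))) =
        b 0 + b 1 * x (N l - (m + 1)) + b 2 * x (N l - (m + 2)) +
          b 3 * x (N l - (m + 3)) + b 4 * x (N l - (m + 4)) := by
      refine Nat.hyperfilter_le_atTop ((eventually_ge_atTop (m + 4)).mono fun l hl => ?_)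
      have h7 := h3 l
      have h8 := hx.dpos (N l - (m + 4))
      have h9 := hx.eq (N l - (m + 4))
      rw [eq_div_iff h8.ne'] at h9
      unfold lin4 at h9
      have e0 : N l - (m + 4) + 4 = N l - m := by omega
      have e1 : N l - (m + 4) + 3 = N l - (m + 1) := by omega
      have e2 : N l - (m + 4) + 2 = N l - (m + 2) := by omega
      have e3 : N l - (m + 4) + 1 = N l - (m + 3) := by omega
      rw [e0, e1, e2, e3] at h9
      exact h9
    exact Germ.coe_eq.2 hev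

/-! ### Standard parts -/

lemma St.div {x y : ℝ*} {r s : ℝ} (hx : IsSt x r) (hy : IsSt y s) (hs : s ≠ 0) :
    IsSt (x / y) (r / s) := by
  rcases ofSeq_surjective x with ⟨f, rfl⟩
  rcases ofSeq_surjective y with ⟨g, rfl⟩
  rw [isSt_ofSeq_iff_tendsto] at hx hy
  exact isSt_ofSeq_iff_tendsto.2 (hx.div hy hs)

lemma St.mul {x y : ℝ*} {r s : ℝ} (hx : IsSt x r) (hy : IsSt y s) :
    IsSt (x * y) (r * s) := by
  rcases ofSeq_surjective x with ⟨f, rfl⟩
  rcases ofSeq_surjective y with ⟨g, rfl⟩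
  rw [isSt_ofSeq_iff_tendsto] at hx hy
  exact isSt_ofSeq_iff_tendsto.2 (hx.mul hy)

lemma St.add {x y : ℝ*} {r s : ℝ} (hx : IsSt x r) (hy : IsSt y s) :
    IsSt (x + y) (r + s) := IsSt.add hx hy

lemma St.const (r : ℝ) : IsSt (r : ℝ*) r := isSt_refl_real r

lemma St.cmul {x : ℝ*} {r : ℝ} (a : ℝ) (hx : IsSt x r) : IsSt ((a : ℝ*) * x) (a * r) :=
  St.mul (St.const a) hx

lemma St.unique {x : ℝ*} {r s : ℝ} (hr : IsSt x r) (hs : IsSt x s) : r = s := IsSt.unique hr hs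

lemma St.le {x y : ℝ*} {r s : ℝ} (hx : IsSt x r) (hy : IsSt y s) (h : x ≤ y) : r ≤ s :=
  IsSt.le hx hy h

/-- finite nonnegative hyperreals have a nonnegative standard part -/
lemma St.exists {x : ℝ*} (h0 : 0 ≤ x) {r : ℝ} (h : x ≤ (r : ℝ*)) :
    ∃ t : ℝ, 0 ≤ t ∧ IsSt x t := by
  have hni : ¬ Infinite x := by
    rintro (h1 | h1)
    · exact absurd (h1 r) (not_lt.2 h)
    · exact absurd (h1 0) (not_lt.2 h0)
  obtain ⟨t, ht⟩ := exists_st_of_not_infinite hni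
  refine ⟨t, ?_, ht⟩
  have := St.le (St.const 0) ht (by exact_mod_cast h0)
  exact this

/-- finite divided by infinite -/
lemma St.div_inf {x y : ℝ*} (h0 : 0 ≤ x) {r : ℝ} (h : x ≤ (r : ℝ*))
    (hy : ∀ s : ℝ, (s : ℝ*) < y) : IsSt (x / y) 0 := by
  have hy0 : (0 : ℝ*) < y := by exact_mod_cast hy 0
  rw [isSt_iff_abs_sub_lt_delta]
  intro δ hδ
  have h1 : (0 : ℝ*) ≤ x / y := div_nonneg h0 hy0.le
  simp only [coe_zero, sub_zero]
  rw [abs_of_nonneg h1, div_lt_iff₀ hy0]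
  have h2 := hy (r / δ)
  have hδ' : (0 : ℝ*) < δ := coe_pos.2 hδ
  calc x ≤ (r : ℝ*) := h
    _ = (δ : ℝ*) * ((r / δ : ℝ) : ℝ*) := by
        rw [← coe_mul]
        congr 1
        field_simp
    _ < δ * y := mul_lt_mul_of_pos_left h2 hδ'

/-- infinite positive hyperreals -/
def Inf (y : ℝ*) : Prop := ∀ s : ℝ, (s : ℝ*) < y

/-- comparable to `y` from below -/
def Lg (y x : ℝ*) : Prop := ∃ κ : ℝ, 0 < κ ∧ (κ : ℝ*) * y ≤ x

/-- finite -/
def Fn (x : ℝ*) : Prop := ∃ r : ℝ, x ≤ (r : ℝ*)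

lemma Inf.pos {y : ℝ*} (h : Inf y) : 0 < y := by exact_mod_cast h 0

lemma Lg.inf {x y : ℝ*} (h : Lg y x) (hy : Inf y) : Inf x := by
  obtain ⟨κ, hκ, h⟩ := h
  intro s
  have hκ' : (0 : ℝ*) < κ := coe_pos.2 hκ
  calc (s : ℝ*) = (κ : ℝ*) * ((s / κ : ℝ) : ℝ*) := by
        rw [← coe_mul]; congr 1; field_simp
    _ < κ * y := mul_lt_mul_of_pos_left (hy _) hκ'
    _ ≤ x := h

lemma Lg.refl (y : ℝ*) : Lg y y := ⟨1, one_pos, by simp⟩

/-- If `y ≤ K x` (real `K > 0`), then `x` is comparable to `y`. -/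
lemma Lg.of_le {x y : ℝ*} {K : ℝ} (hK : 0 < K) (h : y ≤ (K : ℝ*) * x) : Lg y x := by
  refine ⟨1 / K, by positivity, ?_⟩
  have hK' : (0 : ℝ*) < ((1 / K : ℝ) : ℝ*) := coe_pos.2 (by positivity)
  calc ((1 / K : ℝ) : ℝ*) * y ≤ ((1 / K : ℝ) : ℝ*) * ((K : ℝ*) * x) :=
        mul_le_mul_of_nonneg_left h hK'.le
    _ = x := by
        rw [← mul_assoc, ← coe_mul]
        have : 1 / K * K = 1 := by field_simp
        rw [this, coe_one, one_mul]

lemma Lg.le {x y : ℝ*} (h : Lg y x) : ∃ K : ℝ, 0 < K ∧ y ≤ (K : ℝ*) * x := by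
  obtain ⟨κ, hκ, h⟩ := h
  refine ⟨1 / κ, by positivity, ?_⟩
  have hK' : (0 : ℝ*) < ((1 / κ : ℝ) : ℝ*) := coe_pos.2 (by positivity)
  calc y = ((1 / κ : ℝ) : ℝ*) * ((κ : ℝ*) * y) := by
        rw [← mul_assoc, ← coe_mul]
        have : 1 / κ * κ = 1 := by field_simp
        rw [this, coe_one, one_mul]
    _ ≤ ((1 / κ : ℝ) : ℝ*) * x := mul_le_mul_of_nonneg_left h hK'.le

/-- finite factor: if `x * (B * L) ≤ a + β x + K L` with `L` infinite, then `x` is finite -/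
lemma Fn.of_mul {x L : ℝ*} (hx : 0 ≤ x) (hL : Inf L) {B a β K : ℝ} (hB : 0 < B)
    (h : x * ((B : ℝ*) * L) ≤ a + β * x + K * L) : Fn x := by
  -- `B L - β ≥ (B/2) L`, `a ≤ L`
  refine ⟨2 * (1 + |K|) / B, ?_⟩
  have hLp := hL.pos
  have h1 : (β : ℝ*) ≤ ((B / 2 : ℝ) : ℝ*) * L := by
    have := hL (2 * β / B)
    have hB' : (0 : ℝ*) < ((B / 2 : ℝ) : ℝ*) := coe_pos.2 (by positivity)
    calc (β : ℝ*) = ((B / 2 : ℝ) : ℝ*) * ((2 * β / B : ℝ) : ℝ*) := by
          rw [← coe_mul]; congr 1; field_simp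
      _ ≤ _ := (mul_lt_mul_of_pos_left this hB').le
  have h2 : (a : ℝ*) ≤ L := (hL a).le
  have h3 : (K : ℝ*) * L ≤ ((|K| : ℝ) : ℝ*) * L :=
    mul_le_mul_of_nonneg_right (coe_le_coe.2 (le_abs_self K)) hLp.le
  have h4 : (β : ℝ*) * x ≤ ((B / 2 : ℝ) : ℝ*) * L * x := mul_le_mul_of_nonneg_right h1 hx
  have h5 : x * ((B : ℝ*) * L) = ((B / 2 : ℝ) : ℝ*) * L * x + ((B / 2 : ℝ) : ℝ*) * L * x := by
    have : (B : ℝ*) = ((B / 2 : ℝ) : ℝ*) + ((B / 2 : ℝ) : ℝ*) := by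
      rw [← coe_add]; congr 1; ring
    rw [this]; ring
  have h6 : ((B / 2 : ℝ) : ℝ*) * L * x ≤ L + ((|K| : ℝ) : ℝ*) * L := by
    have := h
    rw [h5] at this
    linarith
  have h7 : x * L ≤ ((2 * (1 + |K|) / B : ℝ) : ℝ*) * L := by
    have hB' : (0 : ℝ*) ≤ ((2 / B : ℝ) : ℝ*) := (coe_pos.2 (by positivity)).le
    have h8 := mul_le_mul_of_nonneg_left h6 hB'
    have e1 : ((2 / B : ℝ) : ℝ*) * (((B / 2 : ℝ) : ℝ*) * L * x) = x * L := by
      have : ((2 / B : ℝ) : ℝ*) * ((B / 2 : ℝ) : ℝ*) = 1 := by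
        rw [← coe_mul]
        have : 2 / B * (B / 2) = 1 := by field_simp
        rw [this, coe_one]
      calc ((2 / B : ℝ) : ℝ*) * (((B / 2 : ℝ) : ℝ*) * L * x) =
          (((2 / B : ℝ) : ℝ*) * ((B / 2 : ℝ) : ℝ*)) * (x * L) := by ring
        _ = x * L := by rw [this, one_mul]
    have e2 : ((2 / B : ℝ) : ℝ*) * (L + ((|K| : ℝ) : ℝ*) * L) =
        ((2 * (1 + |K|) / B : ℝ) : ℝ*) * L := by
      have : ((2 * (1 + |K|) / B : ℝ) : ℝ*) =
          ((2 / B : ℝ) : ℝ*) * (1 + ((|K| : ℝ) : ℝ*)) := by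
        rw [← coe_one, ← coe_add, ← coe_mul]; congr 1; ring
      rw [this]; ring
    rw [e1, e2] at h8
    exact h8
  exact le_of_mul_le_mul_right h7 hLp

end Pool.Agent.H299.RDE
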