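import Pool.Agent.H299.RDE.Defs

/-!
# The tables of the classification

Row `m` (`m = 1, 2, …`) is the number in position `m - 1` of the list; the entry in column `n` is
the decimal digit of `10 ^ (n - 1)`, so the rows are read from right to left. The set coded by `m`
contains the index `i` iff the binary digit of `2 ^ i` in `m` is one. The entry is `1` if the
special case with numerator set coded by `m` and denominator set coded by `n` has only bounded
solutions, `2` if it has an unbounded solution for some coefficients, and `0` if it is left open.
-/

namespace Pool.Agent.H299.RDE

/-- the code `∑ 2 ^ i` of a set of indices -/
def code {k : ℕ} (P : Finset (Fin (k + 1))) : ℕ := ∑ i ∈ P, 2 ^ (i : ℕ)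

/-- entry of a table (see above) -/
def entry (t : List ℕ) (m n : ℕ) : ℕ := t.getD (m - 1) 0 / 10 ^ (n - 1) % 10

/-- order three -/
def table3 : List ℕ := [
  111111111111111,
  111211121111112,
  111211121111112,
  111122221111222,
  111122221111222,
  111122221111222,
  111122221111222,
  111111112222222,
  111111112212122,
  111111112212112,
  111111112212112,
  111122222211222,
  111122222211222,
  111122222211222,
  111122222211222]

/-- order four -/
def table4 : List ℕ := [
  1111111111111111111111111111111,
  1112111211121112111211121111112,
  1110111211101112111211121111112,
  1111101011111011111122221111222,
  1111101011111011111122221111222,
  1112111211121112111122221111222,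
  1111111211111112111122221111222,
  1111111122222222111111112222222,
  1111111122221212111111112212122,
  1111111122220000111111112212112,
  1111111122220000111111112212112,
  1111101122221222111122222211222,
  1111111122221222111122222211222,
  1111111122221020111122222211222,
  1111111122221020111122222211222,
  1111111111111111222222222222222,
  1111111111111111221222221222222,
  1111111111111111221222202222222,
  1111111111111111221222202222222,
  1111101111111011222222222222222,
  1111111111111111222222222222222,
  1111111111111111221022222222222,
  1111111111111111221022222222222,
  1111111122220011222222222222222,
  1111111122220011222222222222222,
  1111111122220000221022222222222,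
  1111111122220000221022222222222,
  1111101122221022222222222222222,
  1111111122221022222222222222222,
  1111111122221122221122222222222,
  1111111122221122221122222222222]

end Pool.Agent.H299.RDE
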