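import Pool.Agent.H299.RDE.Sol

/-!
# Unbounded solutions from certificates

If every window with a record value of the functional `v` is followed by a value of `v` which is
larger by one, and if one record window exists, then the solution is unbounded.
-/

namespace Pool.Agent.H299.RDE

/-- shifting positions -/
lemma vval_shift (y : ℕ → ℝ) (m : ℕ) : ∀ (l : List ℕ) (r : ℕ), l.length ≤ r + 1 →
    vval (fun n => y (m + n)) l r = vval y l (m + r) := by
  intro l
  induction l with
  | nil => intro r _; rfl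
  | cons e es ih =>
    intro r hr
    simp only [vval]
    rcases Nat.eq_zero_or_pos r with h0 | h0
    · subst h0
      have : es = [] := by
        have : es.length = 0 := by simpa using hr
        exact List.eq_nil_of_length_eq_zero this
      subst this
      simp [vval]
    · have hes : es.length ≤ (r - 1) + 1 := by
        simp only [List.length_cons] at hr
        omega
      rw [ih (r - 1) hes]
      congr 2
      omega

lemma env_shift {C : Cfg} {y N : ℕ → ℝ} (h : Env C y N) (m : ℕ) :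
    Env C (fun n => y (m + n)) (fun n => N (m + n)) := by
  have hy : ∀ r, 4 ≤ r → ∀ i, i ≤ 4 → yi (fun n => y (m + n)) r i = yi y (m + r) i := by
    intro r hr i hi
    cases i with
    | zero => rfl
    | succ i =>
      simp only [yi]
      congr 1
      omega
  refine ⟨?_, ?_, ?_, ?_⟩
  · intro r hr i hi hP
    rw [hy r hr i hi]
    exact h.hA (m + r) (by omega) i hi hP
  · intro r hr
    obtain ⟨i, hi, hP, hle⟩ := h.hA' (m + r) (by omega)
    exact ⟨i, hi, hP, by rw [hy r hr i hi]; exact hle⟩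
  · intro r hr i hi hQ
    rw [hy r hr i hi]
    exact h.hB (m + r) (by omega) i hi hQ
  · intro r hr
    obtain ⟨i, hi, hQ, hle⟩ := h.hB' (m + r) (by omega)
    exact ⟨i, hi, hQ, by rw [hy r hr i hi]; exact hle⟩

/-- `n` is a record of `v` within the window, with value at least `X0`. -/
structure Rec (C : Cfg) (y : ℕ → ℝ) (n : ℕ) : Prop where
  hw : C.w ≤ n
  hX : (C.X0 : ℝ) ≤ vval y C.ell n
  hR : ∀ k, 1 ≤ k → k + C.ell.length ≤ C.w + 1 → vval y C.ell (n - k) ≤ vval y C.ell n

/-- one step of growth -/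
lemma rec_step {C : Cfg} {y N : ℕ → ℝ} (hE : Env C y N) (hs : C.sR = 0)
    (hlen : C.ell.length ≤ C.w + 1) (hlen1 : 1 ≤ C.ell.length) {t : Tree} (ht : chk C t [] = true) {n : ℕ}
    (hn : Rec C y n) : ∃ n', Rec C y n' ∧ vval y C.ell n + 1 ≤ vval y C.ell n' := by
  have hex : ∃ k, 1 ≤ k ∧ k ≤ C.G ∧ vval y C.ell n + 1 < vval y C.ell (n + k) := by
    by_contra hcon
    push Not at hcon
    have hE' := env_shift hE (n - C.w)
    have hw := hn.hw
    refine chk_sound hE' ?_ t [] (by simp) ht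
    have hv : ∀ r, C.ell.length ≤ r + 1 → vval (fun m => y (n - C.w + m)) C.ell r =
        vval y C.ell (n - C.w + r) := fun r hr => vval_shift y _ _ _ hr
    refine ⟨?_, ?_, ?_⟩
    · rw [hv _ hlen]
      have : n - C.w + C.w = n := by omega
      rw [this]
      exact hn.hX
    · intro k hk1 hk2
      rw [hv (C.w - k) (by omega), hv _ hlen]
      have e1 : n - C.w + (C.w - k) = n - k := by omega
      have e2 : n - C.w + C.w = n := by omega
      rw [e1, e2, hs]
      have := hn.hR k hk1 hk2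
      simpa using this
    · intro k hk1 hk2
      rw [hv (C.w + k) (by omega), hv _ hlen]
      have e1 : n - C.w + (C.w + k) = n + k := by omega
      have e2 : n - C.w + C.w = n := by omega
      rw [e1, e2]
      exact hcon k hk1 hk2
  obtain ⟨k0, hk1, hk2, hk⟩ := hex
  -- the maximum of `v` on `n+1, …, n+G`
  obtain ⟨m, hm, hmax⟩ := Finset.exists_max_image (Finset.Icc (n + 1) (n + C.G))
    (fun m => vval y C.ell m) ⟨n + k0, by simp; omega⟩
  rw [Finset.mem_Icc] at hm
  have hmk := hmax (n + k0) (by simp; omega)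
  have hw := hn.hw
  refine ⟨m, ⟨by omega, ?_, ?_⟩, by linarith⟩
  · have := hn.hX
    linarith
  · intro k hk1 hk2
    rcases Nat.lt_trichotomy (m - k) n with h | h | h
    · have := hn.hR (n - (m - k)) (by omega) (by omega)
      have e : n - (n - (m - k)) = m - k := by omega
      rw [e] at this
      linarith
    · rw [h]; linarith
    · exact hmax (m - k) (by simp; omega)

lemma rec_iter {C : Cfg} {y N : ℕ → ℝ} (hE : Env C y N) (hs : C.sR = 0)
    (hlen : C.ell.length ≤ C.w + 1) (hlen1 : 1 ≤ C.ell.length) {t : Tree} (ht : chk C t [] = true) {n : ℕ}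
    (hn : Rec C y n) (j : ℕ) : ∃ n', Rec C y n' ∧ vval y C.ell n + j ≤ vval y C.ell n' := by
  induction j with
  | zero => exact ⟨n, hn, by simp⟩
  | succ j ih =>
    obtain ⟨n1, h1, h2⟩ := ih
    obtain ⟨n2, h3, h4⟩ := rec_step hE hs hlen hlen1 ht h1
    refine ⟨n2, h3, ?_⟩
    push_cast
    linarith

lemma vval_le {y : ℕ → ℝ} {M : ℝ} (hy : ∀ n, y n ≤ M) : ∀ (l : List ℕ) (r : ℕ),
    vval y l r ≤ l.sum * |M| := by
  intro l
  induction l with
  | nil => intro r; simp [vval]
  | cons e es ih =>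
    intro r
    simp only [vval, List.sum_cons, Nat.cast_add]
    have h1 := ih (r - 1)
    have h2 : (e : ℝ) * y r ≤ e * |M| :=
      mul_le_mul_of_nonneg_left ((hy r).trans (le_abs_self M)) (Nat.cast_nonneg _)
    rw [add_mul]
    linarith

theorem unbounded_of_rec {C : Cfg} {y N : ℕ → ℝ} (hE : Env C y N) (hs : C.sR = 0)
    (hlen : C.ell.length ≤ C.w + 1) (hlen1 : 1 ≤ C.ell.length) {t : Tree} (ht : chk C t [] = true) {n : ℕ}
    (hn : Rec C y n) (M : ℝ) : ¬ ∀ n, y n ≤ M := by
  intro hM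
  obtain ⟨j, hj⟩ := exists_nat_gt (C.ell.sum * |M| - vval y C.ell n)
  obtain ⟨n', _, h2⟩ := rec_iter hE hs hlen hlen1 ht hn j
  have := vval_le hM C.ell n'
  linarith

/-! ### The starting window -/

/-- maximum of a nonempty list -/
def mxl : List ℤ → ℤ
  | [] => 0
  | [a] => a
  | a :: b :: l => max a (mxl (b :: l))

/-- candidates -/
def cand (m : ℕ) (l s : List ℤ) : List ℤ :=
  (bif m.testBit 0 then [l.getD 0 0 + 0] else []) ++
  ((bif m.testBit 1 then [l.getD 1 0 + s.getD 0 0] else []) ++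
  ((bif m.testBit 2 then [l.getD 2 0 + s.getD 1 0] else []) ++
  ((bif m.testBit 3 then [l.getD 3 0 + s.getD 2 0] else []) ++
  (bif m.testBit 4 then [l.getD 4 0 + s.getD 3 0] else []))))

def mx (m : ℕ) (l s : List ℤ) : ℤ := mxl (cand m l s)

/-- one simulation step with lower bounds `lo` and upper bounds `hi` -/
def simStep (C : Cfg) (lo hi : List ℤ) : ℤ × ℤ :=
  (mx C.P C.b lo - (mx C.Q C.c hi + C.eQ), mx C.P C.b hi + C.eP - mx C.Q C.c lo)

/-- iterate, `lo` and `hi` most recent first -/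
def sim (C : Cfg) : ℕ → List ℤ → List ℤ → List ℤ × List ℤ
  | 0, lo, hi => (lo, hi)
  | n + 1, lo, hi => sim C n ((simStep C lo hi).1 :: lo) ((simStep C lo hi).2 :: hi)

/-- functional applied to a reversed list -/
def vz : List ℕ → List ℤ → ℤ
  | [], _ => 0
  | _ :: _, [] => 0
  | e :: es, s :: ss => e * s + vz es ss

/-- all later entries satisfy the record condition -/
def recOk (ell : List ℕ) (X : ℤ) : ℕ → List ℤ → Bool
  | 0, _ => true
  | k + 1, s => decide (vz ell s ≤ X) && recOk ell X k (s.drop 1)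

def startOk (C : Cfg) (n0 : ℕ) (y0 : List ℤ) : Bool :=
  let s := sim C (n0 - 3) y0 y0
  Nat.ble 4 n0 && Nat.ble C.w n0 && decide (C.X0 ≤ vz C.ell s.1) &&
    recOk C.ell (vz C.ell s.1) (C.w + 1 - C.ell.length) (s.2.drop 1)

/-- `s` lists lower/upper bounds of `y n, y (n-1), …, y 0` -/
def Bds (y : ℕ → ℝ) (n : ℕ) (lo hi : List ℤ) : Prop :=
  lo.length = n + 1 ∧ hi.length = n + 1 ∧
    ∀ i, i ≤ n → (lo.getD i 0 : ℝ) ≤ y (n - i) ∧ y (n - i) ≤ (hi.getD i 0 : ℝ)

lemma le_mxl {l : List ℤ} {a : ℤ} (h : a ∈ l) : a ≤ mxl l := by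
  induction l with
  | nil => simp at h
  | cons b l ih =>
    cases l with
    | nil =>
      simp only [List.mem_singleton] at h
      rw [h]
      exact le_refl _
    | cons c l =>
      simp only [mxl]
      rcases List.mem_cons.1 h with rfl | h
      · exact le_max_left _ _
      · exact (ih h).trans (le_max_right _ _)

lemma mxl_mem {l : List ℤ} (h : l ≠ []) : mxl l ∈ l := by
  induction l with
  | nil => exact absurd rfl h
  | cons b l ih =>
    cases l with
    | nil => simp [mxl]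
    | cons c l =>
      simp only [mxl]
      rcases le_total b (mxl (c :: l)) with h1 | h1
      · rw [max_eq_right h1]
        exact List.mem_cons_of_mem _ (ih (by simp))
      · rw [max_eq_left h1]
        exact List.mem_cons_self

/-- value `s_{i-1}`, `0` for `i = 0` -/
def sg (s : List ℤ) (i : ℕ) : ℤ := match i with
  | 0 => 0
  | i + 1 => s.getD i 0

lemma mem_cand_iff (m : ℕ) (l s : List ℤ) (a : ℤ) :
    a ∈ cand m l s ↔ ∃ i, i ≤ 4 ∧ m.testBit i = true ∧ a = l.getD i 0 + sg s i := by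
  have hb : ∀ (b : Bool) (v : ℤ), a ∈ (bif b then [v] else []) ↔ b = true ∧ a = v := by
    intro b v
    cases b <;> simp
  unfold cand
  simp only [List.mem_append, hb]
  constructor
  · rintro (h | h | h | h | h)
    · exact ⟨0, by norm_num, h.1, h.2⟩
    · exact ⟨1, by norm_num, h.1, h.2⟩
    · exact ⟨2, by norm_num, h.1, h.2⟩
    · exact ⟨3, by norm_num, h.1, h.2⟩
    · exact ⟨4, by norm_num, h.1, h.2⟩
  · rintro ⟨i, hi, h1, h2⟩
    interval_cases i
    · exact Or.inl ⟨h1, h2⟩
    · exact Or.inr (Or.inl ⟨h1, h2⟩)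
    · exact Or.inr (Or.inr (Or.inl ⟨h1, h2⟩))
    · exact Or.inr (Or.inr (Or.inr (Or.inl ⟨h1, h2⟩)))
    · exact Or.inr (Or.inr (Or.inr (Or.inr ⟨h1, h2⟩)))

lemma mx_upper (m : ℕ) (l s : List ℤ) {i : ℕ} (hi : i ≤ 4) (hm : m.testBit i = true) :
    l.getD i 0 + sg s i ≤ mx m l s :=
  le_mxl ((mem_cand_iff m l s _).2 ⟨i, hi, hm, rfl⟩)

lemma mx_attained (m : ℕ) (l s : List ℤ) (hm : ∃ i, i ≤ 4 ∧ m.testBit i = true) :
    ∃ i, i ≤ 4 ∧ m.testBit i = true ∧ mx m l s = l.getD i 0 + sg s i := by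
  obtain ⟨i, hi, h⟩ := hm
  have hne : cand m l s ≠ [] := by
    intro he
    have := (mem_cand_iff m l s _).2 ⟨i, hi, h, rfl⟩
    rw [he] at this
    simp at this
  exact (mem_cand_iff m l s _).1 (mxl_mem hne)

lemma sg_bds {y : ℕ → ℝ} {n : ℕ} {lo hi : List ℤ} (h : Bds y n lo hi) (h3 : 3 ≤ n) {i : ℕ}
    (hi4 : i ≤ 4) : (sg lo i : ℝ) ≤ yi y (n + 1) i ∧ yi y (n + 1) i ≤ sg hi i := by
  cases i with
  | zero => simp [sg, yi]
  | succ i =>
    have := h.2.2 i (by omega)
    simp only [sg, yi]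
    have e : n + 1 - (i + 1) = n - i := by omega
    rw [e]
    exact this

lemma simStep_bds {C : Cfg} {y N : ℕ → ℝ} (hE : Env C y N)
    (hP : ∃ i, i ≤ 4 ∧ C.P.testBit i = true) (hQ : ∃ i, i ≤ 4 ∧ C.Q.testBit i = true)
    {n : ℕ} {lo hi : List ℤ} (h : Bds y n lo hi) (h3 : 3 ≤ n) :
    ((simStep C lo hi).1 : ℝ) ≤ y (n + 1) ∧ y (n + 1) ≤ (simStep C lo hi).2 := by
  have hn : 4 ≤ n + 1 := by omega
  -- numerator
  have n1 : (mx C.P C.b lo : ℝ) ≤ N (n + 1) := by
    obtain ⟨i, hi4, hb, he⟩ := mx_attained C.P C.b lo hP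
    have h1 := hE.hA (n + 1) hn i hi4 hb
    have h2 := (sg_bds h h3 hi4).1
    rw [he]
    push_cast
    have : (C.bb i : ℝ) = (C.b.getD i 0 : ℤ) := rfl
    linarith
  have n2 : N (n + 1) ≤ mx C.P C.b hi + C.eP := by
    obtain ⟨i, hi4, hb, hle⟩ := hE.hA' (n + 1) hn
    have h1 := mx_upper C.P C.b hi hi4 hb
    have h2 := (sg_bds h h3 hi4).2
    have h1' : ((C.b.getD i 0 + sg hi i : ℤ) : ℝ) ≤ mx C.P C.b hi := by exact_mod_cast h1
    push_cast at h1'
    have : (C.bb i : ℝ) = (C.b.getD i 0 : ℤ) := rfl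
    linarith
  have d1 : (mx C.Q C.c lo : ℝ) ≤ N (n + 1) - y (n + 1) := by
    obtain ⟨i, hi4, hb, he⟩ := mx_attained C.Q C.c lo hQ
    have h1 := hE.hB (n + 1) hn i hi4 hb
    have h2 := (sg_bds h h3 hi4).1
    rw [he]
    push_cast
    have : (C.cc i : ℝ) = (C.c.getD i 0 : ℤ) := rfl
    linarith
  have d2 : N (n + 1) - y (n + 1) ≤ mx C.Q C.c hi + C.eQ := by
    obtain ⟨i, hi4, hb, hle⟩ := hE.hB' (n + 1) hn
    have h1 := mx_upper C.Q C.c hi hi4 hb
    have h2 := (sg_bds h h3 hi4).2
    have h1' : ((C.c.getD i 0 + sg hi i : ℤ) : ℝ) ≤ mx C.Q C.c hi := by exact_mod_cast h1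
    push_cast at h1'
    have : (C.cc i : ℝ) = (C.c.getD i 0 : ℤ) := rfl
    linarith
  unfold simStep
  push_cast
  constructor <;> linarith

lemma bds_cons {y : ℕ → ℝ} {n : ℕ} {lo hi : List ℤ} (h : Bds y n lo hi) {a b : ℤ}
    (ha : (a : ℝ) ≤ y (n + 1)) (hb : y (n + 1) ≤ b) : Bds y (n + 1) (a :: lo) (b :: hi) := by
  refine ⟨by simp [h.1], by simp [h.2.1], ?_⟩
  intro i hi'
  cases i with
  | zero => simpa using ⟨ha, hb⟩
  | succ i =>
    have := h.2.2 i (by omega)
    have e : n + 1 - (i + 1) = n - i := by omega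
    rw [e]
    simpa using this

lemma sim_bds {C : Cfg} {y N : ℕ → ℝ} (hE : Env C y N)
    (hP : ∃ i, i ≤ 4 ∧ C.P.testBit i = true) (hQ : ∃ i, i ≤ 4 ∧ C.Q.testBit i = true) (k : ℕ) :
    ∀ {n : ℕ} {lo hi : List ℤ}, Bds y n lo hi → 3 ≤ n →
      Bds y (n + k) (sim C k lo hi).1 (sim C k lo hi).2 := by
  induction k with
  | zero => intro n lo hi h _; exact h
  | succ k ih =>
    intro n lo hi h h3
    have hs := simStep_bds hE hP hQ h h3
    have := ih (bds_cons h hs.1 hs.2) (by omega)
    have e : n + (k + 1) = n + 1 + k := by omega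
    rw [e]
    exact this

lemma bds_drop {y : ℕ → ℝ} {n : ℕ} {lo hi : List ℤ} (h : Bds y n lo hi) {k : ℕ} (hk : k ≤ n) :
    Bds y (n - k) (lo.drop k) (hi.drop k) := by
  refine ⟨by simp [h.1]; omega, by simp [h.2.1]; omega, ?_⟩
  intro i hi'
  have := h.2.2 (k + i) (by omega)
  have e : n - (k + i) = n - k - i := by omega
  rw [e] at this
  simpa [List.getD_eq_getElem?_getD, List.getElem?_drop] using this

lemma vz_lower {y : ℕ → ℝ} : ∀ (l : List ℕ) {n : ℕ} {lo hi : List ℤ}, Bds y n lo hi →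
    l.length ≤ n + 1 → (vz l lo : ℝ) ≤ vval y l n ∧ vval y l n ≤ vz l hi := by
  intro l
  induction l with
  | nil => intro n lo hi _ _; simp [vz, vval]
  | cons e es ih =>
    intro n lo hi h hl
    obtain ⟨a, lo', rfl⟩ : ∃ a lo', lo = a :: lo' := by
      cases lo with
      | nil => have := h.1; simp at this
      | cons a lo' => exact ⟨a, lo', rfl⟩
    obtain ⟨b, hi', rfl⟩ : ∃ b hi', hi = b :: hi' := by
      cases hi with
      | nil => have := h.2.1; simp at this
      | cons b hi' => exact ⟨b, hi', rfl⟩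
    have h0 := h.2.2 0 (by omega)
    simp only [List.getD_cons_zero, Nat.sub_zero] at h0
    simp only [vz, vval]
    push_cast
    have he : (0 : ℝ) ≤ e := Nat.cast_nonneg e
    have m1 := mul_le_mul_of_nonneg_left h0.1 he
    have m2 := mul_le_mul_of_nonneg_left h0.2 he
    rcases Nat.eq_zero_or_pos n with hn | hn
    · subst hn
      have : es = [] := by
        have : es.length = 0 := by simpa using hl
        exact List.eq_nil_of_length_eq_zero this
      subst this
      simp only [vz, vval]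
      push_cast
      constructor <;> linarith
    · have hd := bds_drop h (k := 1) (by omega)
      simp only [List.drop_succ_cons, List.drop_zero] at hd
      have hl' : es.length ≤ n - 1 + 1 := by
        simp only [List.length_cons] at hl
        omega
      obtain ⟨i1, i2⟩ := ih hd hl'
      constructor <;> linarith

lemma recOk_sound {y : ℕ → ℝ} (ell : List ℕ) (hell : 1 ≤ ell.length) (X : ℤ) (k : ℕ) :
    ∀ {n : ℕ} {lo hi : List ℤ}, Bds y n lo hi → k + ell.length ≤ n + 2 →
      recOk ell X k hi = true → ∀ j, j < k → vval y ell (n - j) ≤ X := by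
  induction k with
  | zero => intro n lo hi _ _ _ j hj; omega
  | succ k ih =>
    intro n lo hi h hk hr j hj
    simp only [recOk, Bool.and_eq_true, decide_eq_true_eq] at hr
    obtain ⟨h1, h2⟩ := hr
    cases j with
    | zero =>
      have := (vz_lower ell h (by omega)).2
      have h1' : ((vz ell hi : ℤ) : ℝ) ≤ X := by exact_mod_cast h1
      simp only [Nat.sub_zero]
      linarith
    | succ j =>
      have hn : 1 ≤ n := by
        by_contra hcon
        have : n = 0 := by omega
        subst this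
        omega
      have hd := bds_drop h (k := 1) hn
      have := ih hd (by omega) h2 j (by omega)
      have e : n - (j + 1) = n - 1 - j := by omega
      rw [e]
      exact this

theorem rec_of_startOk {C : Cfg} {y N : ℕ → ℝ} (hE : Env C y N)
    (hP : ∃ i, i ≤ 4 ∧ C.P.testBit i = true) (hQ : ∃ i, i ≤ 4 ∧ C.Q.testBit i = true)
    (hlen : C.ell.length ≤ C.w + 1) (hlen1 : 1 ≤ C.ell.length)
    {n0 : ℕ} {y0 : List ℤ} (h0 : Bds y 3 y0 y0) (h : startOk C n0 y0 = true) : Rec C y n0 := by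
  unfold startOk at h
  simp only [Bool.and_eq_true, Nat.ble_eq, decide_eq_true_eq] at h
  obtain ⟨⟨⟨h4, hw⟩, hX⟩, hr⟩ := h
  have hb := sim_bds hE hP hQ (n0 - 3) h0 (le_refl 3)
  have e : 3 + (n0 - 3) = n0 := by omega
  rw [e] at hb
  have hv := (vz_lower C.ell hb (by omega)).1
  refine ⟨hw, ?_, ?_⟩
  · have : (C.X0 : ℝ) ≤ (vz C.ell (sim C (n0 - 3) y0 y0).1 : ℤ) := by exact_mod_cast hX
    linarith
  · intro k hk1 hk2
    have hd := bds_drop hb (k := 1) (by omega)
    have := recOk_sound C.ell hlen1 _ _ hd (by omega) hr (k - 1) (by omega)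
    have e : n0 - 1 - (k - 1) = n0 - k := by omega
    rw [e] at this
    linarith

end Pool.Agent.H299.RDE
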